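import Pool.Agent.H923R2.FP.Stubs

set_option autoImplicit false

open scoped ComplexConjugate

noncomputable section

namespace Pool.Agent.H923R2.FP.T_TI

open Pool.Agent.H923R2.FP

/-- vanishing of `ssum` -/
lemma ssum_zero {Q R : Type} (f : List (Lt Q R) → List (Lt Q R) → ℂ) (n : ℕ)
    (h : ∀ l r : List (Lt Q R), l.countP Lt.isS ≤ n → r.countP Lt.isS ≤ n → f l r = 0) :
    ∀ w l : List (Lt Q R), l.countP Lt.isS + w.countP Lt.isS ≤ n → ssum f l w = 0 := by
  intro w
  induction w with
  | nil => intro l _; simp
  | cons z w ih =>
    intro l hl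
    rw [List.countP_cons] at hl
    rw [ssum_cons, ih (l ++ [z]) (by
      rw [List.countP_append, List.countP_singleton]
      omega), add_zero]
    split_ifs with hz
    · refine h l w (by omega) (by omega)
    · rfl

theorem t_TI (hD : S_DERSD) : S_TI := by
  intro A Q R _ _ _ _ _ _ _ τ π ρ s hF hS L p hL hp h hh hyp
  set θ : Lt Q R → A := vl π ρ s with hθ
  set P : A := ev θ p with hP
  set δ : Lt Q R → A := dl π h P with hδ
  -- cyclicity
  have hcyc : ∀ x y : List (Lt Q R), τ (der θ δ (x ++ y)) = τ (der θ δ (y ++ x)) := by
    intro x y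
    rw [der_append, der_append, map_add, map_add, hF.comm (der θ δ x), hF.comm (ev θ x)]
    ring
  -- words without `s`
  have hh0 : ∀ u v : List (Lt Q R), (∀ z ∈ u, z.isS = false) → (∀ z ∈ v, z.isS = false) →
      τ (ev θ u * h * ev θ v) = 0 := by
    intro u v hu hv
    have h1 : ∀ L' : List (ℂ × List (Lt Q R) × List (Lt Q R)),
        (∀ x ∈ L', (∀ z ∈ x.2.1, z.isS = false) ∧ ∀ z ∈ x.2.2, z.isS = false) →
        τ (ev θ u * (L'.map fun x => x.1 • (ev θ x.2.1 * s * ev θ x.2.2)).sum * ev θ v) = 0 := by
      intro L'
      induction L' with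
      | nil => intro _; simp
      | cons x L' ih =>
        intro hL'
        have h2 := ih fun y hy => hL' y (List.mem_cons_of_mem _ hy)
        obtain ⟨ha, hb⟩ := hL' x (by simp)
        rw [List.map_cons, List.sum_cons, mul_add, add_mul, map_add, h2, add_zero]
        have h3 : ev θ u * x.1 • (ev θ x.2.1 * s * ev θ x.2.2) * ev θ v =
            x.1 • ((ev θ u * ev θ x.2.1) * (s * (ev θ x.2.2 * ev θ v))) := by
          rw [mul_smul_comm, smul_mul_assoc]
          congr 1
          noncomm_ring
        have h4 : (s * (ev θ x.2.2 * ev θ v)) * (ev θ u * ev θ x.2.1) =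
            s * ev θ (x.2.2 ++ v ++ u ++ x.2.1) := by
          simp only [ev_append]
          noncomm_ring
        rw [h3, map_smul, hF.comm, h4, hS.sd, ssum_noS, smul_zero]
        intro z hz
        simp only [List.mem_append] at hz
        rcases hz with ((hz | hz) | hz) | hz
        · exact hb z hz
        · exact hv z hz
        · exact hu z hz
        · exact ha z hz
    rw [hh]
    exact h1 L hL
  have hno : ∀ w l : List (Lt Q R), (∀ z ∈ w, z.isS = false) → (∀ z ∈ l, z.isS = false) →
      τ (ev θ l * der θ δ w) = 0 := by
    intro w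
    induction w with
    | nil => intro l _ _; simp
    | cons z w ih =>
      intro l hw hl
      have hz : z.isS = false := hw z (by simp)
      have hw' : ∀ z ∈ w, z.isS = false := fun y hy => hw y (List.mem_cons_of_mem _ hy)
      have hlz : ∀ y ∈ l ++ [z], y.isS = false := by
        intro y hy
        rcases List.mem_append.1 hy with hy | hy
        · exact hl y hy
        · rw [List.mem_singleton.1 hy]; exact hz
      have h1 := ih (l ++ [z]) hw' hlz
      have h2 : ev θ l * der θ δ (z :: w) = ev θ l * δ z * ev θ w + ev θ (l ++ [z]) * der θ δ w := by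
        rw [der_cons, ev_append, ev_cons, ev_nil, mul_one, mul_add, mul_assoc, mul_assoc]
      rw [h2, map_add, h1, add_zero]
      cases z with
      | s => exact absurd hz (by simp [Lt.isS])
      | r x =>
        have : δ (.r x) = 0 := rfl
        rw [this]
        simp
      | q x =>
        have : δ (.q x) = Complex.I • (π x * h - h * π x) := rfl
        rw [this, mul_smul_comm, smul_mul_assoc, map_smul]
        have h3 : ev θ l * (π x * h - h * π x) * ev θ w =
            ev θ (l ++ [.q x]) * h * ev θ w - ev θ l * h * ev θ (.q x :: w) := by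
          rw [ev_append, ev_cons, ev_cons, ev_nil, mul_one]
          show ev θ l * (π x * h - h * π x) * ev θ w =
            ev θ l * π x * h * ev θ w - ev θ l * h * (π x * ev θ w)
          noncomm_ring
        rw [h3, map_sub, hh0 _ _ hlz hw', hh0 _ _ hl hw, sub_zero, smul_zero]
  -- induction on the number of the letters `s`
  have main : ∀ n : ℕ, ∀ w : List (Lt Q R), w.countP Lt.isS = n → τ (der θ δ w) = 0 := by
    intro n
    induction n using Nat.strong_induction_on with
    | _ n ih =>
      intro w hw
      rcases Nat.eq_zero_or_pos n with hn | hn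
      · subst hn
        have h1 := hno w [] (fun z hz => by
          rw [List.countP_eq_zero] at hw
          simpa using hw z hz) (by simp)
        simpa using h1
      · rw [← hw, gt_iff_lt, List.countP_pos_iff] at hn
        obtain ⟨z, hz, hzs⟩ := hn
        have hzeq : z = .s := by
          cases z with
          | s => rfl
          | q x => simp [Lt.isS] at hzs
          | r x => simp [Lt.isS] at hzs
        subst hzeq
        obtain ⟨w1, w2, rfl⟩ := List.append_of_mem hz
        rw [hcyc, List.cons_append, der_cons]
        have hcnt : (w2 ++ w1).countP Lt.isS < n := by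
          rw [← hw, List.countP_append, List.countP_append, List.countP_cons]
          simp [Lt.isS]
          omega
        have h1 : δ .s = -P := rfl
        have h2 : θ .s = s := rfl
        rw [h1, h2, map_add, neg_mul, map_neg, hD A Q R τ π ρ s hF hS L p hL hp h hh (w2 ++ w1),
          hyp (w2 ++ w1)]
        rw [ssum_zero _ ((w2 ++ w1).countP Lt.isS) ?_ (w2 ++ w1) [] (by simp)]
        · ring
        · intro l r hl hr
          rw [ih _ (lt_of_le_of_lt hl hcnt) l rfl, ih _ (lt_of_le_of_lt hr hcnt) r rfl]
          ring
  exact fun w => main _ w rfl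

end Pool.Agent.H923R2.FP.T_TI
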