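import Pool.Agent.H923R2.FZ.Stubs1

/-!
MP_118406_an, task R0b: stable rank one from the exact unitary polar decomposition.
-/

set_option autoImplicit false

noncomputable section

namespace Pool.Agent.H923R2.FZ.T_R0b

open Pool.Agent.H923R2.FP Pool.Agent.H923R2.FZ

theorem exists_cutoff (η : ℝ) (hη0 : 0 < η) : ∃ K : ℝ → ℝ, Continuous K ∧ (∀ t, 0 ≤ K t) ∧
    (∀ t, K t ≤ 1) ∧ (∀ t, t ≤ η → K t = 0) ∧ ∀ t, 2 * η ≤ t → K t = 1 := by
  refine ⟨fun t => max 0 (min 1 ((t - η) / η)), by fun_prop, fun t => le_max_left _ _,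
    fun t => max_le zero_le_one (min_le_left _ _), ?_, ?_⟩
  · intro t ht
    have : (t - η) / η ≤ 0 := div_nonpos_of_nonpos_of_nonneg (by linarith) hη0.le
    exact max_eq_left ((min_le_right _ _).trans this)
  · intro t ht
    have : 1 ≤ (t - η) / η := by
      rw [le_div_iff₀ hη0]
      linarith
    change max 0 (min 1 ((t - η) / η)) = 1
    rw [min_eq_left this]
    exact max_eq_right zero_le_one

theorem t_R0b : S_R0b := by
  intro B _ hPED x ε hε
  obtain ⟨η, hη⟩ : ∃ η : ℝ, η = ε ^ 2 / 32 := ⟨_, rfl⟩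
  have hη0 : 0 < η := by rw [hη]; positivity
  obtain ⟨a, ha⟩ : ∃ a : B, a = star x * x := ⟨_, rfl⟩
  have hsa : IsSelfAdjoint a := ha ▸ IsSelfAdjoint.star_mul_self x
  have hnn : ∀ t ∈ spectrum ℝ a, 0 ≤ t := fun t ht => by
    rw [ha] at ht
    exact spectrum_star_mul_self_nonneg t ht
  obtain ⟨K, hK, hK0, hK1, hKη, hK2⟩ := exists_cutoff η hη0
  obtain ⟨G, hGdef⟩ : ∃ G : ℝ → ℝ, G = fun t => Real.sqrt t * K t := ⟨_, rfl⟩
  have hG : Continuous G := by
    rw [hGdef]
    exact Real.continuous_sqrt.mul hK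
  have hG0 : ∀ t, 0 ≤ G t := fun t => by
    rw [hGdef]
    exact mul_nonneg (Real.sqrt_nonneg t) (hK0 t)
  have hGK : (fun t => G t / Real.sqrt t) = K := by
    funext t
    rw [hGdef]
    rcases le_or_gt t 0 with ht | ht
    · simp only []
      rw [Real.sqrt_eq_zero_of_nonpos ht, hKη t (by linarith)]
      simp
    · have := Real.sqrt_pos.2 ht
      field_simp
  obtain ⟨w, hw⟩ := hPED x η hη0
  have hw1 := hw G hG (fun t ht => by rw [hGdef]; simp only []; rw [hKη t ht, mul_zero])
  rw [hGK, ← ha] at hw1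
  -- the distance of `x` and `x K(x* x)`
  have h1 : ‖x - x * cfc K a‖ ≤ ε / 4 := by
    have hc : Continuous fun t => 1 - K t := continuous_const.sub hK
    obtain ⟨L, hL⟩ : ∃ L : ℝ → ℝ, L = fun t => 1 - K t := ⟨_, rfl⟩
    rw [← hL] at hc
    have e1 : x - x * cfc K a = x * cfc L a := by
      rw [hL, cfc_sub (fun _ => (1 : ℝ)) K a continuous_const.continuousOn hK.continuousOn,
        cfc_const_one ℝ a, mul_sub, mul_one]
    have e2 : star (x * cfc L a) * (x * cfc L a) = cfc (fun t => L t * (t * L t)) a := by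
      have e3 : star (cfc L a) = cfc L a := (cfc_predicate L a).star_eq
      rw [cfc_mul L (fun t => t * L t) a hc.continuousOn (continuous_id.mul hc).continuousOn,
        cfc_mul (fun t : ℝ => t) L a continuous_id.continuousOn hc.continuousOn,
        cfc_id' ℝ a, star_mul, e3, ha]
      simp only [mul_assoc]
    have e4 : ‖cfc (fun t => L t * (t * L t)) a‖ ≤ 2 * η := by
      apply norm_cfc_le (by positivity)
      intro t ht
      have h0 := hnn t ht
      have h2 : 0 ≤ L t := by rw [hL]; simp only []; linarith [hK1 t]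
      have h3 : L t ≤ 1 := by rw [hL]; simp only []; linarith [hK0 t]
      rw [Real.norm_of_nonneg (by positivity)]
      rcases le_or_gt (2 * η) t with h4 | h4
      · have : L t = 0 := by rw [hL]; simp only []; rw [hK2 t h4]; ring
        rw [this]
        simp
        exact hη0.le
      · calc L t * (t * L t) ≤ 1 * (t * 1) := by gcongr
          _ ≤ 2 * η := by linarith
    rw [e1]
    have e5 : ‖x * cfc L a‖ * ‖x * cfc L a‖ ≤ 2 * η := by
      rw [← CStarRing.norm_star_mul_self, e2]
      exact e4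
    have e6 : 2 * η = (ε / 4) * (ε / 4) := by rw [hη]; ring
    rw [e6] at e5
    exact (mul_self_le_mul_self_iff (norm_nonneg _) (by positivity)).2 e5
  -- the invertible element
  have hGc : Continuous fun t => G t + ε / 4 := hG.add continuous_const
  have hu : IsUnit (cfc (fun t => G t + ε / 4) a) := by
    rw [isUnit_cfc_iff (R := ℝ) (fun t => G t + ε / 4) a hGc.continuousOn]
    intro t _
    have := hG0 t
    positivity
  refine ⟨(w : B) * cfc (fun t => G t + ε / 4) a, ?_, ?_⟩
  · exact (Unitary.toUnits w).isUnit.mul hu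
  · have e1 : cfc (fun t => G t + ε / 4) a = cfc G a + cfc (fun _ => ε / 4) a := by
      rw [cfc_add (a := a) G (fun _ => ε / 4) hG.continuousOn continuous_const.continuousOn]
    have e2 : x - (w : B) * cfc (fun t => G t + ε / 4) a =
        (x - x * cfc K a) - (w : B) * cfc (fun _ => ε / 4) a := by
      rw [e1, mul_add, hw1]
      abel
    have e3 : ‖(w : B) * cfc (fun _ : ℝ => ε / 4) a‖ ≤ ε / 4 := by
      rw [CStarRing.norm_coe_unitary_mul]
      apply norm_cfc_le (by positivity)
      intro t _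
      rw [Real.norm_of_nonneg (by positivity)]
    rw [e2]
    calc _ ≤ ‖x - x * cfc K a‖ + ‖(w : B) * cfc (fun _ : ℝ => ε / 4) a‖ := norm_sub_le _ _
      _ ≤ ε / 4 + ε / 4 := add_le_add h1 e3
      _ < ε := by linarith

end Pool.Agent.H923R2.FZ.T_R0b
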