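import Mathlib

/-!
Combinatorial part: digit space, nodes, averages over descendants.
-/

open Filter Topology Set

namespace H794R2.Cor

/-- The digit space `X = ∏_k {0, ..., 2^(k+1)-1}`. -/
abbrev X := (k : ℕ) → Fin (2 ^ (k + 1))

/-- Nodes of level `k`. -/
abbrev N (k : ℕ) := (l : Fin k) → Fin (2 ^ ((l : ℕ) + 1))

/-- All nodes. -/
abbrev Node := Σ k : ℕ, N k

/-- A node is `q`-alive if it never meets the digits of `q`. -/
def alive (q : X) (t : Node) : Prop := ∀ l : Fin t.1, t.2 l ≠ q l

/-- Replace the first `k` digits of `u` by those of `s`. -/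
def splice {k j : ℕ} (s : N k) (u : N j) : N j :=
  fun l => if h : (l : ℕ) < k then s ⟨l, h⟩ else u l

/-- Average of `g` over the level-`j` descendants of `s`. -/
noncomputable def avg (g : Node → ℝ) (s : Node) (j : ℕ) : ℝ :=
  (∑ u : N j, g ⟨j, splice s.2 u⟩) / Fintype.card (N j)

lemma card_N_pos (j : ℕ) : 0 < Fintype.card (N j) := Fintype.card_pos

lemma card_eq_mul {j : ℕ} (l : Fin j) (c : Fin (2 ^ ((l : ℕ) + 1))) :
    (Finset.univ.filter (fun u : N j => u l = c)).card * 2 ^ ((l : ℕ) + 1)
      = Fintype.card (N j) := by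
  classical
  have h1 : (Finset.univ.filter (fun u : N j => u l = c))
      = Fintype.piFinset (fun i : Fin j => if h : i = l then
          ({h ▸ c} : Finset (Fin (2 ^ ((i : ℕ) + 1)))) else Finset.univ) := by
    ext u
    simp only [Finset.mem_filter, Finset.mem_univ, true_and, Fintype.mem_piFinset]
    constructor
    · intro h i
      by_cases hi : i = l
      · subst hi
        simp [h]
      · simp [hi]
    · intro h
      have := h l
      simpa using this
  rw [h1, Fintype.card_piFinset, Fintype.card_pi]
  rw [← Finset.mul_prod_erase Finset.univ _ (Finset.mem_univ l),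
    ← Finset.mul_prod_erase Finset.univ (fun i : Fin j => Fintype.card (Fin (2 ^ ((i : ℕ) + 1))))
      (Finset.mem_univ l)]
  have h2 : ∏ x ∈ Finset.univ.erase l,
      (if h : x = l then ({h ▸ c} : Finset (Fin (2 ^ ((x : ℕ) + 1)))) else Finset.univ).card
      = ∏ x ∈ Finset.univ.erase l, Fintype.card (Fin (2 ^ ((x : ℕ) + 1))) := by
    apply Finset.prod_congr rfl
    intro x hx
    have : x ≠ l := (Finset.mem_erase.mp hx).1
    simp [this]
  rw [h2]
  simp
  ring

open Classical in
/-- The fraction of descendants whose status differs from the status of `s` is at most `2^{-k}`. -/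
lemma bad_le (q : X) (s : Node) (j : ℕ) (hj : s.1 ≤ j) :
    ((Finset.univ.filter (fun u : N j =>
      ¬ (alive q ⟨j, splice s.2 u⟩ ↔ alive q s))).card : ℝ)
      ≤ (1 / 2) ^ s.1 * Fintype.card (N j) := by
  obtain ⟨k, s⟩ := s
  simp only at hj ⊢
  by_cases hs : alive q ⟨k, s⟩
  · -- bad ones meet `q` at some digit `≥ k`
    have hsub : (Finset.univ.filter (fun u : N j =>
        ¬ (alive q ⟨j, splice s u⟩ ↔ alive q ⟨k, s⟩)))
        ⊆ (Finset.univ.filter (fun l : Fin j => k ≤ (l : ℕ))).biUnion
          (fun l => Finset.univ.filter (fun u : N j => u l = q l)) := by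
      intro u hu
      simp only [Finset.mem_filter, Finset.mem_univ, true_and, hs, iff_true] at hu
      unfold alive at hu
      push Not at hu
      obtain ⟨l, hl⟩ := hu
      simp only at l hl
      by_cases hlk : (l : ℕ) < k
      · exfalso
        have : splice s u l = s ⟨l, hlk⟩ := by simp [splice, hlk]
        rw [this] at hl
        exact hs ⟨l, hlk⟩ hl
      · have : splice s u l = u l := by simp [splice, hlk]
        rw [this] at hl
        simp only [Finset.mem_biUnion, Finset.mem_filter, Finset.mem_univ, true_and]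
        exact ⟨l, not_lt.mp hlk, hl⟩
    have h1 : ((Finset.univ.filter (fun u : N j =>
        ¬ (alive q ⟨j, splice s u⟩ ↔ alive q ⟨k, s⟩))).card : ℝ)
        ≤ ∑ l ∈ Finset.univ.filter (fun l : Fin j => k ≤ (l : ℕ)),
          ((Finset.univ.filter (fun u : N j => u l = q l)).card : ℝ) := by
      have := (Finset.card_le_card hsub).trans Finset.card_biUnion_le
      exact_mod_cast this
    have h2 : ∀ l : Fin j, ((Finset.univ.filter (fun u : N j => u l = q l)).card : ℝ)
        = Fintype.card (N j) * (1 / 2) ^ ((l : ℕ) + 1) := by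
      intro l
      have h := card_eq_mul l (q l)
      have h' : ((Finset.univ.filter (fun u : N j => u l = q l)).card : ℝ) * 2 ^ ((l : ℕ) + 1)
          = Fintype.card (N j) := by exact_mod_cast h
      rw [← h', mul_assoc, ← mul_pow]
      norm_num
    have h3 : ∑ l ∈ Finset.univ.filter (fun l : Fin j => k ≤ (l : ℕ)),
          ((1 / 2 : ℝ)) ^ ((l : ℕ) + 1) ≤ (1 / 2) ^ k := by
      have e1 : ∑ l ∈ Finset.univ.filter (fun l : Fin j => k ≤ (l : ℕ)),
          ((1 / 2 : ℝ)) ^ ((l : ℕ) + 1) = ∑ l ∈ Finset.Ico k j, ((1 / 2 : ℝ)) ^ (l + 1) := by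
        rw [Finset.sum_filter, Fin.sum_univ_eq_sum_range
          (fun l => if k ≤ l then ((1 / 2 : ℝ)) ^ (l + 1) else 0) j, ← Finset.sum_filter]
        apply Finset.sum_congr _ (fun _ _ => rfl)
        ext l
        simp only [Finset.mem_filter, Finset.mem_range, Finset.mem_Ico]
        tauto
      rw [e1]
      have e2 : ∀ j, k ≤ j → ∑ l ∈ Finset.Ico k j, ((1 / 2 : ℝ)) ^ (l + 1)
          = (1 / 2) ^ k - (1 / 2) ^ j := by
        intro j hj
        induction j, hj using Nat.le_induction with
        | base => simp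
        | succ n hn ih =>
          rw [Finset.sum_Ico_succ_top hn, ih]
          ring
      rw [e2 j hj]
      have : (0 : ℝ) ≤ (1 / 2) ^ j := by positivity
      linarith
    calc _ ≤ _ := h1
      _ = Fintype.card (N j) * ∑ l ∈ Finset.univ.filter (fun l : Fin j => k ≤ (l : ℕ)),
          ((1 / 2 : ℝ)) ^ ((l : ℕ) + 1) := by
          rw [Finset.mul_sum]
          exact Finset.sum_congr rfl (fun l _ => h2 l)
      _ ≤ Fintype.card (N j) * (1 / 2) ^ k := by
          apply mul_le_mul_of_nonneg_left h3
          positivity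
      _ = _ := by ring
  · -- all descendants are dead
    have : (Finset.univ.filter (fun u : N j =>
        ¬ (alive q ⟨j, splice s u⟩ ↔ alive q ⟨k, s⟩))) = ∅ := by
      apply Finset.filter_eq_empty_iff.mpr
      intro u _ hc
      apply hc
      simp only [hs, iff_false]
      intro hal
      apply hs
      intro l
      simp only at l
      have h1 := hal ⟨l, lt_of_lt_of_le l.2 hj⟩
      have h2 : splice s u ⟨l, lt_of_lt_of_le l.2 hj⟩ = s l := by
        simp [splice]
      simp only [h2] at h1
      exact h1
    rw [this, Finset.card_empty, Nat.cast_zero]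
    positivity

lemma finite_level_le (k : ℕ) : {t : Node | t.1 ≤ k}.Finite := by
  have : {t : Node | t.1 ≤ k} = ⋃ i ∈ Set.Iic k, Set.range (fun u : N i => (⟨i, u⟩ : Node)) := by
    ext ⟨i, u⟩
    simp
  rw [this]
  exact (Set.finite_Iic k).biUnion (fun i _ => Set.finite_range _)

lemma tendsto_level : Tendsto (fun t : Node => t.1) cofinite atTop := by
  rw [tendsto_atTop]
  intro b
  have h := finite_level_le b
  refine (h.subset ?_)
  intro t ht
  simp only [Set.mem_compl_iff, Set.mem_ofPred_eq] at ht
  simp only [Set.mem_ofPred_eq]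
  omega

end H794R2.Cor
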