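import Pool.Agent.H794R2.CorA

/-!
Averages: estimates, ultrafilter limits.
-/

open Filter Topology Set

namespace H794R2.Cor

open Classical in
lemma abs_avg_sub_le {F : Finset X} {g : Node → ℝ} {C ε : ℝ} (hC : ∀ t, |g t| ≤ C)
    (hε : 0 ≤ ε) (s : Node) (j : ℕ) (hj : s.1 ≤ j)
    (hg : ∀ u : N j, (∀ q ∈ F, (alive q ⟨j, splice s.2 u⟩ ↔ alive q s)) →
      |g ⟨j, splice s.2 u⟩ - g s| ≤ ε) :
    |avg g s j - g s| ≤ ε + 2 * C * F.card * (1 / 2) ^ s.1 := by
  have hC0 : 0 ≤ C := (abs_nonneg _).trans (hC s)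
  have hcard : (0 : ℝ) < Fintype.card (N j) := by exact_mod_cast card_N_pos j
  have h1 : avg g s j - g s = (∑ u : N j, (g ⟨j, splice s.2 u⟩ - g s)) / Fintype.card (N j) := by
    unfold avg
    rw [Finset.sum_sub_distrib, sub_div]
    congr 1
    rw [Finset.sum_const, Finset.card_univ, nsmul_eq_mul]
    field_simp
  rw [h1, abs_div, abs_of_pos hcard, div_le_iff₀ hcard]
  have h2 : ∀ u : N j, |g ⟨j, splice s.2 u⟩ - g s| ≤
      ε + ∑ q ∈ F, (if ¬ (alive q ⟨j, splice s.2 u⟩ ↔ alive q s) then 2 * C else 0) := by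
    intro u
    by_cases hu : ∀ q ∈ F, (alive q ⟨j, splice s.2 u⟩ ↔ alive q s)
    · have := hg u hu
      have h3 : 0 ≤ ∑ q ∈ F, (if ¬ (alive q ⟨j, splice s.2 u⟩ ↔ alive q s) then 2 * C else 0) := by
        apply Finset.sum_nonneg
        intro q _
        split_ifs <;> positivity
      linarith
    · push Not at hu
      obtain ⟨q, hq, hq'⟩ := hu
      have h3 : (if ¬ (alive q ⟨j, splice s.2 u⟩ ↔ alive q s) then 2 * C else 0) ≤
          ∑ q ∈ F, (if ¬ (alive q ⟨j, splice s.2 u⟩ ↔ alive q s) then 2 * C else 0) := by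
        apply Finset.single_le_sum (f := fun q =>
          (if ¬ (alive q ⟨j, splice s.2 u⟩ ↔ alive q s) then 2 * C else 0)) _ hq
        intro q _
        split_ifs <;> positivity
      have h4 : ¬ (alive q ⟨j, splice s.2 u⟩ ↔ alive q s) := by tauto
      rw [if_pos h4] at h3
      have h5 : |g ⟨j, splice s.2 u⟩ - g s| ≤ 2 * C := by
        have := abs_sub (g ⟨j, splice s.2 u⟩) (g s)
        have a1 := hC ⟨j, splice s.2 u⟩
        have a2 := hC s
        linarith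
      linarith
  calc |∑ u : N j, (g ⟨j, splice s.2 u⟩ - g s)|
      ≤ ∑ u : N j, |g ⟨j, splice s.2 u⟩ - g s| := Finset.abs_sum_le_sum_abs _ _
    _ ≤ ∑ u : N j, (ε + ∑ q ∈ F,
        (if ¬ (alive q ⟨j, splice s.2 u⟩ ↔ alive q s) then 2 * C else 0)) :=
        Finset.sum_le_sum (fun u _ => h2 u)
    _ = Fintype.card (N j) * ε + ∑ q ∈ F, ∑ u : N j,
        (if ¬ (alive q ⟨j, splice s.2 u⟩ ↔ alive q s) then 2 * C else 0) := by
        rw [Finset.sum_add_distrib, Finset.sum_const, Finset.card_univ, nsmul_eq_mul,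
          Finset.sum_comm]
    _ ≤ Fintype.card (N j) * ε + ∑ q ∈ F, (2 * C * ((1 / 2) ^ s.1 * Fintype.card (N j))) := by
        gcongr with q hq
        rw [← Finset.sum_filter, Finset.sum_const, nsmul_eq_mul, mul_comm]
        apply mul_le_mul_of_nonneg_left _ (by positivity)
        exact bad_le q s j hj
    _ = (ε + 2 * C * F.card * (1 / 2) ^ s.1) * Fintype.card (N j) := by
        rw [Finset.sum_const, nsmul_eq_mul]
        ring

lemma abs_avg_le {g : Node → ℝ} {C : ℝ} (j : ℕ) (hC : ∀ u : N j, |g ⟨j, u⟩| ≤ C) (s : Node) :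
    |avg g s j| ≤ C := by
  have hcard : (0 : ℝ) < Fintype.card (N j) := by exact_mod_cast card_N_pos j
  unfold avg
  rw [abs_div, abs_of_pos hcard, div_le_iff₀ hcard]
  calc |∑ u : N j, g ⟨j, splice s.2 u⟩| ≤ ∑ u : N j, |g ⟨j, splice s.2 u⟩| :=
        Finset.abs_sum_le_sum_abs _ _
    _ ≤ ∑ u : N j, C := Finset.sum_le_sum (fun u _ => hC _)
    _ = C * Fintype.card (N j) := by
        rw [Finset.sum_const, Finset.card_univ, nsmul_eq_mul, mul_comm]

lemma avg_add (g h : Node → ℝ) (s : Node) (j : ℕ) :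
    avg (g + h) s j = avg g s j + avg h s j := by
  unfold avg
  simp only [Pi.add_apply]
  rw [Finset.sum_add_distrib, add_div]

lemma avg_smul (c : ℝ) (g : Node → ℝ) (s : Node) (j : ℕ) :
    avg (c • g) s j = c * avg g s j := by
  unfold avg
  simp only [Pi.smul_apply, smul_eq_mul]
  rw [← Finset.mul_sum, mul_div_assoc]

lemma avg_tendsto_zero {g : Node → ℝ} (hg : Tendsto g cofinite (𝓝 0)) (s : Node) :
    Tendsto (avg g s) atTop (𝓝 0) := by
  rw [Metric.tendsto_atTop]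
  intro ε hε
  have h1 : ∀ᶠ t in cofinite, |g t| < ε / 2 := by
    have := (Metric.tendsto_nhds.mp hg) (ε / 2) (by positivity)
    simpa [Real.dist_eq] using this
  have h2 : {t : Node | ¬ |g t| < ε / 2}.Finite := h1
  obtain ⟨M, hM⟩ : ∃ M, ∀ t ∈ {t : Node | ¬ |g t| < ε / 2}, t.1 ≤ M := by
    obtain ⟨M, hM⟩ := (h2.image (fun t => t.1)).bddAbove
    exact ⟨M, fun t ht => hM ⟨t, ht, rfl⟩⟩
  refine ⟨M + 1, fun j hj => ?_⟩
  rw [Real.dist_eq, sub_zero]
  have : |avg g s j| ≤ ε / 2 := by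
    apply abs_avg_le
    intro u
    by_contra hc
    push Not at hc
    have := hM ⟨j, u⟩ (not_lt.mpr hc.le)
    simp only at this
    omega
  linarith

/-- Limit along a fixed free ultrafilter on `ℕ`. -/
noncomputable def ulim (a : ℕ → ℝ) : ℝ := limUnder (hyperfilter ℕ : Filter ℕ) a

lemma tendsto_ulim {a : ℕ → ℝ} {C : ℝ} (h : ∀ j, |a j| ≤ C) :
    Tendsto a (hyperfilter ℕ : Filter ℕ) (𝓝 (ulim a)) := by
  have hc : IsCompact (Set.Icc (-C) C) := isCompact_Icc
  have hle : ((hyperfilter ℕ).map a : Filter ℝ) ≤ 𝓟 (Set.Icc (-C) C) := by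
    rw [le_principal_iff]
    exact Ultrafilter.mem_map.mpr (Filter.univ_mem' (fun j => abs_le.mp (h j)))
  obtain ⟨x, _, hx⟩ := hc.ultrafilter_le_nhds ((hyperfilter ℕ).map a) hle
  exact tendsto_nhds_limUnder ⟨x, hx⟩

lemma ulim_eq {a : ℕ → ℝ} {x : ℝ} (h : Tendsto a (hyperfilter ℕ : Filter ℕ) (𝓝 x)) :
    ulim a = x := h.limUnder_eq

lemma ulim_abs_le {a : ℕ → ℝ} {C : ℝ} (h : ∀ j, |a j| ≤ C) : |ulim a| ≤ C := by
  have h1 := (tendsto_ulim h).abs
  exact le_of_tendsto h1 (Filter.Eventually.of_forall h)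

end H794R2.Cor
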