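import Pool.Agent.H794R2.CorB

/-!
The two compact subsets of the cube `(Q ⊕ Node) → Bool`.
-/

open Filter Topology Set

namespace H794R2.Cor

variable (Q : Set X)

/-- The Cantor cube. -/
abbrev Cube := (Q ⊕ Node) → Bool

variable {Q}

open Classical in
/-- The isolated points of the first space. -/
noncomputable def p (t : Node) : Cube Q :=
  Sum.elim (fun q => decide (alive q.1 t)) (fun t' => decide (t' = t))

open Classical in
/-- The isolated points of the second space. -/
noncomputable def p' (y : Cube Q) (t : Node) : Cube Q :=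
  Sum.elim (fun q => y (Sum.inl q)) (fun t' => decide (t' = t))

variable (Q)

/-- The common remainder. -/
def L0 : Set (Cube Q) := {z | MapClusterPt z cofinite (p (Q := Q))}

variable {Q}

lemma isClosed_L0 : IsClosed (L0 Q) := by
  unfold L0 MapClusterPt
  exact isClosed_setOfPred_clusterPt

lemma p_inr (t t' : Node) : p (Q := Q) t (Sum.inr t') = true ↔ t' = t := by
  simp [p]

lemma p'_inr (y : Cube Q) (t t' : Node) : p' y t (Sum.inr t') = true ↔ t' = t := by
  simp [p']

lemma p_inl (t : Node) (q : Q) : p (Q := Q) t (Sum.inl q) = true ↔ alive q.1 t := by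
  simp [p]

lemma isOpen_coord (i : Q ⊕ Node) (b : Bool) : IsOpen {z : Cube Q | z i = b} :=
  (isOpen_discrete ({b} : Set Bool)).preimage
    (show Continuous (fun z : Cube Q => z i) from continuous_apply i)

lemma L0_inr {z : Cube Q} (hz : z ∈ L0 Q) (t : Node) : z (Sum.inr t) = false := by
  by_contra hc
  have hc' : z (Sum.inr t) = true := by simpa using hc
  have h1 : {w : Cube Q | w (Sum.inr t) = true} ∈ 𝓝 z :=
    (isOpen_coord (Sum.inr t) true).mem_nhds hc'
  have h2 := (mapClusterPt_iff_frequently.mp hz) _ h1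
  have h3 : {s : Node | p (Q := Q) s ∈ {w : Cube Q | w (Sum.inr t) = true}} = {t} := by
    ext s
    simp only [Set.mem_ofPred_eq, p_inr, Set.mem_singleton_iff]
    exact eq_comm
  rw [Filter.frequently_cofinite_iff_infinite] at h2
  apply h2
  rw [show {x | p x ∈ {w : Cube Q | w (Sum.inr t) = true}} = {t} from h3]
  exact Set.finite_singleton t

/-- General topological lemma. -/
lemma isClosed_union_range {ι Z : Type*} [TopologicalSpace Z] [T1Space Z] (f : ι → Z) {C : Set Z}
    (hC : IsClosed C) (h : ∀ z, MapClusterPt z cofinite f → z ∈ C) :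
    IsClosed (C ∪ Set.range f) := by
  rw [← closure_subset_iff_isClosed, closure_union, hC.closure_eq]
  rintro z (hz | hz)
  · exact Or.inl hz
  · by_cases hzr : z ∈ Set.range f
    · exact Or.inr hzr
    · left
      apply h
      rw [mapClusterPt_iff_frequently]
      intro s hs
      rw [Filter.frequently_cofinite_iff_infinite]
      intro hfin
      have h1 : s ∩ (f '' {x | f x ∈ s})ᶜ ∈ 𝓝 z := by
        apply Filter.inter_mem hs
        apply (hfin.image f).isClosed.isOpen_compl.mem_nhds
        rintro ⟨x, _, hx⟩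
        exact hzr ⟨x, hx⟩
      obtain ⟨w, hw1, hw2⟩ := mem_closure_iff_nhds.mp hz _ h1
      obtain ⟨x, rfl⟩ := hw2
      exact hw1.2 ⟨x, hw1.1, rfl⟩

/-- First space. -/
def KK (Q : Set X) : Set (Cube Q) := L0 Q ∪ Set.range p

/-- Second space. -/
def LL (y : Cube Q) : Set (Cube Q) := L0 Q ∪ Set.range (p' y)

lemma isClosed_KK : IsClosed (KK Q) := isClosed_union_range _ isClosed_L0 (fun _ h => h)

lemma tendsto_p' {y : Cube Q} (hy : y ∈ L0 Q) : Tendsto (p' y) cofinite (𝓝 y) := by
  rw [tendsto_pi_nhds]
  rintro (q | t)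
  · simp only [p', Sum.elim_inl]
    exact tendsto_const_nhds
  · rw [L0_inr hy t]
    apply tendsto_const_nhds.congr'
    have : ∀ᶠ s : Node in cofinite, s ≠ t := by
      simp [Filter.eventually_cofinite]
    filter_upwards [this] with s hs
    simp [p', Ne.symm hs]

lemma isClosed_LL {y : Cube Q} (hy : y ∈ L0 Q) : IsClosed (LL y) := by
  apply isClosed_union_range _ isClosed_L0
  intro z hz
  have : z = y := by
    by_contra hne
    have h1 := (tendsto_p' hy)
    have h2 : (𝓝 z ⊓ 𝓝 y).NeBot := by
      have h3 : ClusterPt z (map (p' y) cofinite) := hz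
      have h4 : ClusterPt z (𝓝 y) := h3.mono h1
      exact h4
    exact hne (eq_of_nhds_neBot h2)
  rwa [this]

lemma L0_nonempty : (L0 Q).Nonempty := by
  have : (cofinite : Filter Node).NeBot := inferInstance
  obtain ⟨z, hz⟩ := exists_clusterPt_of_compactSpace (map (p (Q := Q)) cofinite)
  exact ⟨z, hz⟩

/-- Points where the node coordinates single out at most one node. -/
def DD (Q : Set X) : Set (Cube Q) :=
  {z | ∀ t t', z (Sum.inr t) = true → z (Sum.inr t') = true → t = t'}

lemma KK_sub : KK Q ⊆ DD Q := by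
  rintro z (hz | ⟨s, rfl⟩) t t' h1 h2
  · rw [L0_inr hz t] at h1
    exact absurd h1 (by simp)
  · rw [p_inr] at h1 h2
    rw [h1, h2]

lemma LL_sub (y : Cube Q) : LL y ⊆ DD Q := by
  rintro z (hz | ⟨s, rfl⟩) t t' h1 h2
  · rw [L0_inr hz t] at h1
    exact absurd h1 (by simp)
  · rw [p'_inr] at h1 h2
    rw [h1, h2]

open Classical in
/-- The function equal to `r t` at the node `t` and zero on the remainder. -/
noncomputable def bumpFun (r : Node → ℝ) (z : Cube Q) : ℝ :=
  if h : ∃ t, z (Sum.inr t) = true then r h.choose else 0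

lemma bumpFun_node (r : Node → ℝ) {z : Cube Q} (hz : z ∈ DD Q) {t : Node}
    (h : z (Sum.inr t) = true) : bumpFun r z = r t := by
  unfold bumpFun
  have h' : ∃ t, z (Sum.inr t) = true := ⟨t, h⟩
  rw [dif_pos h']
  rw [hz _ _ h'.choose_spec h]

lemma bumpFun_zero (r : Node → ℝ) {z : Cube Q} (h : ∀ t, z (Sum.inr t) = false) :
    bumpFun r z = 0 := by
  unfold bumpFun
  rw [dif_neg]
  rintro ⟨t, ht⟩
  rw [h t] at ht
  exact absurd ht (by simp)

lemma continuous_bump {r : Node → ℝ} (hr : Tendsto r cofinite (𝓝 0)) {S : Set (Cube Q)}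
    (hS : S ⊆ DD Q) : Continuous (fun z : S => bumpFun r z.1) := by
  classical
  apply continuous_of_uniform_approx_of_continuous
  intro u hu
  obtain ⟨ε, hε, hεu⟩ := Metric.mem_uniformity_dist.mp hu
  have h1 : ∀ᶠ t in cofinite, |r t| < ε := by
    have := (Metric.tendsto_nhds.mp hr) ε hε
    simpa [Real.dist_eq] using this
  have h2 : {t : Node | ¬ |r t| < ε}.Finite := h1
  refine ⟨fun z : S => ∑ t ∈ h2.toFinset, if z.1 (Sum.inr t) = true then r t else 0, ?_, ?_⟩
  · apply continuous_finsetSum
    intro t _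
    have hc : Continuous (fun z : S => z.1 (Sum.inr t)) :=
      (show Continuous (fun z : Cube Q => z (Sum.inr t)) from continuous_apply _).comp
        continuous_subtype_val
    exact (continuous_of_discreteTopology (f := fun b : Bool => if b = true then r t else 0)).comp hc
  · intro z
    apply hεu
    rw [Real.dist_eq]
    beta_reduce
    by_cases hz : ∃ t, z.1 (Sum.inr t) = true
    · obtain ⟨t, ht⟩ := hz
      rw [bumpFun_node r (hS z.2) ht]
      by_cases hm : t ∈ h2.toFinset
      · rw [Finset.sum_eq_single t]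
        · rw [if_pos ht, sub_self, abs_zero]
          exact hε
        · intro t' _ hne
          rw [if_neg]
          intro hc
          exact hne (hS z.2 _ _ hc ht)
        · intro hc
          exact absurd hm hc
      · rw [Finset.sum_eq_zero]
        · rw [sub_zero]
          have : ¬ ¬ |r t| < ε := by
            intro hc
            exact hm (h2.mem_toFinset.mpr hc)
          exact not_not.mp this
        · intro t' ht'
          rw [if_neg]
          intro hc
          apply hm
          rw [← hS z.2 _ _ hc ht]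
          exact ht'
    · push Not at hz
      have hz' : ∀ t, z.1 (Sum.inr t) = false := fun t => by simpa using hz t
      rw [bumpFun_zero r hz', Finset.sum_eq_zero]
      · simpa using hε
      · intro t _
        rw [if_neg]
        simp [hz' t]

/-- The bump as a continuous function on `S`. -/
noncomputable def bump {r : Node → ℝ} (hr : Tendsto r cofinite (𝓝 0)) {S : Set (Cube Q)}
    (hS : S ⊆ DD Q) : C(S, ℝ) := ⟨fun z => bumpFun r z.1, continuous_bump hr hS⟩

/-- A continuous function on a closed subset of the cube depends, up to `ε`, on finitely many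
coordinates. -/
lemma exists_finset {ι : Type*} {S : Set (ι → Bool)} (hS : IsClosed S) (g : C(S, ℝ)) {ε : ℝ}
    (hε : 0 < ε) : ∃ F : Finset ι, ∀ z z' : S, (∀ i ∈ F, z.1 i = z'.1 i) → |g z - g z'| < ε := by
  classical
  have : CompactSpace S := isCompact_iff_compactSpace.mp hS.isCompact
  have h1 : ∀ z : S, ∃ F : Finset ι, ∀ z' : S, (∀ i ∈ F, z.1 i = z'.1 i) → |g z' - g z| < ε / 2 := by
    intro z
    have hU : IsOpen {z' : S | |g z' - g z| < ε / 2} :=
      isOpen_lt (by fun_prop) continuous_const
    obtain ⟨V, hV, hVU⟩ := isOpen_induced_iff.mp hU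
    have hzV : z.1 ∈ V := by
      have : z ∈ Subtype.val ⁻¹' V := by
        rw [hVU]
        simp [hε]
      exact this
    obtain ⟨I, u, hIu, hsub⟩ := isOpen_pi_iff.mp hV z.1 hzV
    refine ⟨I, fun z' hz' => ?_⟩
    have : z' ∈ Subtype.val ⁻¹' V := by
      apply hsub
      intro i hi
      rw [← hz' i hi]
      exact (hIu i hi).2
    rw [hVU] at this
    exact this
  choose F hF using h1
  have hopen : ∀ z : S, {z' : S | ∀ i ∈ F z, z.1 i = z'.1 i} ∈ 𝓝 z := by
    intro z
    have : {z' : S | ∀ i ∈ F z, z.1 i = z'.1 i} = ⋂ i ∈ F z, {z' : S | z.1 i = z'.1 i} := by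
      ext z'
      simp
    rw [this]
    apply (Filter.biInter_finset_mem (F z)).mpr
    intro i _
    have ho : IsOpen {z' : S | z.1 i = z'.1 i} := by
      have : {z' : S | z.1 i = z'.1 i} = (fun z' : S => z'.1 i) ⁻¹' {z.1 i} := by
        ext z'
        simp [eq_comm]
      rw [this]
      exact (isOpen_discrete _).preimage
        ((show Continuous (fun z : ι → Bool => z i) from continuous_apply _).comp
          continuous_subtype_val)
    exact ho.mem_nhds rfl
  obtain ⟨T, hT⟩ := CompactSpace.elim_nhds_subcover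
    (fun z : S => {z' : S | ∀ i ∈ F z, z.1 i = z'.1 i}) hopen
  refine ⟨T.biUnion F, fun z z' hzz' => ?_⟩
  have hz : z ∈ ⋃ x ∈ T, {z' : S | ∀ i ∈ F x, x.1 i = z'.1 i} := by
    rw [hT]
    trivial
  simp only [Set.mem_iUnion] at hz
  obtain ⟨x, hxT, hx⟩ := hz
  have hx' : ∀ i ∈ F x, x.1 i = z'.1 i := by
    intro i hi
    rw [hx i hi]
    exact hzz' i (Finset.mem_biUnion.mpr ⟨x, hxT, hi⟩)
  have e1 := hF x z hx
  have e2 := hF x z' hx'
  have : g z - g z' = (g z - g x) - (g z' - g x) := by ring
  rw [this]
  calc |(g z - g x) - (g z' - g x)| ≤ |g z - g x| + |g z' - g x| := abs_sub _ _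
    _ < ε := by linarith

end H794R2.Cor
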