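import Pool.Agent.H794R2.CorC

/-!
The isomorphism between the two spaces of continuous functions.
-/

open Filter Topology Set

namespace H794R2.Cor

variable {Q : Set X}

instance instCompactKK : CompactSpace (KK Q) := isCompact_iff_compactSpace.mp isClosed_KK.isCompact

variable (Q) in
/-- A fixed point of the remainder. -/
noncomputable def y0 : Cube Q := (L0_nonempty (Q := Q)).some

lemma y0_mem : y0 Q ∈ L0 Q := (L0_nonempty (Q := Q)).some_mem

instance instCompactLL : CompactSpace (LL (y0 Q)) :=
  isCompact_iff_compactSpace.mp (isClosed_LL y0_mem).isCompact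

/-- The isolated points as elements of the first space. -/
noncomputable def pk (t : Node) : KK Q := ⟨p t, Or.inr ⟨t, rfl⟩⟩

/-- Values at the isolated points. -/
noncomputable def hat (g : C(KK Q, ℝ)) (t : Node) : ℝ := g (pk t)

/-- The averaging operator. -/
noncomputable def P (g : C(KK Q, ℝ)) (s : Node) : ℝ := ulim (avg (hat g) s)

lemma hat_le (g : C(KK Q, ℝ)) (t : Node) : |hat g t| ≤ ‖g‖ := g.norm_coe_le_norm _

lemma avg_hat_le (g : C(KK Q, ℝ)) (s : Node) (j : ℕ) : |avg (hat g) s j| ≤ ‖g‖ :=
  abs_avg_le j (fun _ => hat_le g _) s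

lemma tendsto_P (g : C(KK Q, ℝ)) (s : Node) :
    Tendsto (avg (hat g) s) (hyperfilter ℕ : Filter ℕ) (𝓝 (P g s)) :=
  tendsto_ulim (avg_hat_le g s)

lemma P_le (g : C(KK Q, ℝ)) (s : Node) : |P g s| ≤ ‖g‖ := ulim_abs_le (avg_hat_le g s)

lemma P_add (g h : C(KK Q, ℝ)) (s : Node) : P (g + h) s = P g s + P h s := by
  apply ulim_eq
  have : avg (hat (g + h)) s = fun j => avg (hat g) s j + avg (hat h) s j := by
    funext j
    rw [← avg_add]
    rfl
  rw [this]
  exact (tendsto_P g s).add (tendsto_P h s)

lemma P_smul (c : ℝ) (g : C(KK Q, ℝ)) (s : Node) : P (c • g) s = c * P g s := by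
  apply ulim_eq
  have : avg (hat (c • g)) s = fun j => c * avg (hat g) s j := by
    funext j
    rw [← avg_smul]
    rfl
  rw [this]
  exact (tendsto_P g s).const_mul c

lemma atTop_le : (hyperfilter ℕ : Filter ℕ) ≤ atTop := by
  rw [← Nat.cofinite_eq_atTop]
  exact hyperfilter_le_cofinite

/-- Functions vanishing on the remainder tend to zero along the isolated points. -/
lemma hat_tendsto {g : C(KK Q, ℝ)} (hg : ∀ z : KK Q, z.1 ∈ L0 Q → g z = 0) :
    Tendsto (hat g) cofinite (𝓝 0) := by
  rw [Metric.tendsto_nhds]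
  intro ε hε
  by_contra hc
  have hc' : ∃ᶠ t in cofinite, ¬ dist (hat g t) 0 < ε := Filter.not_eventually.mp hc
  set A : Set Node := {t | ¬ dist (hat g t) 0 < ε} with hA
  have hne : (cofinite ⊓ 𝓟 A : Filter Node).NeBot := Filter.frequently_mem_iff_neBot.mp hc'
  obtain ⟨z, hz⟩ := exists_clusterPt_of_compactSpace (map (pk (Q := Q)) (cofinite ⊓ 𝓟 A))
  have hzL : z.1 ∈ L0 Q := by
    have h1 : ClusterPt z.1 (map p cofinite) := by
      apply hz.map continuous_subtype_val.continuousAt
      rw [Filter.Tendsto, Filter.map_map]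
      exact Filter.map_mono inf_le_left
    exact h1
  have h0 := hg z hzL
  have hcl : IsClosed {w : KK Q | ε ≤ |g w|} := isClosed_le continuous_const (by fun_prop)
  have hmem : z ∈ {w : KK Q | ε ≤ |g w|} := by
    apply isClosed_iff_clusterPt.mp hcl
    apply hz.mono
    rw [le_principal_iff, Filter.mem_map]
    apply Filter.mem_of_superset (Filter.mem_inf_of_right (Filter.mem_principal_self A))
    intro t ht
    have : ¬ dist (hat g t) 0 < ε := ht
    rw [Real.dist_eq, sub_zero, not_lt] at this
    exact this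
  have : ε ≤ |g z| := hmem
  rw [h0, abs_zero] at this
  linarith

/-- The averages depend only on the restriction to the remainder. -/
lemma P_eq_zero {g : C(KK Q, ℝ)} (hg : ∀ z : KK Q, z.1 ∈ L0 Q → g z = 0) (s : Node) :
    P g s = 0 :=
  ulim_eq ((avg_tendsto_zero (hat_tendsto hg) s).mono_left atTop_le)

/-- Slow oscillation: `hat g - P g` tends to zero. -/
lemma hat_sub_P (g : C(KK Q, ℝ)) : Tendsto (fun s => hat g s - P g s) cofinite (𝓝 0) := by
  classical
  rw [Metric.tendsto_nhds]
  intro ε hε
  obtain ⟨F, hF⟩ := exists_finset isClosed_KK g (show (0:ℝ) < ε / 4 by positivity)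
  set Fq : Finset X := F.toLeft.image Subtype.val with hFq
  set Ft : Finset Node := F.toRight with hFt
  have hlim : Tendsto (fun s : Node => 2 * ‖g‖ * Fq.card * (1 / 2 : ℝ) ^ s.1) cofinite (𝓝 0) := by
    have h1 : Tendsto (fun k : ℕ => (1 / 2 : ℝ) ^ k) atTop (𝓝 0) :=
      tendsto_pow_atTop_nhds_zero_of_lt_one (by norm_num) (by norm_num)
    have h2 := (h1.comp tendsto_level).const_mul (2 * ‖g‖ * Fq.card)
    simpa using h2
  have e1 : ∀ᶠ s : Node in cofinite, 2 * ‖g‖ * Fq.card * (1 / 2 : ℝ) ^ s.1 < ε / 4 :=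
    hlim.eventually_lt_const (by positivity)
  have e2 : ∀ᶠ s : Node in cofinite, Ft.sup (fun t => t.1) < s.1 :=
    tendsto_level.eventually_gt_atTop _
  filter_upwards [e1, e2] with s hs1 hs2
  have key : ∀ j, s.1 ≤ j → |avg (hat g) s j - hat g s| ≤ ε / 4 + ε / 4 := by
    intro j hj
    have h := abs_avg_sub_le (F := Fq) (g := hat g) (C := ‖g‖) (ε := ε / 4) (hat_le g)
      (by positivity) s j hj (by
        intro u hu
        have hagree : ∀ i ∈ F, (pk (Q := Q) ⟨j, splice s.2 u⟩).1 i = (pk (Q := Q) s).1 i := by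
          rintro (q | t) hi
          · have hq : q.1 ∈ Fq := by
              rw [hFq]
              exact Finset.mem_image.mpr ⟨q, Finset.mem_toLeft.mpr hi, rfl⟩
            have := hu q.1 hq
            simp only [pk, p, Sum.elim_inl]
            exact decide_eq_decide.mpr this
          · have ht : t ∈ Ft := Finset.mem_toRight.mpr hi
            have hlt : t.1 < s.1 := lt_of_le_of_lt (Finset.le_sup (f := fun t : Node => t.1) ht) hs2
            have n1 : t ≠ ⟨j, splice s.2 u⟩ := by
              intro hc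
              have := congrArg Sigma.fst hc
              simp only at this
              omega
            have n2 : t ≠ s := by
              intro hc
              rw [hc] at hlt
              exact lt_irrefl _ hlt
            simp only [pk, p, Sum.elim_inr]
            simp [n1, n2]
        exact (hF _ _ hagree).le)
    calc |avg (hat g) s j - hat g s| ≤ ε / 4 + 2 * ‖g‖ * Fq.card * (1 / 2) ^ s.1 := h
      _ ≤ ε / 4 + ε / 4 := by linarith
  have hl : |P g s - hat g s| ≤ ε / 4 + ε / 4 := by
    have h1 : Tendsto (fun j => |avg (hat g) s j - hat g s|) (hyperfilter ℕ : Filter ℕ)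
        (𝓝 |P g s - hat g s|) := ((tendsto_P g s).sub_const _).abs
    apply le_of_tendsto h1
    have h2 : ∀ᶠ j in (hyperfilter ℕ : Filter ℕ), s.1 ≤ j := atTop_le (eventually_ge_atTop s.1)
    filter_upwards [h2] with j hj
    exact key j hj
  rw [Real.dist_eq, sub_zero, abs_sub_comm]
  linarith

end H794R2.Cor
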