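import Pool.Agent.H794R2.CorD

/-!
The isomorphism between the two spaces of continuous functions.
-/

open Filter Topology Set

namespace H794R2.Cor

variable {Q : Set X}

lemma bumpFun_add (r r' : Node → ℝ) (z : Cube Q) :
    bumpFun (r + r') z = bumpFun r z + bumpFun r' z := by
  unfold bumpFun
  split_ifs <;> simp

lemma bumpFun_smul (c : ℝ) (r : Node → ℝ) (z : Cube Q) :
    bumpFun (c • r) z = c * bumpFun r z := by
  unfold bumpFun
  split_ifs <;> simp

lemma bumpFun_le {r : Node → ℝ} {C : ℝ} (hC : ∀ t, |r t| ≤ C) (z : Cube Q) :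
    |bumpFun r z| ≤ C := by
  unfold bumpFun
  split_ifs with h
  · exact hC _
  · rw [abs_zero]
    exact (abs_nonneg _).trans (hC ⟨0, fun l => l.elim0⟩)

/-- The retraction of the second space onto the remainder. -/
def rhoFun (z : Cube Q) : Cube Q :=
  fun i => Sum.elim (fun q => z (Sum.inl q)) (fun _ => false) i

lemma rhoFun_eq {z : Cube Q} (hz : z ∈ L0 Q) : rhoFun z = z := by
  funext i
  rcases i with q | t
  · rfl
  · simp [rhoFun, L0_inr hz t]

lemma rhoFun_p' {y : Cube Q} (hy : y ∈ L0 Q) (t : Node) : rhoFun (p' y t) = y := by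
  funext i
  rcases i with q | t'
  · rfl
  · simp [rhoFun, L0_inr hy t']

lemma rhoFun_mem {y : Cube Q} (hy : y ∈ L0 Q) {z : Cube Q} (hz : z ∈ LL y) :
    rhoFun z ∈ L0 Q := by
  rcases hz with hz | ⟨t, rfl⟩
  · rwa [rhoFun_eq hz]
  · rwa [rhoFun_p' hy]

/-- The retraction as a map into the first space. -/
def rho (z : LL (y0 Q)) : KK Q := ⟨rhoFun z.1, Or.inl (rhoFun_mem y0_mem z.2)⟩

lemma continuous_rho : Continuous (rho (Q := Q)) := by
  apply Continuous.subtype_mk
  apply continuous_pi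
  rintro (q | t)
  · have h : Continuous (fun a : LL (y0 Q) => a.1 (Sum.inl q)) :=
      (show Continuous (fun z : Cube Q => z (Sum.inl q)) from continuous_apply _).comp
        continuous_subtype_val
    exact h
  · exact continuous_const

/-- The operator. -/
noncomputable def T0 (g : C(KK Q, ℝ)) : C(LL (y0 Q), ℝ) :=
  ⟨fun z => g (rho z) + bumpFun (fun s => hat g s - P g s) z.1,
    (g.continuous.comp continuous_rho).add (continuous_bump (hat_sub_P g) (LL_sub _))⟩

lemma T0_apply (g : C(KK Q, ℝ)) (z : LL (y0 Q)) :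
    T0 g z = g (rho z) + bumpFun (fun s => hat g s - P g s) z.1 := rfl

/-- The operator as a linear map. -/
noncomputable def T1 : C(KK Q, ℝ) →ₗ[ℝ] C(LL (y0 Q), ℝ) where
  toFun := T0
  map_add' g h := by
    ext z
    simp only [T0_apply, ContinuousMap.add_apply]
    have : (fun s => hat (g + h) s - P (g + h) s)
        = (fun s => hat g s - P g s) + (fun s => hat h s - P h s) := by
      funext s
      simp only [Pi.add_apply, P_add]
      have : hat (g + h) s = hat g s + hat h s := rfl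
      rw [this]
      ring
    rw [this, bumpFun_add]
    ring
  map_smul' c g := by
    ext z
    simp only [T0_apply, ContinuousMap.smul_apply, RingHom.id_apply, smul_eq_mul]
    have : (fun s => hat (c • g) s - P (c • g) s) = c • (fun s => hat g s - P g s) := by
      funext s
      simp only [Pi.smul_apply, P_smul, smul_eq_mul]
      have : hat (c • g) s = c * hat g s := rfl
      rw [this]
      ring
    rw [this, bumpFun_smul]
    ring

/-- The operator as a continuous linear map. -/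
noncomputable def T2 : C(KK Q, ℝ) →L[ℝ] C(LL (y0 Q), ℝ) :=
  T1.mkContinuous 3 (by
    intro g
    rw [ContinuousMap.norm_le _ (by positivity)]
    intro z
    have e1 : |g (rho z)| ≤ ‖g‖ := g.norm_coe_le_norm _
    have e2 : |bumpFun (fun s => hat g s - P g s) z.1| ≤ ‖g‖ + ‖g‖ := by
      apply bumpFun_le
      intro t
      calc |hat g t - P g t| ≤ |hat g t| + |P g t| := abs_sub _ _
        _ ≤ ‖g‖ + ‖g‖ := add_le_add (hat_le g t) (P_le g t)
    calc ‖T0 g z‖ = |g (rho z) + bumpFun (fun s => hat g s - P g s) z.1| := rfl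
      _ ≤ |g (rho z)| + |bumpFun (fun s => hat g s - P g s) z.1| := abs_add_le _ _
      _ ≤ 3 * ‖g‖ := by linarith)

lemma T2_apply (g : C(KK Q, ℝ)) (z : LL (y0 Q)) :
    T2 g z = g (rho z) + bumpFun (fun s => hat g s - P g s) z.1 := rfl

lemma T2_L0 (g : C(KK Q, ℝ)) {z : Cube Q} (hz : z ∈ L0 Q) :
    T2 g ⟨z, Or.inl hz⟩ = g ⟨z, Or.inl hz⟩ := by
  rw [T2_apply, bumpFun_zero _ (fun t => L0_inr hz t), add_zero]
  congr 1
  exact Subtype.ext (rhoFun_eq hz)

lemma T2_node (g : C(KK Q, ℝ)) (t : Node) :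
    T2 g ⟨p' (y0 Q) t, Or.inr ⟨t, rfl⟩⟩
      = g ⟨y0 Q, Or.inl y0_mem⟩ + (hat g t - P g t) := by
  rw [T2_apply, bumpFun_node _ (LL_sub _ (Or.inr ⟨t, rfl⟩)) ((p'_inr _ _ _).mpr rfl)]
  congr 2
  exact Subtype.ext (rhoFun_p' y0_mem t)

lemma T2_injective : Function.Injective (T2 (Q := Q)) := by
  rw [injective_iff_map_eq_zero]
  intro g hg
  have h0 : ∀ z : KK Q, z.1 ∈ L0 Q → g z = 0 := by
    intro z hz
    have h1 := T2_L0 g hz
    rw [hg] at h1
    exact h1.symm
  ext z
  rcases z with ⟨z, hz | ⟨t, rfl⟩⟩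
  · exact h0 _ hz
  · have h1 := T2_node g t
    rw [hg, h0 ⟨y0 Q, Or.inl y0_mem⟩ y0_mem, P_eq_zero h0] at h1
    simp only [ContinuousMap.zero_apply, sub_zero, zero_add] at h1
    exact h1.symm

lemma T2_surjective : Function.Surjective (T2 (Q := Q)) := by
  intro h
  -- extend `h` restricted to the remainder
  let h0 : C(L0 Q, ℝ) := ⟨fun z => h ⟨z.1, Or.inl z.2⟩, h.continuous.comp (by fun_prop)⟩
  obtain ⟨G, hG⟩ := ContinuousMap.exists_restrict_eq isClosed_L0 h0
  have hG' : ∀ z (hz : z ∈ L0 Q), G z = h ⟨z, Or.inl hz⟩ := by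
    intro z hz
    have := congrArg (fun f : C(L0 Q, ℝ) => f ⟨z, hz⟩) hG
    exact this
  let g1 : C(KK Q, ℝ) := G.restrict (KK Q)
  let r : Node → ℝ := fun t => (h ⟨p' (y0 Q) t, Or.inr ⟨t, rfl⟩⟩ - h ⟨y0 Q, Or.inl y0_mem⟩)
    - (hat g1 t - P g1 t)
  have hr : Tendsto r cofinite (𝓝 0) := by
    have e1 : Tendsto (fun t => h ⟨p' (y0 Q) t, Or.inr ⟨t, rfl⟩⟩) cofinite
        (𝓝 (h ⟨y0 Q, Or.inl y0_mem⟩)) := by
      apply (h.continuous.tendsto _).comp
      rw [tendsto_subtype_rng]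
      exact tendsto_p' y0_mem
    have e2 := (e1.sub_const (h ⟨y0 Q, Or.inl y0_mem⟩)).sub (hat_sub_P g1)
    simpa using e2
  let b : C(KK Q, ℝ) := bump hr KK_sub
  have hb0 : ∀ z : KK Q, z.1 ∈ L0 Q → b z = 0 := by
    intro z hz
    have : bumpFun r z.1 = 0 := bumpFun_zero r (fun t => L0_inr hz t)
    exact this
  have hbn : ∀ t, hat b t = r t := by
    intro t
    have : bumpFun r (p (Q := Q) t) = r t :=
      bumpFun_node r (KK_sub (Or.inr ⟨t, rfl⟩)) ((p_inr _ _).mpr rfl)
    exact this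
  refine ⟨g1 + b, ?_⟩
  ext z
  rcases z with ⟨z, hz | ⟨t, rfl⟩⟩
  · rw [T2_L0 _ hz]
    simp only [ContinuousMap.add_apply]
    rw [hb0 ⟨z, Or.inl hz⟩ hz, add_zero]
    exact hG' z hz
  · rw [T2_node]
    have e1 : hat (g1 + b) t = hat g1 t + r t := by
      rw [← hbn t]
      rfl
    have e2 : P (g1 + b) t = P g1 t := by
      rw [P_add, P_eq_zero hb0, add_zero]
    rw [e1, e2]
    simp only [ContinuousMap.add_apply]
    rw [hb0 ⟨y0 Q, Or.inl y0_mem⟩ y0_mem, add_zero]
    have e3 : g1 ⟨y0 Q, Or.inl y0_mem⟩ = h ⟨y0 Q, Or.inl y0_mem⟩ := hG' _ y0_mem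
    rw [e3]
    simp only [r]
    ring

/-- The two spaces of continuous functions are linearly homeomorphic. -/
theorem exists_equiv : Nonempty (C(KK Q, ℝ) ≃L[ℝ] C(LL (y0 Q), ℝ)) :=
  ⟨ContinuousLinearEquiv.ofBijective T2
    (LinearMap.ker_eq_bot.mpr T2_injective) (LinearMap.range_eq_top.mpr T2_surjective)⟩

end H794R2.Cor
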