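import Pool.Agent.H794R2.CorE

/-!
Corson compactness of the second space, failure of Corson compactness of the first, and the
existence of the index set under the continuum hypothesis.
-/

open Filter Topology Set

universe u v

namespace H794R2.Cor

/-- A space is Corson compact if it is compact Hausdorff and homeomorphic to a subset of
`Σ(Γ) = {x ∈ ℝ^Γ : {γ | x γ ≠ 0} is countable}` (topology of the product) for some set `Γ`. -/
def IsCorsonCompact (S : Type u) [TopologicalSpace S] : Prop :=
  CompactSpace S ∧ T2Space S ∧ ∃ (Γ : Type v) (f : S → (Γ → ℝ)), IsEmbedding f ∧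
    ∀ x, {γ | f x γ ≠ 0}.Countable

variable {Q : Set X}

lemma mem_closure_of_L0 {z : KK Q} (hz : z.1 ∈ L0 Q) : z ∈ closure (Set.range (pk (Q := Q))) := by
  obtain ⟨U, _, hU⟩ := mapClusterPt_iff_ultrafilter.mp hz
  have h1 : Tendsto (pk (Q := Q)) U (𝓝 z) := by
    rw [tendsto_subtype_rng]
    exact hU
  exact mem_closure_of_tendsto h1 (Filter.Eventually.of_forall (fun t => ⟨t, rfl⟩))

lemma dense_pk : Dense (Set.range (pk (Q := Q))) := by
  rintro ⟨z, hz | ⟨t, rfl⟩⟩
  · exact mem_closure_of_L0 hz
  · exact subset_closure ⟨t, rfl⟩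

/-- Key lemma: the coordinates of a point of the remainder that equal `true` all come from
digit sequences that avoid one common sequence. -/
lemma L0_avoid {z : Cube Q} (hz : z ∈ L0 Q) :
    ∃ x : X, ∀ q : Q, z (Sum.inl q) = true → ∀ k, q.1 k ≠ x k := by
  obtain ⟨U, hUc, hU⟩ := mapClusterPt_iff_ultrafilter.mp hz
  let dig : (k : ℕ) → Node → Fin (2 ^ (k + 1)) := fun k t =>
    if h : k < t.1 then t.2 ⟨k, h⟩ else 0
  have h1 : ∀ k, ∃ c, U.map (dig k) = pure c := fun k => Ultrafilter.eq_pure_of_finite _
  choose x hx using h1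
  refine ⟨x, fun q hq k => ?_⟩
  have e1 : ∀ᶠ t in (U : Filter Node), dig k t = x k := by
    have : {c | c = x k} ∈ U.map (dig k) := by
      rw [hx k]
      exact Ultrafilter.mem_pure.mpr rfl
    exact this
  have e2 : ∀ᶠ t in (U : Filter Node), k < t.1 := hUc (tendsto_level.eventually_gt_atTop k)
  have e3 : ∀ᶠ t in (U : Filter Node), alive q.1 t := by
    have h2 : Tendsto (fun t => p (Q := Q) t (Sum.inl q)) U (𝓝 (z (Sum.inl q))) :=
      (tendsto_pi_nhds.mp hU) (Sum.inl q)
    rw [hq] at h2
    have h3 : ∀ᶠ t in (U : Filter Node), p (Q := Q) t (Sum.inl q) = true :=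
      h2.eventually (show ∀ᶠ b in 𝓝 true, b = true by simp)
    filter_upwards [h3] with t ht
    exact (p_inl t q).mp ht
  obtain ⟨t, ht1, ht2, ht3⟩ := (e1.and (e2.and e3)).exists
  have h4 := ht3 ⟨k, ht2⟩
  have h5 : dig k t = t.2 ⟨k, ht2⟩ := by simp [dig, ht2]
  rw [ht1] at h5
  rw [h5]
  exact fun hc => h4 hc.symm

lemma L0_countable (hQ : ∀ x : X, {q ∈ Q | ∀ k, q k ≠ x k}.Countable) {z : Cube Q}
    (hz : z ∈ L0 Q) : {q : Q | z (Sum.inl q) = true}.Countable := by
  obtain ⟨x, hx⟩ := L0_avoid hz
  have h1 : {q : Q | z (Sum.inl q) = true} ⊆ Subtype.val ⁻¹' {q ∈ Q | ∀ k, q k ≠ x k} :=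
    fun q hq => ⟨q.2, hx q hq⟩
  exact ((hQ x).preimage Subtype.val_injective).mono h1

lemma countable_supp {z : Cube Q} (h : {q : Q | z (Sum.inl q) = true}.Countable) :
    {i | z i = true}.Countable := by
  have : {i | z i = true} ⊆ (Sum.inl '' {q : Q | z (Sum.inl q) = true}) ∪ Set.range Sum.inr := by
    rintro (q | t) hi
    · exact Or.inl ⟨q, hi, rfl⟩
    · exact Or.inr ⟨t, rfl⟩
  exact ((h.image _).union (Set.countable_range _)).mono this

lemma isCorson_LL (hQ : ∀ x : X, {q ∈ Q | ∀ k, q k ≠ x k}.Countable) :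
    IsCorsonCompact.{0, 0} (LL (y0 Q)) := by
  classical
  refine ⟨inferInstance, inferInstance, Q ⊕ Node, fun z i => if z.1 i = true then 1 else 0, ?_, ?_⟩
  · apply IsClosedEmbedding.isEmbedding
    apply Continuous.isClosedEmbedding
    · apply continuous_pi
      intro i
      exact (continuous_of_discreteTopology
        (f := fun b : Bool => if b = true then (1 : ℝ) else 0)).comp
        ((show Continuous (fun z : Cube Q => z i) from continuous_apply _).comp
          continuous_subtype_val)
    · intro z z' h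
      apply Subtype.ext
      funext i
      have := congrFun h i
      simp only at this
      by_cases h1 : z.1 i = true <;> by_cases h2 : z'.1 i = true
      · rw [h1, h2]
      · simp [h1, h2] at this
      · simp [h1, h2] at this
      · have e1 : z.1 i = false := by simpa using h1
        have e2 : z'.1 i = false := by simpa using h2
        rw [e1, e2]
  · rintro ⟨z, hz⟩
    have h1 : {i | z i = true}.Countable := by
      apply countable_supp
      rcases hz with hz | ⟨t, rfl⟩
      · exact L0_countable hQ hz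
      · have h2 : {q : Q | y0 Q (Sum.inl q) = true}.Countable := L0_countable hQ y0_mem
        exact h2
    apply h1.mono
    intro i hi
    by_contra hc
    apply hi
    have : ¬ (z i = true) := hc
    simp [this]

lemma exists_ne_digit (k : ℕ) (c : Fin (2 ^ (k + 1))) : ∃ d, d ≠ c := by
  apply Fintype.exists_ne_of_one_lt_card
  rw [Fintype.card_fin]
  exact Nat.one_lt_two_pow (by omega)

/-- Distinct `q, q'` are separated by a node. -/
lemma exists_node {q q' : X} (h : q ≠ q') : ∃ s : Node, alive q s ∧ ¬ alive q' s := by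
  obtain ⟨l, hl⟩ := Function.ne_iff.mp h
  choose d hd using fun k => exists_ne_digit k (q k)
  refine ⟨⟨l + 1, fun i => if (i : ℕ) = l then q' i else d i⟩, ?_, ?_⟩
  · intro i
    simp only
    split_ifs with hi
    · intro hc
      apply hl
      have : (i : ℕ) = l := hi
      rw [← this]
      exact hc.symm
    · exact hd i
  · intro hc
    exact hc ⟨l, Nat.lt_succ_self l⟩ (by simp)

lemma not_isCorson_KK (hQ : ¬ Q.Countable) : ¬ IsCorsonCompact.{0, v} (KK Q) := by
  rintro ⟨_, _, Γ, f, hf, hsupp⟩
  apply hQ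
  set Γ0 : Set Γ := ⋃ t : Node, {γ | f (pk t) γ ≠ 0} with hΓ0
  have hcount : Γ0.Countable := Set.countable_iUnion (fun t => hsupp _)
  have hout : ∀ z : KK Q, ∀ γ, γ ∉ Γ0 → f z γ = 0 := by
    intro z γ hγ
    have hcl : IsClosed {w : KK Q | f w γ = 0} :=
      isClosed_eq ((continuous_apply γ).comp hf.continuous) continuous_const
    have hsub : Set.range (pk (Q := Q)) ⊆ {w : KK Q | f w γ = 0} := by
      rintro _ ⟨t, rfl⟩
      by_contra hc
      exact hγ (Set.mem_iUnion.mpr ⟨t, hc⟩)
    exact closure_minimal hsub hcl (dense_pk z)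
  let f0 : KK Q → (Γ0 → ℝ) := fun z γ => f z γ.1
  have hf0c : Continuous f0 := continuous_pi (fun γ => (continuous_apply γ.1).comp hf.continuous)
  have hf0i : Function.Injective f0 := by
    intro z z' h
    apply hf.injective
    funext γ
    by_cases hγ : γ ∈ Γ0
    · exact congrFun h ⟨γ, hγ⟩
    · rw [hout z γ hγ, hout z' γ hγ]
  have hemb : IsEmbedding f0 := (hf0c.isClosedEmbedding hf0i).isEmbedding
  have : Countable Γ0 := hcount.to_subtype
  have hsc : SecondCountableTopology (KK Q) := hemb.secondCountableTopology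
  have hcl : Countable (TopologicalSpace.Clopens (KK Q)) :=
    TopologicalSpace.Clopens.countable_iff_secondCountable.mpr hsc
  let W : Q → TopologicalSpace.Clopens (KK Q) := fun q =>
    ⟨(fun z : KK Q => z.1 (Sum.inl q)) ⁻¹' {true},
      (isClopen_discrete _).preimage
        ((show Continuous (fun z : Cube Q => z (Sum.inl q)) from continuous_apply _).comp
          continuous_subtype_val)⟩
  have hW : Function.Injective W := by
    intro q q' h
    by_contra hne
    have hne' : q.1 ≠ q'.1 := fun hc => hne (Subtype.ext hc)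
    obtain ⟨s, hs, hs'⟩ := exists_node hne'
    have h1 : pk (Q := Q) s ∈ (W q : Set (KK Q)) := (p_inl s q).mpr hs
    rw [h] at h1
    exact hs' ((p_inl s q').mp h1)
  have : Countable Q := hW.countable
  exact Set.countable_coe_iff.mp this

/-- Main construction. -/
theorem main {Q : Set X} (h1 : ¬ Q.Countable)
    (h2 : ∀ x : X, {q ∈ Q | ∀ k, q k ≠ x k}.Countable) :
    ∃ (K L : Type) (_ : TopologicalSpace K) (_ : TopologicalSpace L)
      (_ : CompactSpace K) (_ : T2Space K) (_ : CompactSpace L) (_ : T2Space L),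
      IsCorsonCompact.{0, 0} L ∧ ¬ IsCorsonCompact.{0, v} K ∧
      TopologicalSpace.SeparableSpace K ∧ Nonempty (C(K, ℝ) ≃L[ℝ] C(L, ℝ)) := by
  refine ⟨KK Q, LL (y0 Q), inferInstance, inferInstance, inferInstance, inferInstance,
    inferInstance, inferInstance, isCorson_LL h2, not_isCorson_KK h1, ?_, exists_equiv⟩
  exact ⟨⟨Set.range pk, Set.countable_range _, dense_pk⟩⟩

open Cardinal Ordinal in
/-- Under the continuum hypothesis there is a suitable `Q`. -/
theorem exists_Q (CH : (Cardinal.aleph 1 : Cardinal.{0}) = Cardinal.continuum) :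
    ∃ Q : Set X, ¬ Q.Countable ∧ ∀ x : X, {q ∈ Q | ∀ k, q k ≠ x k}.Countable := by
  -- `X` is uncountable
  have hXunc : ¬ Countable X := by
    intro hc
    obtain ⟨e, he⟩ := exists_surjective_nat X
    choose d hd using fun k => exists_ne_digit k (e k k)
    obtain ⟨n, hn⟩ := he d
    exact hd n (by rw [hn])
  -- cardinality
  have hXcard : #X ≤ Cardinal.aleph 1 := by
    rw [CH]
    have : #X ≤ #(ℕ → ℕ) :=
      Cardinal.mk_le_of_injective (f := fun (x : X) (k : ℕ) => (x k : ℕ)) (by
        intro x y h
        funext k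
        exact Fin.ext (congrFun h k))
    refine this.trans ?_
    simp
  obtain ⟨r, wo, hr⟩ := Cardinal.exists_ord_eq X
  have hseg : ∀ x : X, {y | r y x}.Countable := by
    intro x
    have h1 : Ordinal.card (Ordinal.typein r x) < #X := Cardinal.card_typein_lt x hr
    rw [Ordinal.card_typein] at h1
    have h2 : #{y // r y x} < Cardinal.aleph 1 := lt_of_lt_of_le h1 hXcard
    rw [← Cardinal.succ_aleph0, Order.lt_succ_iff] at h2
    exact Cardinal.mk_le_aleph0_iff.mp h2
  have henum : ∀ x : X, ∃ e : ℕ → X, {y | r y x} ⊆ Set.range e := by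
    intro x
    rcases Set.eq_empty_or_nonempty {y | r y x} with h | h
    · exact ⟨fun _ => x, by rw [h]; exact Set.empty_subset _⟩
    · obtain ⟨e, he⟩ := (hseg x).exists_eq_range h
      exact ⟨e, he.le⟩
  choose e he using henum
  let q : X → X := fun x k => e x k k
  have hq : ∀ y : X, {x | ∀ k, q x k ≠ y k}.Countable := by
    intro y
    have hsub : {x | ∀ k, q x k ≠ y k} ⊆ {y} ∪ {x | r x y} := by
      intro x hx
      rcases trichotomous_of r x y with h | h | h
      · exact Or.inr h
      · exact Or.inl h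
      · exfalso
        obtain ⟨k, hk⟩ := he x h
        apply hx k
        simp only [q]
        rw [hk]
    exact ((Set.countable_singleton y).union (hseg y)).mono hsub
  refine ⟨Set.range q, ?_, ?_⟩
  · intro hc
    apply hXunc
    have hfib : ∀ w : X, {x | q x = w}.Countable := by
      intro w
      choose d hd using fun k => exists_ne_digit k (w k)
      apply (hq d).mono
      intro x hx k
      have : q x = w := hx
      rw [this]
      exact (hd k).symm
    have h1 : (⋃ w ∈ Set.range q, {x | q x = w}).Countable :=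
      hc.biUnion (fun w _ => hfib w)
    have h2 : (Set.univ : Set X) ⊆ ⋃ w ∈ Set.range q, {x | q x = w} := by
      intro x _
      simp only [Set.mem_iUnion]
      exact ⟨q x, ⟨x, rfl⟩, rfl⟩
    exact Set.countable_univ_iff.mp (h1.mono h2)
  · intro x
    have : {w ∈ Set.range q | ∀ k, w k ≠ x k} ⊆ q '' {y | ∀ k, q y k ≠ x k} := by
      rintro _ ⟨⟨y, rfl⟩, hy⟩
      exact ⟨y, hy, rfl⟩
    exact ((hq x).image q).mono this

end H794R2.Cor
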