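import Mathlib

set_option autoImplicit false

open Filter Topology

namespace Pool.Agent.H794R2.Nir

noncomputable section

/-- cumulative energy of the first `k` coordinates -/
def M (z : ℕ → ℝ) (k : ℕ) : ℝ := ∑ i ∈ Finset.range k, z i ^ 2
/-- total energy -/
def NN (z : ℕ → ℝ) : ℝ := ∑' i, z i ^ 2
/-- tail energy -/
def S (z : ℕ → ℝ) : ℝ := max (NN z - 1) 0
/-- cumulative tail energy -/
def T (z : ℕ → ℝ) (k : ℕ) : ℝ := max (M z k - 1) 0
/-- part of `[0,x]` in the band `[s/4^(j+1), s/4^j]` -/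
def b (s x : ℝ) (j : ℕ) : ℝ := min x (s / 4 ^ j) - min x (s / 4 ^ (j + 1))
/-- energy of coordinate `k` in band `j` -/
def e (z : ℕ → ℝ) (k j : ℕ) : ℝ := b (S z) (T z (k + 1)) j - b (S z) (T z k) j
def E (z : ℕ → ℝ) (k j : ℕ) : ℝ := Real.sign (z k) * √(e z k j)
def hE (z : ℕ → ℝ) (k : ℕ) : ℝ := min (M z (k + 1)) 1 - min (M z k) 1
def h (z : ℕ → ℝ) (k : ℕ) : ℝ := Real.sign (z k) * √(hE z k)
def G (z : ℕ → ℝ) (p : ℕ) : ℝ :=
  if p = 0 then 0 else E z (Nat.unpair (p - 1)).1 (Nat.unpair (p - 1)).2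
def al (z : ℕ → ℝ) : ℝ := √(1 + 2 * √(S z))
def F (z : ℕ → ℝ) (p : ℕ) : ℝ := al z * h z p + G z p

lemma M_zero (z : ℕ → ℝ) : M z 0 = 0 := by simp [M]
lemma M_succ (z : ℕ → ℝ) (k : ℕ) : M z (k + 1) = M z k + z k ^ 2 := by
  simp [M, Finset.sum_range_succ]
lemma M_mono (z : ℕ → ℝ) : Monotone (M z) :=
  monotone_nat_of_le_succ fun k => by rw [M_succ]; nlinarith [sq_nonneg (z k)]
lemma M_nonneg (z : ℕ → ℝ) (k : ℕ) : 0 ≤ M z k := Finset.sum_nonneg fun i _ => sq_nonneg _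

lemma T_mono (z : ℕ → ℝ) : Monotone (T z) := fun i j hij => by
  unfold T
  exact max_le_max (by linarith [M_mono z hij]) le_rfl
lemma T_nonneg (z : ℕ → ℝ) (k : ℕ) : 0 ≤ T z k := le_max_right _ _
lemma T_zero (z : ℕ → ℝ) : T z 0 = 0 := by simp [T, M_zero]
lemma S_nonneg (z : ℕ → ℝ) : 0 ≤ S z := le_max_right _ _

variable {z w : ℕ → ℝ}

lemma M_le_NN (hz : Summable fun i => z i ^ 2) (k : ℕ) : M z k ≤ NN z :=
  hz.sum_le_tsum _ (fun i _ => sq_nonneg _)
lemma NN_nonneg (z : ℕ → ℝ) : 0 ≤ NN z := tsum_nonneg fun i => sq_nonneg _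
lemma M_tendsto (hz : Summable fun i => z i ^ 2) : Tendsto (M z) atTop (𝓝 (NN z)) :=
  hz.hasSum.tendsto_sum_nat
lemma T_le_S (hz : Summable fun i => z i ^ 2) (k : ℕ) : T z k ≤ S z := by
  unfold T S
  exact max_le_max (by linarith [M_le_NN hz k]) le_rfl
lemma T_tendsto (hz : Summable fun i => z i ^ 2) : Tendsto (T z) atTop (𝓝 (S z)) := by
  unfold T S
  exact ((M_tendsto hz).sub_const 1).max tendsto_const_nhds

lemma min_add_max (x : ℝ) : min x 1 + max (x - 1) 0 = x := by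
  rcases le_total x 1 with hx | hx
  · rw [min_eq_left hx, max_eq_right (by linarith)]; ring
  · rw [min_eq_right hx, max_eq_left (by linarith)]; ring

lemma hE_nonneg (z : ℕ → ℝ) (k : ℕ) : 0 ≤ hE z k := by
  unfold hE
  have := M_mono z (Nat.le_succ k)
  have h2 : min (M z k) 1 ≤ min (M z (k + 1)) 1 := min_le_min this le_rfl
  linarith

lemma hE_add (z : ℕ → ℝ) (k : ℕ) : hE z k + (T z (k + 1) - T z k) = z k ^ 2 := by
  have h1 := min_add_max (M z (k + 1))
  have h2 := min_add_max (M z k)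
  have h3 := M_succ z k
  unfold hE T
  linarith

lemma T_step_nonneg (z : ℕ → ℝ) (k : ℕ) : 0 ≤ T z (k + 1) - T z k := by
  have := T_mono z (Nat.le_succ k)
  simp only [Nat.succ_eq_add_one] at this
  linarith

lemma hE_le (z : ℕ → ℝ) (k : ℕ) : hE z k ≤ z k ^ 2 := by
  linarith [hE_add z k, T_step_nonneg z k]

lemma sign_sq {x : ℝ} (hx : x ≠ 0) : Real.sign x ^ 2 = 1 := by
  rcases lt_or_gt_of_ne hx with h | h
  · rw [Real.sign_of_neg h]; norm_num
  · rw [Real.sign_of_pos h]; norm_num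

lemma sign_sqrt_sq {x a : ℝ} (ha : 0 ≤ a) (hax : a ≤ x ^ 2) : (Real.sign x * √a) ^ 2 = a := by
  by_cases hx : x = 0
  · subst hx
    have : a = 0 := le_antisymm (by simpa using hax) ha
    simp [this]
  · rw [mul_pow, sign_sq hx, one_mul, Real.sq_sqrt ha]

lemma h_sq (z : ℕ → ℝ) (k : ℕ) : h z k ^ 2 = hE z k :=
  sign_sqrt_sq (hE_nonneg z k) (hE_le z k)

lemma hasSum_h (hz : Summable fun i => z i ^ 2) :
    HasSum (fun k => h z k ^ 2) (min (NN z) 1) := by
  simp_rw [h_sq]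
  rw [hasSum_iff_tendsto_nat_of_nonneg (hE_nonneg z)]
  have h1 : ∀ n, ∑ i ∈ Finset.range n, hE z i = min (M z n) 1 := by
    intro n
    unfold hE
    rw [Finset.sum_range_sub (fun k => min (M z k) 1)]
    simp [M_zero]
  simp_rw [h1]
  exact (M_tendsto hz).min tendsto_const_nhds

/-! bands -/
lemma b_mono {s : ℝ} (hs : 0 ≤ s) (j : ℕ) : Monotone fun x => b s x j := by
  intro x y hxy
  have h4 : s / 4 ^ (j + 1) ≤ s / 4 ^ j := by
    apply div_le_div_of_nonneg_left hs (by positivity)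
    exact pow_le_pow_right₀ (by norm_num) (Nat.le_succ j)
  unfold b
  simp only
  rcases le_total x (s / 4 ^ (j + 1)) with h1 | h1
  · rw [min_eq_left h1, min_eq_left (h1.trans h4)]
    have : min y (s / 4 ^ (j + 1)) ≤ min y (s / 4 ^ j) := min_le_min le_rfl h4
    linarith
  · rw [min_eq_right h1, min_eq_right (h1.trans hxy)]
    have : min x (s / 4 ^ j) ≤ min y (s / 4 ^ j) := min_le_min hxy le_rfl
    linarith

lemma b_zero {s : ℝ} (hs : 0 ≤ s) (j : ℕ) : b s 0 j = 0 := by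
  unfold b
  rw [min_eq_left (by positivity), min_eq_left (by positivity)]; ring

lemma b_nonneg {s x : ℝ} (hs : 0 ≤ s) (hx : 0 ≤ x) (j : ℕ) : 0 ≤ b s x j := by
  have := b_mono hs j hx
  simp only [b_zero hs] at this
  exact this

lemma b_self {s : ℝ} (hs : 0 ≤ s) (j : ℕ) : b s s j = 3 / 4 * (s / 4 ^ j) := by
  have h1 : s / 4 ^ j ≤ s := div_le_self hs (one_le_pow₀ (by norm_num))
  have h2 : s / 4 ^ (j + 1) ≤ s := div_le_self hs (one_le_pow₀ (by norm_num))
  unfold b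
  rw [min_eq_right h1, min_eq_right h2, pow_succ]
  field_simp
  ring

lemma b_hasSum {s x : ℝ} (hx : 0 ≤ x) (hxs : x ≤ s) : HasSum (fun j => b s x j) x := by
  have hs : 0 ≤ s := hx.trans hxs
  rw [hasSum_iff_tendsto_nat_of_nonneg (b_nonneg hs hx)]
  have h1 : ∀ n, ∑ i ∈ Finset.range n, b s x i = x - min x (s / 4 ^ n) := by
    intro n
    unfold b
    rw [Finset.sum_range_sub' (fun k => min x (s / 4 ^ k))]
    simp [hxs]
  simp_rw [h1]
  have h2 : Tendsto (fun n : ℕ => s / 4 ^ n) atTop (𝓝 0) :=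
    tendsto_const_nhds.div_atTop (tendsto_pow_atTop_atTop_of_one_lt (by norm_num))
  have h3 := (tendsto_const_nhds (x := x)).min h2
  rw [min_eq_right hx] at h3
  simpa using (tendsto_const_nhds (x := x)).sub h3

lemma e_nonneg (z : ℕ → ℝ) (k j : ℕ) : 0 ≤ e z k j := by
  unfold e
  have := b_mono (S_nonneg z) j (T_mono z (Nat.le_succ k))
  simp only [Nat.succ_eq_add_one] at this
  linarith

lemma e_hasSum_j (hz : Summable fun i => z i ^ 2) (k : ℕ) :
    HasSum (fun j => e z k j) (T z (k + 1) - T z k) :=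
  (b_hasSum (T_nonneg z (k + 1)) (T_le_S hz (k + 1))).sub (b_hasSum (T_nonneg z k) (T_le_S hz k))

lemma b_continuous (s : ℝ) (j : ℕ) : Continuous fun x => b s x j := by
  unfold b; fun_prop

lemma e_hasSum_k (hz : Summable fun i => z i ^ 2) (j : ℕ) :
    HasSum (fun k => e z k j) (3 / 4 * (S z / 4 ^ j)) := by
  rw [hasSum_iff_tendsto_nat_of_nonneg (fun k => e_nonneg z k j)]
  have h1 : ∀ n, ∑ i ∈ Finset.range n, e z i j = b (S z) (T z n) j := by
    intro n
    unfold e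
    rw [Finset.sum_range_sub (fun k => b (S z) (T z k) j), T_zero, b_zero (S_nonneg z)]
    simp
  simp_rw [h1]
  have h2 := ((b_continuous (S z) j).tendsto (S z)).comp (T_tendsto hz)
  rw [b_self (S_nonneg z)] at h2
  exact h2

lemma e_le (hz : Summable fun i => z i ^ 2) (k j : ℕ) : e z k j ≤ z k ^ 2 := by
  have h1 : e z k j ≤ T z (k + 1) - T z k := by
    have := le_hasSum (e_hasSum_j hz k) j (fun i _ => e_nonneg z k i)
    exact this
  linarith [hE_add z k, hE_nonneg z k]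

lemma E_sq (hz : Summable fun i => z i ^ 2) (k j : ℕ) : E z k j ^ 2 = e z k j :=
  sign_sqrt_sq (e_nonneg z k j) (e_le hz k j)

lemma T_hasSum (hz : Summable fun i => z i ^ 2) :
    HasSum (fun k => T z (k + 1) - T z k) (S z) := by
  rw [hasSum_iff_tendsto_nat_of_nonneg (T_step_nonneg z)]
  have h1 : ∀ n, ∑ i ∈ Finset.range n, (T z (i + 1) - T z i) = T z n := by
    intro n
    rw [Finset.sum_range_sub (fun k => T z k), T_zero]
    simp
  simp_rw [h1]
  exact T_tendsto hz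

lemma e_summable (hz : Summable fun i => z i ^ 2) :
    Summable (fun q : ℕ × ℕ => e z q.1 q.2) := by
  rw [summable_prod_of_nonneg (fun q => e_nonneg z q.1 q.2)]
  refine ⟨fun k => (e_hasSum_j hz k).summable, ?_⟩
  simp only
  simp_rw [(e_hasSum_j hz _).tsum_eq]
  exact (T_hasSum hz).summable

lemma e_hasSum (hz : Summable fun i => z i ^ 2) :
    HasSum (fun q : ℕ × ℕ => e z q.1 q.2) (S z) := by
  have h1 := (e_summable hz).hasSum
  have h2 := h1.prod_fiberwise (fun k => e_hasSum_j hz k)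
  rwa [h2.unique (T_hasSum hz)] at h1

/-- the placement of channels -/
def pl (q : ℕ × ℕ) : ℕ := Nat.pair q.1 q.2 + 1

lemma pl_inj : Function.Injective pl := by
  intro q r hqr
  unfold pl at hqr
  have := Nat.pair_eq_pair.mp (Nat.succ_injective hqr)
  exact Prod.ext this.1 this.2

lemma pl_gt (q : ℕ × ℕ) : q.1 < pl q := Nat.lt_succ_of_le (Nat.left_le_pair _ _)

lemma pl_surj (p : ℕ) (hp : p ≠ 0) : pl (Nat.unpair (p - 1)) = p := by
  unfold pl
  rw [Nat.pair_unpair]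
  omega

lemma G_pl (z : ℕ → ℝ) (q : ℕ × ℕ) : G z (pl q) = E z q.1 q.2 := by
  unfold G pl
  simp

lemma G_zero (z : ℕ → ℝ) : G z 0 = 0 := by simp [G]

lemma not_range_pl {x : ℕ} (hx : x ∉ Set.range pl) : x = 0 := by
  by_contra h
  exact hx ⟨_, pl_surj x h⟩

lemma G_hasSum (hz : Summable fun i => z i ^ 2) : HasSum (fun p => G z p ^ 2) (S z) := by
  rw [← pl_inj.hasSum_iff (f := fun p => G z p ^ 2)]
  · have : ((fun p => G z p ^ 2) ∘ pl) = fun q : ℕ × ℕ => e z q.1 q.2 := by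
      funext q
      simp only [Function.comp, G_pl, E_sq hz]
    rw [this]
    exact e_hasSum hz
  · intro x hx
    rw [not_range_pl hx, G_zero]; ring

/-- heads live on positions `≤ n` as soon as `1 ≤ M z (n+1)` -/
lemma h_eq_zero {n k : ℕ} (hn : 1 ≤ M z n) (hk : n ≤ k) : h z k = 0 := by
  have h1 : 1 ≤ M z k := hn.trans (M_mono z hk)
  have h2 : 1 ≤ M z (k + 1) := h1.trans (M_mono z (Nat.le_succ k))
  unfold h hE
  rw [min_eq_right h1, min_eq_right h2]
  simp

/-- channels of `k` vanish as long as `M z (k+1) ≤ 1` -/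
lemma e_eq_zero {k : ℕ} (hk : M z (k + 1) ≤ 1) (j : ℕ) : e z k j = 0 := by
  have h1 : M z k ≤ 1 := (M_mono z (Nat.le_succ k)).trans hk
  have h2 : T z (k + 1) = 0 := by unfold T; exact max_eq_right (by linarith)
  have h3 : T z k = 0 := by unfold T; exact max_eq_right (by linarith)
  unfold e
  rw [h2, h3]; ring

lemma E_eq_zero {k : ℕ} (hk : M z (k + 1) ≤ 1) (j : ℕ) : E z k j = 0 := by
  unfold E; rw [e_eq_zero hk]; simp

lemma G_eq_zero {n p : ℕ} (hn : M z n ≤ 1) (hp : p ≤ n) : G z p = 0 := by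
  by_cases h0 : p = 0
  · rw [h0, G_zero]
  · have h1 := pl_surj p h0
    rw [← h1, G_pl]
    apply E_eq_zero
    have h2 := pl_gt (Nat.unpair (p - 1))
    rw [h1] at h2
    exact (M_mono z (by omega : (Nat.unpair (p - 1)).1 + 1 ≤ n)).trans hn

lemma hG (z : ℕ → ℝ) (p : ℕ) : h z p * G z p = 0 := by
  rcases le_total (M z p) 1 with h1 | h1
  · rw [G_eq_zero h1 le_rfl, mul_zero]
  · rw [h_eq_zero h1 le_rfl, zero_mul]

lemma al_sq (z : ℕ → ℝ) : al z ^ 2 = 1 + 2 * √(S z) := by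
  unfold al
  exact Real.sq_sqrt (by positivity)

lemma one_le_al (z : ℕ → ℝ) : 1 ≤ al z := by
  unfold al
  rw [Real.one_le_sqrt]
  linarith [Real.sqrt_nonneg (S z)]

lemma F_hasSum (hz : Summable fun i => z i ^ 2) :
    HasSum (fun p => F z p ^ 2) (al z ^ 2 * min (NN z) 1 + S z) := by
  have h1 : ∀ p, F z p ^ 2 = al z ^ 2 * h z p ^ 2 + G z p ^ 2 := by
    intro p
    unfold F
    linear_combination 2 * al z * hG z p
  simp_rw [h1]
  exact ((hasSum_h hz).mul_left _).add (G_hasSum hz)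

end

end Pool.Agent.H794R2.Nir
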