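import Pool.Agent.H794R2.NirA

set_option autoImplicit false

open Filter Topology

namespace Pool.Agent.H794R2.Nir

variable {z w : ℕ → ℝ}

lemma sq_diff_summable {x y : ℕ → ℝ} (hx : Summable fun i => x i ^ 2)
    (hy : Summable fun i => y i ^ 2) : Summable fun i => (x i - y i) ^ 2 := by
  refine Summable.of_nonneg_of_le (fun i => sq_nonneg _) (fun i => ?_)
    ((hx.mul_left 2).add (hy.mul_left 2))
  nlinarith [sq_nonneg (x i + y i)]

/-- the piece inequality: vectors with a common sign -/
lemma piece {x y A A' : ℝ} {a a' : ℕ → ℝ} (hA : 0 ≤ A) (hA' : 0 ≤ A')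
    (ha : ∀ i, 0 ≤ a i) (ha' : ∀ i, 0 ≤ a' i)
    (hsum : HasSum a (x ^ 2 - A)) (hsum' : HasSum a' (y ^ 2 - A'))
    (hAx : A ≤ x ^ 2) (hAy : A' ≤ y ^ 2) {D : ℝ}
    (hD : HasSum (fun i => (Real.sign x * √(a i) - Real.sign y * √(a' i)) ^ 2) D) :
    (x - y) ^ 2 ≤ 2 * ((Real.sign x * √A - Real.sign y * √A') ^ 2 + D) := by
  have hax : ∀ i, a i ≤ x ^ 2 := fun i => by
    have := le_hasSum hsum i (fun j _ => ha j); linarith
  have hay : ∀ i, a' i ≤ y ^ 2 := fun i => by
    have := le_hasSum hsum' i (fun j _ => ha' j); linarith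
  -- pointwise expansion
  have key : ∀ (c d u v : ℝ), 0 ≤ u → 0 ≤ v → u ≤ x ^ 2 → v ≤ y ^ 2 →
      (∀ p q : ℝ, 0 ≤ p → 0 ≤ q → Real.sign x * p * (Real.sign y * q) * 2 ≤ c * p ^ 2 + d * q ^ 2) →
      u + v - c * u - d * v ≤ (Real.sign x * √u - Real.sign y * √v) ^ 2 := by
    intro c d u v hu hv hux hvy hcd
    have h1 := hcd (√u) (√v) (Real.sqrt_nonneg _) (Real.sqrt_nonneg _)
    rw [Real.sq_sqrt hu, Real.sq_sqrt hv] at h1
    have h2 := sign_sqrt_sq hu hux
    have h3 := sign_sqrt_sq hv hvy
    nlinarith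
  -- general summation
  have key2 : ∀ (c d : ℝ),
      (∀ p q : ℝ, 0 ≤ p → 0 ≤ q → Real.sign x * p * (Real.sign y * q) * 2 ≤ c * p ^ 2 + d * q ^ 2) →
      x ^ 2 + y ^ 2 - c * x ^ 2 - d * y ^ 2 ≤ (Real.sign x * √A - Real.sign y * √A') ^ 2 + D := by
    intro c d hcd
    have h1 := key c d A A' hA hA' hAx hAy hcd
    have h2 := hasSum_le (fun i => key c d (a i) (a' i) (ha i) (ha' i) (hax i) (hay i) hcd)
      (((hsum.add hsum').sub (hsum.mul_left c)).sub (hsum'.mul_left d)) hD
    nlinarith
  by_cases hneg : x * y ≤ 0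
  · -- c = d = 0
    have h0 := key2 0 0 (fun p q hp hq => by
      have hs : Real.sign x * Real.sign y ≤ 0 := by
        rcases lt_trichotomy x 0 with hx | hx | hx <;> rcases lt_trichotomy y 0 with hy | hy | hy
        · nlinarith
        · simp [hy]
        · rw [Real.sign_of_neg hx, Real.sign_of_pos hy]; norm_num
        · simp [hx]
        · simp [hx]
        · simp [hx]
        · rw [Real.sign_of_pos hx, Real.sign_of_neg hy]; norm_num
        · simp [hy]
        · nlinarith
      have : Real.sign x * p * (Real.sign y * q) * 2 = (Real.sign x * Real.sign y) * (p * q) * 2 := by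
        ring
      rw [this]
      have hpq : 0 ≤ p * q := mul_nonneg hp hq
      nlinarith)
    nlinarith [sq_nonneg (x + y)]
  · -- same sign
    push Not at hneg
    have hx0 : x ≠ 0 := by rintro rfl; simp at hneg
    have hy0 : y ≠ 0 := by rintro rfl; simp at hneg
    have hs : Real.sign x * Real.sign y = 1 := by
      rcases lt_or_gt_of_ne hx0 with hx | hx <;> rcases lt_or_gt_of_ne hy0 with hy | hy
      · rw [Real.sign_of_neg hx, Real.sign_of_neg hy]; norm_num
      · nlinarith
      · nlinarith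
      · rw [Real.sign_of_pos hx, Real.sign_of_pos hy]; norm_num
    have hyx : 0 < y / x := by
      have : y / x = x * y / x ^ 2 := by field_simp
      rw [this]; positivity
    have hxy : 0 < x / y := by
      have : x / y = x * y / y ^ 2 := by field_simp
      rw [this]; positivity
    have h0 := key2 (y / x) (x / y) (fun p q hp hq => by
      have : Real.sign x * p * (Real.sign y * q) * 2 = (Real.sign x * Real.sign y) * (p * q) * 2 := by
        ring
      rw [this, hs]
      have h1 : (y / x) * p ^ 2 + (x / y) * q ^ 2 - 1 * (p * q) * 2 = (y / x) * (p - (x / y) * q) ^ 2 := by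
        field_simp
        ring
      nlinarith [mul_nonneg hyx.le (sq_nonneg (p - (x / y) * q))])
    have h1 : x ^ 2 + y ^ 2 - y / x * x ^ 2 - x / y * y ^ 2 = (x - y) ^ 2 := by
      field_simp
      ring
    rw [h1] at h0
    nlinarith [sq_nonneg (x - y)]

/-- squared distance is controlled by the squared distances of heads and of channels -/
lemma pieces (hz : Summable fun i => z i ^ 2) (hw : Summable fun i => w i ^ 2) :
    ∑' i, (z i - w i) ^ 2 ≤
      2 * (∑' i, (h z i - h w i) ^ 2 + ∑' p, (G z p - G w p) ^ 2) := by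
  have hh := sq_diff_summable (hasSum_h hz).summable (hasSum_h hw).summable
  have hG := sq_diff_summable (G_hasSum hz).summable (G_hasSum hw).summable
  -- summability on pairs
  have hD : Summable fun q : ℕ × ℕ => (E z q.1 q.2 - E w q.1 q.2) ^ 2 := by
    have := hG.comp_injective pl_inj
    refine this.congr (fun q => ?_)
    simp [Function.comp, G_pl]
  have hDk : ∀ k, Summable fun j => (E z k j - E w k j) ^ 2 := fun k => hD.prod_factor k
  have hGeq : ∑' p, (G z p - G w p) ^ 2 = ∑' k, ∑' j, (E z k j - E w k j) ^ 2 := by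
    rw [← hD.tsum_prod]
    rw [← pl_inj.tsum_eq (f := fun p => (G z p - G w p) ^ 2)]
    · apply tsum_congr
      intro q
      rw [G_pl, G_pl]
    · intro p hp
      by_contra hcon
      rw [Function.mem_support] at hp
      apply hp
      rw [not_range_pl hcon, G_zero, G_zero]
      ring
  have hrow : ∀ k, (z k - w k) ^ 2 ≤ 2 * ((h z k - h w k) ^ 2 + ∑' j, (E z k j - E w k j) ^ 2) := by
    intro k
    have h1 : HasSum (fun j => e z k j) (z k ^ 2 - hE z k) := by
      have := e_hasSum_j hz k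
      rwa [show T z (k + 1) - T z k = z k ^ 2 - hE z k by linarith [hE_add z k]] at this
    have h2 : HasSum (fun j => e w k j) (w k ^ 2 - hE w k) := by
      have := e_hasSum_j hw k
      rwa [show T w (k + 1) - T w k = w k ^ 2 - hE w k by linarith [hE_add w k]] at this
    exact piece (hE_nonneg z k) (hE_nonneg w k) (e_nonneg z k) (e_nonneg w k) h1 h2
      (hE_le z k) (hE_le w k) (hDk k).hasSum
  have hs1 : Summable fun k => ∑' j, (E z k j - E w k j) ^ 2 := hD.prod
  calc ∑' i, (z i - w i) ^ 2 ≤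
      ∑' k, 2 * ((h z k - h w k) ^ 2 + ∑' j, (E z k j - E w k j) ^ 2) :=
        (sq_diff_summable hz hw).tsum_le_tsum hrow ((hh.add hs1).mul_left 2)
    _ = _ := by
        rw [tsum_mul_left, hh.tsum_add hs1, hGeq]

/-- first reduction: it suffices to control the scaled heads -/
lemma main1 (hz : Summable fun i => z i ^ 2) (hw : Summable fun i => w i ^ 2)
    {ε B : ℝ} (hB0 : 0 ≤ B)
    (hF : ∑' p, (F z p - F w p) ^ 2 ≤ ε ^ 2)
    (hS : (√(S z) - √(S w)) ^ 2 ≤ ε ^ 2)
    (hB : ∑' p, (al z * h z p - al w * h w p) ^ 2 ≤ 2 * ε ^ 2 + 2 * B) :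
    ∑' i, (z i - w i) ^ 2 ≤ 24 * ε ^ 2 + 16 * B := by
  have hFs := sq_diff_summable (F_hasSum hz).summable (F_hasSum hw).summable
  have hhz := (hasSum_h hz).summable
  have hhw := (hasSum_h hw).summable
  have hahz : Summable fun i => (al z * h z i) ^ 2 := by
    simp_rw [mul_pow]; exact hhz.mul_left _
  have hahw : Summable fun i => (al w * h w i) ^ 2 := by
    simp_rw [mul_pow]; exact hhw.mul_left _
  have hah := sq_diff_summable hahz hahw
  have hh := sq_diff_summable hhz hhw
  have hG := sq_diff_summable (G_hasSum hz).summable (G_hasSum hw).summable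
  -- channels
  have h1 : ∑' p, (G z p - G w p) ^ 2 ≤
      2 * ∑' p, (F z p - F w p) ^ 2 + 2 * ∑' p, (al z * h z p - al w * h w p) ^ 2 := by
    rw [← tsum_mul_left, ← tsum_mul_left, ← (hFs.mul_left 2).tsum_add (hah.mul_left 2)]
    refine hG.tsum_le_tsum (fun p => ?_) ((hFs.mul_left 2).add (hah.mul_left 2))
    have : G z p - G w p = (F z p - F w p) - (al z * h z p - al w * h w p) := by
      unfold F; ring
    rw [this]
    nlinarith [sq_nonneg ((F z p - F w p) + (al z * h z p - al w * h w p))]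
  -- heads
  have hal : (al w - al z) ^ 2 ≤ ε ^ 2 := by
    refine le_trans ?_ hS
    have e1 := al_sq z
    have e2 := al_sq w
    have e3 := one_le_al z
    have e4 := one_le_al w
    have e5 : (al w - al z) * (al w + al z) = 2 * (√(S w) - √(S z)) := by nlinarith
    have e6 : 4 * (al w - al z) ^ 2 ≤ ((al w - al z) * (al w + al z)) ^ 2 := by
      rw [mul_pow]
      have e7 : 4 ≤ (al w + al z) ^ 2 := by nlinarith
      nlinarith [mul_le_mul_of_nonneg_left e7 (sq_nonneg (al w - al z))]
    rw [e5] at e6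
    nlinarith
  have h2 : ∑' p, (h z p - h w p) ^ 2 ≤
      2 * ∑' p, (al z * h z p - al w * h w p) ^ 2 + 2 * ((al w - al z) ^ 2 * ∑' p, h w p ^ 2) := by
    rw [← tsum_mul_left, ← tsum_mul_left, ← tsum_mul_left,
      ← (hah.mul_left 2).tsum_add ((hhw.mul_left _).mul_left 2)]
    refine hh.tsum_le_tsum (fun p => ?_) ((hah.mul_left 2).add ((hhw.mul_left _).mul_left 2))
    have e1 : (h z p - h w p) ^ 2 ≤ (al z * (h z p - h w p)) ^ 2 := by
      rw [mul_pow]
      have e7 : 1 ≤ al z ^ 2 := one_le_pow₀ (one_le_al z)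
      nlinarith [mul_le_mul_of_nonneg_right e7 (sq_nonneg (h z p - h w p))]
    have e2 : al z * (h z p - h w p) =
        (al z * h z p - al w * h w p) + (al w - al z) * h w p := by ring
    rw [e2] at e1
    nlinarith [sq_nonneg ((al z * h z p - al w * h w p) - (al w - al z) * h w p)]
  have h3 : ∑' p, h w p ^ 2 ≤ 1 := by
    rw [(hasSum_h hw).tsum_eq]; exact min_le_right _ _
  have h3' : 0 ≤ ∑' p, h w p ^ 2 := tsum_nonneg fun p => sq_nonneg _
  have h4 : (al w - al z) ^ 2 * ∑' p, h w p ^ 2 ≤ ε ^ 2 := by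
    nlinarith [sq_nonneg (al w - al z)]
  have h5 := pieces hz hw
  nlinarith

end Pool.Agent.H794R2.Nir
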