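import Pool.Agent.H794R2.NirB

set_option autoImplicit false

open Filter Topology

namespace Pool.Agent.H794R2.Nir

variable {z w : ℕ → ℝ}

/-- generic form of the hypothesis of `main1` -/
lemma head_bound (hz : Summable fun i => z i ^ 2) (hw : Summable fun i => w i ^ 2)
    {B : ℝ} {g : ℕ → ℝ} (hgs : Summable g) (hgB : ∑' p, g p ≤ B)
    (hpt : ∀ p, (al z * h z p - al w * h w p) ^ 2 ≤ 2 * (F z p - F w p) ^ 2 + 2 * g p) :
    ∑' p, (al z * h z p - al w * h w p) ^ 2 ≤ 2 * ∑' p, (F z p - F w p) ^ 2 + 2 * B := by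
  have hFs := sq_diff_summable (F_hasSum hz).summable (F_hasSum hw).summable
  have hahz : Summable fun i => (al z * h z i) ^ 2 := by
    simp_rw [mul_pow]; exact (hasSum_h hz).summable.mul_left _
  have hahw : Summable fun i => (al w * h w i) ^ 2 := by
    simp_rw [mul_pow]; exact (hasSum_h hw).summable.mul_left _
  have hah := sq_diff_summable hahz hahw
  have h1 := hah.tsum_le_tsum hpt ((hFs.mul_left 2).add (hgs.mul_left 2))
  rw [(hFs.mul_left 2).tsum_add (hgs.mul_left 2), tsum_mul_left, tsum_mul_left] at h1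
  linarith

/-- energy of channels on positions `≤ n` -/
lemma G_low (hz : Summable fun i => z i ^ 2) (n : ℕ) :
    (Summable fun p => if p ≤ n then G z p ^ 2 else 0) ∧
      ∑' p, (if p ≤ n then G z p ^ 2 else 0) ≤ T z n := by
  classical
  have hG := (G_hasSum hz).summable
  have hs : Summable fun p => if p ≤ n then G z p ^ 2 else 0 := by
    refine Summable.of_nonneg_of_le (fun p => ?_) (fun p => ?_) hG
    · split_ifs
      · exact sq_nonneg _
      · exact le_rfl
    · split_ifs
      · exact le_rfl
      · exact sq_nonneg _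
  refine ⟨hs, ?_⟩
  set u : ℕ × ℕ → ℝ := fun q => if q.1 < n then e z q.1 q.2 else 0 with hu
  have hus : Summable u := by
    refine Summable.of_nonneg_of_le (fun q => ?_) (fun q => ?_) (e_summable hz)
    · simp only [hu]; split_ifs
      · exact e_nonneg _ _ _
      · exact le_rfl
    · simp only [hu]; split_ifs
      · exact le_rfl
      · exact e_nonneg _ _ _
  have h1 : ∑' q, u q = T z n := by
    rw [hus.tsum_prod]
    have h2 : ∀ k, ∑' j, u (k, j) = if k ∈ Finset.range n then T z (k + 1) - T z k else 0 := by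
      intro k
      simp only [hu, Finset.mem_range]
      by_cases hk : k < n
      · simp only [hk, if_true]
        exact (e_hasSum_j hz k).tsum_eq
      · simp [hk]
    simp_rw [h2]
    rw [tsum_eq_sum (s := Finset.range n) (fun k hk => if_neg hk)]
    rw [Finset.sum_congr rfl (fun k hk => if_pos hk)]
    rw [Finset.sum_range_sub (fun k => T z k), T_zero]
    simp
  rw [← h1]
  rw [← pl_inj.tsum_eq (f := fun p => if p ≤ n then G z p ^ 2 else 0)]
  · refine (hs.comp_injective pl_inj).tsum_le_tsum (fun q => ?_) hus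
    simp only [hu, Function.comp]
    by_cases hq : pl q ≤ n
    · have : q.1 < n := lt_of_lt_of_le (pl_gt q) hq
      rw [if_pos hq, if_pos this, G_pl, E_sq hz]
    · rw [if_neg hq]
      split_ifs
      · exact e_nonneg _ _ _
      · exact le_rfl
  · intro p hp
    by_contra hcon
    rw [Function.mem_support] at hp
    apply hp
    rw [not_range_pl hcon, G_zero]
    simp

/-- the key estimate: the tail energy of `z` before `n` is controlled -/
lemma key_est (hz : Summable fun i => z i ^ 2) (hw : Summable fun i => w i ^ 2) {n : ℕ}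
    (hzn : 1 ≤ M z (n + 1)) (hwn : 1 ≤ M w (n + 1)) (hwn' : M w n ≤ 1) {ε : ℝ}
    (hF : ∑' p, (F z p - F w p) ^ 2 ≤ ε ^ 2)
    (hS : (√(S z) - √(S w)) ^ 2 ≤ ε ^ 2) :
    T z n ≤ 56 / 3 * ε ^ 2 := by
  classical
  have hFs := sq_diff_summable (F_hasSum hz).summable (F_hasSum hw).summable
  rcases (T_nonneg z n).eq_or_lt with h0 | h0
  · rw [← h0]; positivity
  · have hex : ∃ j : ℕ, S z / 4 ^ j ≤ T z n := by
      have h2 : Tendsto (fun n : ℕ => S z / 4 ^ n) atTop (𝓝 0) :=
        tendsto_const_nhds.div_atTop (tendsto_pow_atTop_atTop_of_one_lt (by norm_num))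
      exact ((h2.eventually (gt_mem_nhds h0)).mono fun j hj => le_of_lt hj).exists
    set j := Nat.find hex with hj
    have hj1 : S z / 4 ^ j ≤ T z n := Nat.find_spec hex
    -- channels of z in band j vanish for k ≥ n
    have hz0 : ∀ k, n ≤ k → e z k j = 0 := by
      intro k hk
      have h1 : S z / 4 ^ j ≤ T z k := hj1.trans (T_mono z hk)
      have h2 : S z / 4 ^ j ≤ T z (k + 1) := h1.trans (T_mono z (Nat.le_succ k))
      have h4 : S z / 4 ^ (j + 1) ≤ S z / 4 ^ j := by
        apply div_le_div_of_nonneg_left (S_nonneg z) (by positivity)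
        exact pow_le_pow_right₀ (by norm_num) (Nat.le_succ j)
      unfold e b
      rw [min_eq_right h1, min_eq_right h2, min_eq_right (h4.trans h1), min_eq_right (h4.trans h2)]
      ring
    have hpt : ∀ k, e w k j ≤ (F z (pl (k, j)) - F w (pl (k, j))) ^ 2 := by
      intro k
      rcases lt_or_ge k n with hk | hk
      · rw [e_eq_zero ((M_mono w (by omega : k + 1 ≤ n)).trans hwn')]
        positivity
      · have hp := pl_gt (k, j)
        simp only at hp
        have h1 : h z (pl (k, j)) = 0 := h_eq_zero hzn (by omega)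
        have h2 : h w (pl (k, j)) = 0 := h_eq_zero hwn (by omega)
        unfold F
        rw [h1, h2, G_pl, G_pl]
        have h3 : E z k j = 0 := by unfold E; rw [hz0 k hk]; simp
        simp only [h3]
        rw [← E_sq hw]
        apply le_of_eq
        ring
    have hinj : Function.Injective (fun k : ℕ => pl (k, j)) := by
      intro k k' hkk
      have := pl_inj hkk
      simpa using this
    have hband : 3 / 4 * (S w / 4 ^ j) ≤ ε ^ 2 := by
      refine le_trans ?_ hF
      rw [← (e_hasSum_k hw j).tsum_eq]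
      refine le_trans ((e_hasSum_k hw j).summable.tsum_le_tsum hpt
        (hFs.comp_injective hinj)) ?_
      exact tsum_comp_le_tsum_of_inj hFs (fun p => sq_nonneg _) hinj
    have hT : T z n ≤ 4 * (S z / 4 ^ j) := by
      rcases Nat.eq_zero_or_pos j with hj0 | hj0
      · rw [hj0]
        have := T_le_S hz n
        simp only [pow_zero, div_one]
        nlinarith [S_nonneg z]
      · have h1 := Nat.find_min hex (m := j - 1) (by omega)
        push Not at h1
        have h2 : S z / 4 ^ (j - 1) = 4 * (S z / 4 ^ j) := by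
          obtain ⟨i, hi⟩ : ∃ i, j = i + 1 := ⟨j - 1, by omega⟩
          rw [hi, Nat.add_sub_cancel, pow_succ]
          field_simp
        rw [h2] at h1
        exact h1.le
    have hSz : S z ≤ 2 * S w + 2 * (√(S z) - √(S w)) ^ 2 := by
      have h1 := Real.sq_sqrt (S_nonneg z)
      have h2 := Real.sq_sqrt (S_nonneg w)
      nlinarith [sq_nonneg (√(S z) - 2 * √(S w))]
    have h4 : (1 : ℝ) ≤ 4 ^ j := one_le_pow₀ (by norm_num)
    have hSz' : S z / 4 ^ j ≤ 2 * (S w / 4 ^ j) + 2 * ε ^ 2 := by
      rw [div_le_iff₀ (by positivity)]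
      have : (2 * (S w / 4 ^ j) + 2 * ε ^ 2) * 4 ^ j = 2 * S w + 2 * ε ^ 2 * 4 ^ j := by
        field_simp
      rw [this]
      nlinarith [mul_le_mul_of_nonneg_left h4 (sq_nonneg ε)]
    nlinarith

end Pool.Agent.H794R2.Nir
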