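import Pool.Agent.H794R2.NirC

set_option autoImplicit false

open Filter Topology

namespace Pool.Agent.H794R2.Nir

variable {z w : ℕ → ℝ}

/-- the asymmetric main case -/
lemma main_case (hz : Summable fun i => z i ^ 2) (hw : Summable fun i => w i ^ 2) {n : ℕ}
    (hzn : 1 ≤ M z (n + 1)) (hwn : 1 ≤ M w (n + 1)) (hwn' : M w n ≤ 1) {ε : ℝ}
    (hF : ∑' p, (F z p - F w p) ^ 2 ≤ ε ^ 2)
    (hS : (√(S z) - √(S w)) ^ 2 ≤ ε ^ 2) :
    ∑' i, (z i - w i) ^ 2 ≤ 324 * ε ^ 2 := by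
  have hT := key_est hz hw hzn hwn hwn' hF hS
  obtain ⟨hgs, hgB⟩ := G_low hz n
  have hB := head_bound hz hw hgs hgB (fun p => by
    rcases le_or_gt p n with hp | hp
    · rw [if_pos hp]
      have h1 : G w p = 0 := G_eq_zero hwn' hp
      have : al z * h z p - al w * h w p = (F z p - F w p) - G z p := by
        unfold F; rw [h1]; ring
      rw [this]
      nlinarith [sq_nonneg ((F z p - F w p) + G z p)]
    · rw [if_neg (by omega), h_eq_zero hzn hp, h_eq_zero hwn hp]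
      have := sq_nonneg (F z p - F w p)
      simp
      positivity)
  have h1 := main1 hz hw (ε := ε) (B := T z n) (T_nonneg z n) hF hS (by linarith)
  nlinarith [sq_nonneg ε]

lemma S_eq_zero (h1 : NN z ≤ 1) : S z = 0 := max_eq_right (by linarith)

lemma G_eq_zero' (hz : Summable fun i => z i ^ 2) (h1 : NN z ≤ 1) (p : ℕ) : G z p = 0 :=
  G_eq_zero (n := p) ((M_le_NN hz p).trans h1) le_rfl

/-- the case when one point is in the unit ball -/
lemma ball_case (hz : Summable fun i => z i ^ 2) (hw : Summable fun i => w i ^ 2)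
    (hw1 : NN w ≤ 1) {ε : ℝ}
    (hF : ∑' p, (F z p - F w p) ^ 2 ≤ ε ^ 2)
    (hS : (√(S z) - √(S w)) ^ 2 ≤ ε ^ 2) :
    ∑' i, (z i - w i) ^ 2 ≤ 324 * ε ^ 2 := by
  have hSz : S z ≤ ε ^ 2 := by
    rw [S_eq_zero hw1, Real.sqrt_zero, sub_zero, Real.sq_sqrt (S_nonneg z)] at hS
    exact hS
  have hB := head_bound hz hw (G_hasSum hz).summable (G_hasSum hz).tsum_eq.le (fun p => by
    have : al z * h z p - al w * h w p = (F z p - F w p) - G z p := by
      unfold F; rw [G_eq_zero' hw hw1]; ring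
    rw [this]
    nlinarith [sq_nonneg ((F z p - F w p) + G z p)])
  have h1 := main1 hz hw (ε := ε) (B := S z) (S_nonneg z) hF hS (by linarith)
  nlinarith [sq_nonneg ε]

lemma exists_n (hz : Summable fun i => z i ^ 2) (h1 : 1 < NN z) : ∃ n, ∀ m, n ≤ m → 1 ≤ M z m := by
  have := (M_tendsto hz).eventually (lt_mem_nhds h1)
  obtain ⟨n, hn⟩ := eventually_atTop.mp this
  exact ⟨n, fun m hm => (hn m hm).le⟩

lemma expanding (hz : Summable fun i => z i ^ 2) (hw : Summable fun i => w i ^ 2) {ε : ℝ}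
    (hF : ∑' p, (F z p - F w p) ^ 2 ≤ ε ^ 2)
    (hS : (√(S z) - √(S w)) ^ 2 ≤ ε ^ 2) :
    ∑' i, (z i - w i) ^ 2 ≤ 324 * ε ^ 2 := by
  classical
  have hF' : ∑' p, (F w p - F z p) ^ 2 ≤ ε ^ 2 := by
    refine le_trans (le_of_eq ?_) hF
    exact tsum_congr fun p => by ring
  have hS' : (√(S w) - √(S z)) ^ 2 ≤ ε ^ 2 := by
    refine le_trans (le_of_eq ?_) hS
    ring
  have hsymm : ∑' i, (w i - z i) ^ 2 = ∑' i, (z i - w i) ^ 2 := tsum_congr fun p => by ring
  rcases le_or_gt (NN w) 1 with hw1 | hw1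
  · exact ball_case hz hw hw1 hF hS
  rcases le_or_gt (NN z) 1 with hz1 | hz1
  · rw [← hsymm]; exact ball_case hw hz hz1 hF' hS'
  have hex : ∃ n, 1 ≤ M z (n + 1) ∧ 1 ≤ M w (n + 1) := by
    obtain ⟨n1, hn1⟩ := exists_n hz hz1
    obtain ⟨n2, hn2⟩ := exists_n hw hw1
    exact ⟨max n1 n2, hn1 _ (by omega), hn2 _ (by omega)⟩
  set n := Nat.find hex with hn
  obtain ⟨h1, h2⟩ := Nat.find_spec hex
  rw [← hn] at h1 h2
  have h3 : M z n ≤ 1 ∨ M w n ≤ 1 := by
    rcases Nat.eq_zero_or_pos n with h0 | h0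
    · left; rw [h0, M_zero]; norm_num
    · have h4 := Nat.find_min hex (m := n - 1) (by omega)
      rw [Nat.sub_add_cancel h0, not_and_or] at h4
      rcases h4 with h4 | h4
      · left; linarith
      · right; linarith
  rcases h3 with h3 | h3
  · rw [← hsymm]; exact main_case hw hz h2 h1 h3 hF' hS'
  · exact main_case hz hw h1 h2 h3 hF hS

noncomputable section

/-- the Hilbert space `ℓ²(ℕ)` -/
abbrev H : Type := lp (fun _ : ℕ => ℝ) 2

lemma memH {x : ℕ → ℝ} (hx : Summable fun i => x i ^ 2) : Memℓp x 2 := by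
  rw [memℓp_gen_iff (by norm_num)]
  simpa using hx

lemma sumH (z : H) : Summable fun i => (z i) ^ 2 := by
  have := lp.memℓp z
  rw [memℓp_gen_iff (by norm_num)] at this
  simpa using this

lemma normH (z : H) : ‖z‖ ^ 2 = ∑' i, (z i) ^ 2 := by
  have := lp.norm_rpow_eq_tsum (p := 2) (by norm_num) z
  simpa using this

/-- the map -/
def f (z : H) : H := ⟨F z, memH (F_hasSum (sumH z)).summable⟩

lemma f_apply (z : H) (p : ℕ) : f z p = F z p := rfl

lemma norm_f_sq (z : H) : ‖f z‖ ^ 2 = al z ^ 2 * min (‖z‖ ^ 2) 1 + S z := by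
  rw [normH, normH]
  exact (F_hasSum (sumH z)).tsum_eq

lemma NN_H (z : H) : NN z = ‖z‖ ^ 2 := (normH z).symm

lemma sqrt_S (z : H) : √(S z) = max (‖f z‖ - 1) 0 := by
  have h1 := norm_f_sq z
  rw [al_sq] at h1
  rcases le_total (‖z‖ ^ 2) 1 with h2 | h2
  · have h3 : S z = 0 := S_eq_zero (by rw [NN_H]; exact h2)
    rw [h3, Real.sqrt_zero] at h1 ⊢
    rw [min_eq_left h2] at h1
    rw [max_eq_right]
    nlinarith [norm_nonneg (f z)]
  · rw [min_eq_right h2] at h1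
    have h3 := Real.sq_sqrt (S_nonneg z)
    have h4 := Real.sqrt_nonneg (S z)
    have h5 : ‖f z‖ = 1 + √(S z) := by
      apply (sq_eq_sq₀ (norm_nonneg _) (by linarith)).mp
      nlinarith
    rw [h5, max_eq_left (by linarith)]
    ring

lemma f_expanding (z w : H) : (1 / 18) * ‖z - w‖ ≤ ‖f z - f w‖ := by
  have hF : ∑' p, (F z p - F w p) ^ 2 ≤ ‖f z - f w‖ ^ 2 := by
    rw [normH]; rfl
  have hS : (√(S z) - √(S w)) ^ 2 ≤ ‖f z - f w‖ ^ 2 := by
    rw [sqrt_S, sqrt_S]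
    apply sq_le_sq'
    all_goals
      have h1 := abs_max_sub_max_le_abs (‖f z‖ - 1) (‖f w‖ - 1) 0
      have h2 : |(‖f z‖ - 1) - (‖f w‖ - 1)| ≤ ‖f z - f w‖ := by
        have := abs_norm_sub_norm_le (f z) (f w)
        rwa [show ‖f z‖ - 1 - (‖f w‖ - 1) = ‖f z‖ - ‖f w‖ by ring]
      have h3 := abs_le.mp (h1.trans h2)
      linarith [h3.1, h3.2]
  have h1 := expanding (sumH z) (sumH w) hF hS
  have h2 : ∑' i, (z i - w i) ^ 2 = ‖z - w‖ ^ 2 := by rw [normH]; rfl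
  rw [h2] at h1
  have h3 : ‖z - w‖ ^ 2 ≤ (18 * ‖f z - f w‖) ^ 2 := by nlinarith
  have h4 := (sq_le_sq₀ (norm_nonneg _) (by positivity)).mp h3
  linarith

end

end Pool.Agent.H794R2.Nir
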