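import Pool.Agent.H794R2.NirD

set_option autoImplicit false

open Filter Topology

namespace Pool.Agent.H794R2.Nir

noncomputable section

lemma sign_sqrt_continuous {X : Type*} [TopologicalSpace X] {u g : X → ℝ}
    (hu : Continuous u) (hg : Continuous g) (h0 : ∀ x, 0 ≤ g x) (hgu : ∀ x, g x ≤ u x ^ 2) :
    Continuous fun x => Real.sign (u x) * √(g x) := by
  rw [continuous_iff_continuousAt]
  intro x
  by_cases hx : u x = 0
  · have h1 : ∀ y, ‖Real.sign (u y) * √(g y)‖ ≤ |u y| := by
      intro y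
      rw [Real.norm_eq_abs]
      apply sq_le_sq.mp
      rw [sign_sqrt_sq (h0 y) (hgu y)]
      exact hgu y
    have h2 : Tendsto (fun y => |u y|) (𝓝 x) (𝓝 0) := by
      have := (hu.tendsto x).abs
      rwa [hx, abs_zero] at this
    have h3 : Tendsto (fun y => Real.sign (u y) * √(g y)) (𝓝 x) (𝓝 0) :=
      squeeze_zero_norm h1 h2
    have h4 : Real.sign (u x) * √(g x) = 0 := by rw [hx, Real.sign_zero, zero_mul]
    unfold ContinuousAt
    rw [← h4] at h3
    exact h3
  · have h1 : ∀ᶠ y in 𝓝 x, Real.sign (u y) = Real.sign (u x) := by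
      rcases lt_or_gt_of_ne hx with h | h
      · filter_upwards [(hu.tendsto x).eventually (gt_mem_nhds h)] with y hy
        rw [Real.sign_of_neg hy, Real.sign_of_neg h]
      · filter_upwards [(hu.tendsto x).eventually (lt_mem_nhds h)] with y hy
        rw [Real.sign_of_pos hy, Real.sign_of_pos h]
    have h2 : ContinuousAt (fun y => Real.sign (u x) * √(g y)) x := by fun_prop
    refine h2.congr ?_
    filter_upwards [h1] with y hy
    rw [hy]

lemma split_bound {x y : ℕ → ℝ} (hx : Summable fun i => x i ^ 2) (hy : Summable fun i => y i ^ 2)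
    (s : Finset ℕ) : ∑' p, (y p - x p) ^ 2 ≤ ∑ p ∈ s, (y p - x p) ^ 2 +
      (2 * (∑' p, y p ^ 2 - ∑ p ∈ s, y p ^ 2) + 2 * (∑' p, x p ^ 2 - ∑ p ∈ s, x p ^ 2)) := by
  have e0 := sq_diff_summable hy hx
  have e2 := e0.sum_add_tsum_compl (s := s)
  have e3 := hy.sum_add_tsum_compl (s := s)
  have e4 := hx.sum_add_tsum_compl (s := s)
  rw [← e2]
  have f1 := hy.subtype ((s : Set ℕ)ᶜ)
  have f2 := hx.subtype ((s : Set ℕ)ᶜ)
  have f3 := e0.subtype ((s : Set ℕ)ᶜ)
  have e5 : ∑' p : ↑((s : Set ℕ)ᶜ), (y p - x p) ^ 2 ≤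
      ∑' p : ↑((s : Set ℕ)ᶜ), (2 * y p ^ 2 + 2 * x p ^ 2) := by
    refine f3.tsum_le_tsum (fun p => ?_) ((f1.mul_left 2).add (f2.mul_left 2))
    show (y p - x p) ^ 2 ≤ 2 * y p ^ 2 + 2 * x p ^ 2
    nlinarith [sq_nonneg (y p + x p)]
  have e6 : ∑' p : ↑((s : Set ℕ)ᶜ), (2 * y p ^ 2 + 2 * x p ^ 2) =
      2 * ∑' p : ↑((s : Set ℕ)ᶜ), y p ^ 2 + 2 * ∑' p : ↑((s : Set ℕ)ᶜ), x p ^ 2 := by
    rw [← tsum_mul_left, ← tsum_mul_left]
    exact (f1.mul_left 2).tsum_add (f2.mul_left 2)
  linarith

/-- convergence criterion in `ℓ²`: coordinates and norms -/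
lemma continuous_of_coord {X : Type*} [TopologicalSpace X] {g : X → H}
    (hc : ∀ p, Continuous fun x => g x p) (hn : Continuous fun x => ‖g x‖ ^ 2) : Continuous g := by
  classical
  rw [continuous_iff_continuousAt]
  intro x
  unfold ContinuousAt
  rw [tendsto_iff_norm_sub_tendsto_zero]
  suffices hsq : Tendsto (fun y => ‖g y - g x‖ ^ 2) (𝓝 x) (𝓝 0) by
    have := hsq.sqrt
    simpa [Real.sqrt_sq (norm_nonneg _)] using this
  rw [Metric.tendsto_nhds]
  intro ε hε
  -- finite set capturing most of the energy of `g x`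
  have hs := (sumH (g x)).hasSum
  rw [← normH] at hs
  obtain ⟨s, hs⟩ := (hs.eventually (lt_mem_nhds (show ‖g x‖ ^ 2 - ε / 8 < ‖g x‖ ^ 2 by linarith))).exists
  -- bound
  have hbound : ∀ y, ‖g y - g x‖ ^ 2 ≤ ∑ p ∈ s, (g y p - g x p) ^ 2 +
      (2 * (‖g y‖ ^ 2 - ∑ p ∈ s, g y p ^ 2) + 2 * (‖g x‖ ^ 2 - ∑ p ∈ s, g x p ^ 2)) := by
    intro y
    have e1 := split_bound (sumH (g x)) (sumH (g y)) s
    have e2 : ‖g y - g x‖ ^ 2 = ∑' p, (g y p - g x p) ^ 2 := by rw [normH]; rfl
    rw [e2, normH (g y), normH (g x)]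
    exact e1
  have hlim : Tendsto (fun y => ∑ p ∈ s, (g y p - g x p) ^ 2 +
      (2 * (‖g y‖ ^ 2 - ∑ p ∈ s, g y p ^ 2) + 2 * (‖g x‖ ^ 2 - ∑ p ∈ s, g x p ^ 2))) (𝓝 x)
      (𝓝 (∑ p ∈ s, (g x p - g x p) ^ 2 +
      (2 * (‖g x‖ ^ 2 - ∑ p ∈ s, g x p ^ 2) + 2 * (‖g x‖ ^ 2 - ∑ p ∈ s, g x p ^ 2)))) := by
    apply Continuous.tendsto
    fun_prop
  have hval : ∑ p ∈ s, (g x p - g x p) ^ 2 +
      (2 * (‖g x‖ ^ 2 - ∑ p ∈ s, g x p ^ 2) + 2 * (‖g x‖ ^ 2 - ∑ p ∈ s, g x p ^ 2)) < ε := by
    simp only [sub_self]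
    have : ∑ p ∈ s, (0 : ℝ) ^ 2 = 0 := by simp
    rw [this]
    linarith
  filter_upwards [hlim.eventually (gt_mem_nhds hval)] with y hy
  rw [Real.dist_eq, sub_zero, abs_of_nonneg (by positivity)]
  exact (hbound y).trans_lt hy

lemma coord_continuous (p : ℕ) : Continuous fun z : H => z p := by
  have := (lp.evalCLM ℝ (fun _ : ℕ => ℝ) 2 p).continuous
  exact this

lemma M_continuous (k : ℕ) : Continuous fun z : H => M z k := by
  unfold M
  exact continuous_finsetSum _ fun i _ => (coord_continuous i).pow 2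

lemma NN_continuous : Continuous fun z : H => NN z := by
  simp_rw [NN_H]; fun_prop

lemma S_continuous : Continuous fun z : H => S z := by
  unfold S
  exact (NN_continuous.sub continuous_const).max continuous_const

lemma T_continuous (k : ℕ) : Continuous fun z : H => T z k := by
  unfold T
  exact ((M_continuous k).sub continuous_const).max continuous_const

lemma h_continuous (k : ℕ) : Continuous fun z : H => h z k := by
  unfold h
  refine sign_sqrt_continuous (coord_continuous k) ?_ (fun z => hE_nonneg z k) (fun z => hE_le z k)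
  unfold hE
  exact ((M_continuous (k + 1)).min continuous_const).sub ((M_continuous k).min continuous_const)

lemma E_continuous (k j : ℕ) : Continuous fun z : H => E z k j := by
  unfold E
  refine sign_sqrt_continuous (coord_continuous k) ?_ (fun z => e_nonneg z k j)
    (fun z => e_le (sumH z) k j)
  unfold e b
  have h1 := S_continuous
  have h2 := T_continuous k
  have h3 := T_continuous (k + 1)
  exact ((h3.min (h1.div_const _)).sub (h3.min (h1.div_const _))).sub
    ((h2.min (h1.div_const _)).sub (h2.min (h1.div_const _)))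

lemma G_continuous (p : ℕ) : Continuous fun z : H => G z p := by
  unfold G
  split_ifs
  · exact continuous_const
  · exact E_continuous _ _

lemma al_continuous : Continuous fun z : H => al z := by
  unfold al
  exact (continuous_const.add (continuous_const.mul S_continuous.sqrt)).sqrt

lemma f_continuous : Continuous f := by
  refine continuous_of_coord (fun p => ?_) ?_
  · exact (al_continuous.mul (h_continuous p)).add (G_continuous p)
  · simp_rw [norm_f_sq]
    exact ((al_continuous.pow 2).mul ((continuous_norm.pow 2).min continuous_const)).add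
      S_continuous

/-- `f` is the identity on the unit ball -/
lemma f_ball (z : H) (hz : ‖z‖ ≤ 1) : f z = z := by
  have h1 : NN z ≤ 1 := by rw [NN_H]; nlinarith [norm_nonneg z]
  have h2 : al z = 1 := by unfold al; rw [S_eq_zero h1]; simp
  apply lp.ext
  funext p
  rw [f_apply]
  unfold F
  rw [h2, G_eq_zero' (sumH z) h1]
  have h3 : hE z p = z p ^ 2 := by
    unfold hE
    rw [min_eq_left ((M_le_NN (sumH z) _).trans h1), min_eq_left ((M_le_NN (sumH z) _).trans h1),
      M_succ]
    ring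
  unfold h
  rw [h3, Real.sqrt_sq_eq_abs]
  rcases lt_trichotomy (z p) 0 with h | h | h
  · rw [Real.sign_of_neg h, abs_of_neg h]; ring
  · rw [h]; simp
  · rw [Real.sign_of_pos h, abs_of_pos h]; ring

lemma f_range_interior : (interior (Set.range f)).Nonempty := by
  refine ⟨0, ?_⟩
  rw [mem_interior_iff_mem_nhds]
  refine Filter.mem_of_superset (Metric.closedBall_mem_nhds (0 : H) one_pos) ?_
  intro z hz
  exact ⟨z, f_ball z (by simpa using hz)⟩

lemma f_not_surj : ¬ Function.Surjective f := by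
  intro hs
  obtain ⟨z, hz⟩ := hs (lp.single 2 0 2)
  have h1 : ‖f z‖ = 2 := by
    rw [hz, lp.norm_single]
    · simp
    · norm_num
  have h2 : f z 0 = 2 := by
    rw [hz]
    simp
  rw [f_apply] at h2
  unfold F at h2
  rw [G_zero, add_zero] at h2
  have h3 := norm_f_sq z
  rw [h1] at h3
  have h4 : h z 0 ^ 2 ≤ min (NN z) 1 := by
    exact le_hasSum (hasSum_h (sumH z)) 0 (fun i _ => sq_nonneg _)
  rw [NN_H] at h4
  have h5 : al z ^ 2 * h z 0 ^ 2 = 4 := by
    rw [← mul_pow, h2]; norm_num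
  have h6 : S z = 0 := by
    have := S_nonneg z
    nlinarith [sq_nonneg (al z), mul_le_mul_of_nonneg_left h4 (sq_nonneg (al z))]
  have h7 := al_sq z
  rw [h6] at h7
  simp only [Real.sqrt_zero, mul_zero, add_zero] at h7
  rw [h7] at h5
  have h8 : h z 0 ^ 2 ≤ 1 := h4.trans (min_le_right _ _)
  linarith

theorem main :
    ¬ (∀ (H : Type) [NormedAddCommGroup H] [InnerProductSpace ℝ H] [CompleteSpace H]
      (f : H → H) (k : ℝ),
      Continuous f → 0 < k →
      (∀ x y : H, k * ‖x - y‖ ≤ ‖f x - f y‖) →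
      (interior (Set.range f)).Nonempty →
      Function.Surjective f) := by
  intro hall
  exact f_not_surj (hall H f (1 / 18) f_continuous (by norm_num) f_expanding f_range_interior)

end

end Pool.Agent.H794R2.Nir
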