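import Mathlib

/-!
The Figiel-Johnson norm `rho` on nonnegative sequences (values in `ℝ≥0∞`) and the dual
Tsirelson-type norm `tau`.
-/
set_option autoImplicit false
open scoped ENNReal
open Finset

namespace Pool.Agent.H794R2.Tsi

/-- restriction of `x` to `[a,b)` -/
noncomputable def res (a b : ℕ) (x : ℕ → ℝ≥0∞) : ℕ → ℝ≥0∞ := (Set.Ico a b).indicator x

/-- admissible partitions: number of pieces and cutting points -/
abbrev Adm : Type := {p : ℕ × (ℕ → ℕ) // Monotone p.2 ∧ p.1 ≤ p.2 0}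

/-- the iterates -/
noncomputable def rhoN : ℕ → (ℕ → ℝ≥0∞) → ℝ≥0∞
  | 0, x => ⨆ n, x n
  | m+1, x => max (rhoN m x)
      (⨆ p : Adm, 2⁻¹ * ∑ i ∈ range p.1.1, rhoN m (res (p.1.2 i) (p.1.2 (i+1)) x))

/-- the Figiel-Johnson norm -/
noncomputable def rho (x : ℕ → ℝ≥0∞) : ℝ≥0∞ := ⨆ m, rhoN m x

/-- pairing -/
noncomputable def pair (z a : ℕ → ℝ≥0∞) : ℝ≥0∞ := ∑' n, z n * a n

/-- the dual norm -/
noncomputable def tau (a : ℕ → ℝ≥0∞) : ℝ≥0∞ := ⨆ z : {z : ℕ → ℝ≥0∞ // rho z ≤ 1}, pair z.1 a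

lemma res_mono {a b : ℕ} {x y : ℕ → ℝ≥0∞} (h : x ≤ y) : res a b x ≤ res a b y := by
  intro n
  unfold res
  exact Set.indicator_le_indicator (h n)

lemma res_add (a b : ℕ) (x y : ℕ → ℝ≥0∞) : res a b (x + y) = res a b x + res a b y := by
  unfold res
  exact Set.indicator_add _ _ _

lemma res_le (a b : ℕ) (x : ℕ → ℝ≥0∞) : res a b x ≤ x := by
  intro n
  unfold res
  exact Set.indicator_le_self _ _ _

lemma res_smul (a b : ℕ) (c : ℝ≥0∞) (x : ℕ → ℝ≥0∞) : res a b (c • x) = c • res a b x := by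
  unfold res
  funext n
  by_cases hn : n ∈ Set.Ico a b <;> simp [hn]

lemma rhoN_mono (m : ℕ) : ∀ {x y : ℕ → ℝ≥0∞}, x ≤ y → rhoN m x ≤ rhoN m y := by
  induction m with
  | zero =>
    intro x y h
    simp only [rhoN]
    exact iSup_mono h
  | succ m ih =>
    intro x y h
    simp only [rhoN]
    refine max_le_max (ih h) (iSup_mono fun p => ?_)
    gcongr with i hi
    exact ih (res_mono h)

lemma rhoN_le_succ (m : ℕ) (x : ℕ → ℝ≥0∞) : rhoN m x ≤ rhoN (m+1) x := by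
  simp only [rhoN]
  exact le_max_left _ _

lemma rhoN_monotone (x : ℕ → ℝ≥0∞) : Monotone (fun m => rhoN m x) :=
  monotone_nat_of_le_succ fun m => rhoN_le_succ m x

lemma rho_mono {x y : ℕ → ℝ≥0∞} (h : x ≤ y) : rho x ≤ rho y :=
  iSup_mono fun m => rhoN_mono m h

lemma rhoN_add (m : ℕ) : ∀ (x y : ℕ → ℝ≥0∞), rhoN m (x + y) ≤ rhoN m x + rhoN m y := by
  induction m with
  | zero =>
    intro x y
    simp only [rhoN]
    refine iSup_le fun n => ?_
    exact add_le_add (le_iSup x n) (le_iSup y n)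
  | succ m ih =>
    intro x y
    simp only [rhoN]
    refine max_le ?_ (iSup_le fun p => ?_)
    · exact (ih x y).trans (add_le_add (le_max_left _ _) (le_max_left _ _))
    · calc 2⁻¹ * ∑ i ∈ range p.1.1, rhoN m (res (p.1.2 i) (p.1.2 (i+1)) (x + y))
          ≤ 2⁻¹ * ∑ i ∈ range p.1.1, (rhoN m (res (p.1.2 i) (p.1.2 (i+1)) x)
              + rhoN m (res (p.1.2 i) (p.1.2 (i+1)) y)) := by
            gcongr with i hi
            rw [res_add]
            exact ih _ _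
        _ = 2⁻¹ * ∑ i ∈ range p.1.1, rhoN m (res (p.1.2 i) (p.1.2 (i+1)) x)
            + 2⁻¹ * ∑ i ∈ range p.1.1, rhoN m (res (p.1.2 i) (p.1.2 (i+1)) y) := by
            rw [sum_add_distrib, mul_add]
        _ ≤ _ := by
            refine add_le_add ?_ ?_
            · exact (le_iSup (fun p : Adm => 2⁻¹ * ∑ i ∈ range p.1.1,
                rhoN m (res (p.1.2 i) (p.1.2 (i+1)) x)) p).trans (le_max_right _ _)
            · exact (le_iSup (fun p : Adm => 2⁻¹ * ∑ i ∈ range p.1.1,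
                rhoN m (res (p.1.2 i) (p.1.2 (i+1)) y)) p).trans (le_max_right _ _)

lemma rho_add (x y : ℕ → ℝ≥0∞) : rho (x + y) ≤ rho x + rho y := by
  refine iSup_le fun m => (rhoN_add m x y).trans ?_
  exact add_le_add (le_iSup (fun m => rhoN m x) m) (le_iSup (fun m => rhoN m y) m)

lemma rhoN_smul (m : ℕ) (c : ℝ≥0∞) : ∀ (x : ℕ → ℝ≥0∞), rhoN m (c • x) = c * rhoN m x := by
  induction m with
  | zero =>
    intro x
    simp only [rhoN]
    rw [ENNReal.mul_iSup]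
    rfl
  | succ m ih =>
    intro x
    simp only [rhoN]
    have hm : Monotone (fun b : ℝ≥0∞ => c * b) := fun a b h => mul_le_mul' le_rfl h
    have hmm : ∀ a b : ℝ≥0∞, c * max a b = max (c * a) (c * b) := fun a b => hm.map_max
    rw [ih, hmm, ENNReal.mul_iSup]
    congr 1
    refine iSup_congr fun p => ?_
    simp_rw [res_smul, ih]
    rw [← mul_sum]
    ring

lemma rho_smul (c : ℝ≥0∞) (x : ℕ → ℝ≥0∞) : rho (c • x) = c * rho x := by
  unfold rho
  rw [ENNReal.mul_iSup]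
  exact iSup_congr fun m => rhoN_smul m c x

lemma le_rho (x : ℕ → ℝ≥0∞) (n : ℕ) : x n ≤ rho x := by
  refine le_trans ?_ (le_iSup (fun m => rhoN m x) 0)
  simp only [rhoN]
  exact le_iSup x n

/-- (R2) -/
lemma sum_rho_le (x : ℕ → ℝ≥0∞) (k : ℕ) (t : ℕ → ℕ) (ht : Monotone t) (hk : k ≤ t 0) :
    ∑ i ∈ range k, rho (res (t i) (t (i+1)) x) ≤ 2 * rho x := by
  have h1 : ∑ i ∈ range k, rho (res (t i) (t (i+1)) x)
      = ⨆ m, ∑ i ∈ range k, rhoN m (res (t i) (t (i+1)) x) := by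
    unfold rho
    rw [ENNReal.finsetSum_iSup_of_monotone]
    intro i
    exact rhoN_monotone _
  rw [h1]
  refine iSup_le fun m => ?_
  have h2 : 2⁻¹ * ∑ i ∈ range k, rhoN m (res (t i) (t (i+1)) x) ≤ rho x := by
    refine le_trans ?_ (le_iSup (fun m => rhoN m x) (m+1))
    simp only [rhoN]
    exact (le_iSup (fun p : Adm => 2⁻¹ * ∑ i ∈ range p.1.1,
                rhoN m (res (p.1.2 i) (p.1.2 (i+1)) x)) ⟨(k, t), ht, hk⟩).trans (le_max_right _ _)
  calc ∑ i ∈ range k, rhoN m (res (t i) (t (i+1)) x)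
      = 2 * (2⁻¹ * ∑ i ∈ range k, rhoN m (res (t i) (t (i+1)) x)) := by
        rw [← mul_assoc, ENNReal.mul_inv_cancel (by norm_num) (by norm_num), one_mul]
    _ ≤ 2 * rho x := by gcongr

/-- (R3) -/
lemma rho_le_of (x : ℕ → ℝ≥0∞) (B : ℝ≥0∞) (h0 : ∀ n, x n ≤ B)
    (h : ∀ (k : ℕ) (t : ℕ → ℕ), Monotone t → k ≤ t 0 →
      ∑ i ∈ range k, rho (res (t i) (t (i+1)) x) ≤ 2 * B) : rho x ≤ B := by
  refine iSup_le fun m => ?_
  induction m with
  | zero =>
    simp only [rhoN]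
    exact iSup_le h0
  | succ m ih =>
    simp only [rhoN]
    refine max_le ih (iSup_le fun p => ?_)
    have h1 := h p.1.1 p.1.2 p.2.1 p.2.2
    calc 2⁻¹ * ∑ i ∈ range p.1.1, rhoN m (res (p.1.2 i) (p.1.2 (i+1)) x)
        ≤ 2⁻¹ * ∑ i ∈ range p.1.1, rho (res (p.1.2 i) (p.1.2 (i+1)) x) := by
          gcongr with i hi
          exact le_iSup (fun m => rhoN m (res (p.1.2 i) (p.1.2 (i+1)) x)) m
      _ ≤ 2⁻¹ * (2 * B) := by gcongr
      _ = B := by
          rw [← mul_assoc, ENNReal.inv_mul_cancel (by norm_num) (by norm_num), one_mul]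

lemma sum_tsum_res_le (k : ℕ) (t : ℕ → ℕ) (ht : Monotone t) (x : ℕ → ℝ≥0∞) :
    ∑ i ∈ range k, ∑' n, res (t i) (t (i+1)) x n ≤ ∑' n, x n := by
  rw [← Summable.tsum_finsetSum (fun i _ => ENNReal.summable)]
  refine ENNReal.tsum_le_tsum fun n => ?_
  -- at most one i
  by_cases hex : ∃ i ∈ range k, n ∈ Set.Ico (t i) (t (i+1))
  · obtain ⟨i, hi, hn⟩ := hex
    rw [Finset.sum_eq_single_of_mem i hi]
    · exact res_le _ _ _ _
    · intro j hj hji
      unfold res
      rw [Set.indicator_of_notMem]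
      intro hn'
      rcases lt_or_gt_of_ne hji with h | h
      · have := ht (show j + 1 ≤ i by omega)
        exact absurd (lt_of_lt_of_le hn'.2 this) (not_lt.2 hn.1)
      · have := ht (show i + 1 ≤ j by omega)
        exact absurd (lt_of_lt_of_le hn.2 this) (not_lt.2 hn'.1)
  · push Not at hex
    rw [Finset.sum_eq_zero]
    · exact bot_le
    · intro i hi
      unfold res
      rw [Set.indicator_of_notMem (hex i hi)]

lemma rhoN_le_tsum (m : ℕ) : ∀ x : ℕ → ℝ≥0∞, rhoN m x ≤ ∑' n, x n := by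
  induction m with
  | zero =>
    intro x
    simp only [rhoN]
    exact iSup_le fun n => ENNReal.le_tsum n
  | succ m ih =>
    intro x
    simp only [rhoN]
    refine max_le (ih x) (iSup_le fun p => ?_)
    calc 2⁻¹ * ∑ i ∈ range p.1.1, rhoN m (res (p.1.2 i) (p.1.2 (i+1)) x)
        ≤ 1 * ∑ i ∈ range p.1.1, ∑' n, res (p.1.2 i) (p.1.2 (i+1)) x n := by
          gcongr with i hi
          · norm_num
          · exact ih _
      _ ≤ ∑' n, x n := by
          rw [one_mul]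
          exact sum_tsum_res_le _ _ p.2.1 _

lemma rho_le_tsum (x : ℕ → ℝ≥0∞) : rho x ≤ ∑' n, x n := iSup_le fun m => rhoN_le_tsum m x

/-! ### tau -/

lemma pair_add (z a b : ℕ → ℝ≥0∞) : pair z (a + b) = pair z a + pair z b := by
  unfold pair
  rw [← ENNReal.tsum_add]
  refine tsum_congr fun n => ?_
  simp [mul_add]

lemma pair_add_left (z w a : ℕ → ℝ≥0∞) : pair (z + w) a = pair z a + pair w a := by
  unfold pair
  rw [← ENNReal.tsum_add]
  refine tsum_congr fun n => ?_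
  simp [add_mul]

lemma pair_smul (c : ℝ≥0∞) (z a : ℕ → ℝ≥0∞) : pair z (c • a) = c * pair z a := by
  unfold pair
  rw [← ENNReal.tsum_mul_left]
  refine tsum_congr fun n => ?_
  simp only [Pi.smul_apply, smul_eq_mul]
  ring

lemma pair_smul_left (c : ℝ≥0∞) (z a : ℕ → ℝ≥0∞) : pair (c • z) a = c * pair z a := by
  unfold pair
  rw [← ENNReal.tsum_mul_left]
  refine tsum_congr fun n => ?_
  simp only [Pi.smul_apply, smul_eq_mul]
  ring

lemma pair_mono {z w a b : ℕ → ℝ≥0∞} (h1 : z ≤ w) (h2 : a ≤ b) : pair z a ≤ pair w b :=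
  ENNReal.tsum_le_tsum fun n => mul_le_mul' (h1 n) (h2 n)

lemma pair_res (s t : ℕ) (z a : ℕ → ℝ≥0∞) : pair (res s t z) a = pair z (res s t a) := by
  unfold pair res
  refine tsum_congr fun n => ?_
  by_cases hn : n ∈ Set.Ico s t <;> simp [hn]

lemma pair_res' (s t : ℕ) (z a : ℕ → ℝ≥0∞) :
    pair z (res s t a) = pair (res s t z) (res s t a) := by
  unfold pair res
  refine tsum_congr fun n => ?_
  by_cases hn : n ∈ Set.Ico s t <;> simp [hn]

lemma tau_mono {a b : ℕ → ℝ≥0∞} (h : a ≤ b) : tau a ≤ tau b :=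
  iSup_mono fun _ => pair_mono le_rfl h

lemma tau_add (a b : ℕ → ℝ≥0∞) : tau (a + b) ≤ tau a + tau b := by
  refine iSup_le fun z => ?_
  rw [pair_add]
  exact add_le_add (le_iSup (fun z : {z : ℕ → ℝ≥0∞ // rho z ≤ 1} => pair z.1 a) z)
    (le_iSup (fun z : {z : ℕ → ℝ≥0∞ // rho z ≤ 1} => pair z.1 b) z)

lemma tau_smul (c : ℝ≥0∞) (a : ℕ → ℝ≥0∞) : tau (c • a) = c * tau a := by
  unfold tau
  rw [ENNReal.mul_iSup]
  exact iSup_congr fun z => pair_smul c z.1 a

lemma pair_le_tau {z : ℕ → ℝ≥0∞} (hz : rho z ≤ 1) (a : ℕ → ℝ≥0∞) : pair z a ≤ tau a :=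
  le_iSup (fun z : {z : ℕ → ℝ≥0∞ // rho z ≤ 1} => pair z.1 a) ⟨z, hz⟩

/-- Hölder -/
lemma pair_le (z a : ℕ → ℝ≥0∞) (hz : rho z ≠ ∞) : pair z a ≤ rho z * tau a := by
  by_cases h0 : rho z = 0
  · have hz0 : z = 0 := by
      funext n
      have := le_rho z n
      rw [h0] at this
      exact le_antisymm this bot_le
    rw [hz0]
    unfold pair
    simp
  · have h1 : rho ((rho z)⁻¹ • z) ≤ 1 := by
      rw [rho_smul, ENNReal.inv_mul_cancel h0 hz]
    have h2 := pair_le_tau h1 a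
    rw [pair_smul_left] at h2
    calc pair z a = rho z * ((rho z)⁻¹ * pair z a) := by
          rw [← mul_assoc, ENNReal.mul_inv_cancel h0 hz, one_mul]
      _ ≤ rho z * tau a := by gcongr

lemma le_tau (a : ℕ → ℝ≥0∞) (n : ℕ) : a n ≤ tau a := by
  have h1 : rho (Pi.single n 1 : ℕ → ℝ≥0∞) ≤ 1 := by
    refine (rho_le_tsum _).trans ?_
    rw [tsum_eq_single n]
    · simp
    · intro m hm
      simp [hm]
  refine le_trans ?_ (pair_le_tau h1 a)
  unfold pair
  refine le_trans ?_ (ENNReal.le_tsum n)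
  simp

lemma tau_le_tsum (a : ℕ → ℝ≥0∞) : tau a ≤ ∑' n, a n := by
  refine iSup_le fun z => ?_
  refine ENNReal.tsum_le_tsum fun n => ?_
  calc z.1 n * a n ≤ 1 * a n := by
        gcongr
        exact (le_rho z.1 n).trans z.2
    _ = a n := one_mul _

/-- (T2) asymptotic `c_0` -/
lemma tau_sum_le (k : ℕ) (t : ℕ → ℕ) (ht : Monotone t) (hk : k ≤ t 0) (a : ℕ → ℕ → ℝ≥0∞)
    (B : ℝ≥0∞) (hB : ∀ i < k, tau (a i) ≤ B) :
    tau (∑ i ∈ range k, res (t i) (t (i+1)) (a i)) ≤ 2 * B := by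
  refine iSup_le fun z => ?_
  have hz : rho z.1 ≠ ∞ := ne_top_of_le_ne_top ENNReal.one_ne_top z.2
  have h1 : pair z.1 (∑ i ∈ range k, res (t i) (t (i+1)) (a i))
      = ∑ i ∈ range k, pair z.1 (res (t i) (t (i+1)) (a i)) := by
    induction k with
    | zero => simp [pair]
    | succ k ih =>
      rw [sum_range_succ, sum_range_succ, pair_add, ih (by omega) (fun i hi => hB i (by omega))]
  rw [h1]
  calc ∑ i ∈ range k, pair z.1 (res (t i) (t (i+1)) (a i))
      ≤ ∑ i ∈ range k, rho (res (t i) (t (i+1)) z.1) * B := by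
        refine sum_le_sum fun i hi => ?_
        rw [← pair_res]
        have h2 : rho (res (t i) (t (i+1)) z.1) ≠ ∞ :=
          ne_top_of_le_ne_top hz (rho_mono (res_le _ _ _))
        refine (pair_le _ _ h2).trans ?_
        gcongr
        exact hB i (by simpa using hi)
    _ = (∑ i ∈ range k, rho (res (t i) (t (i+1)) z.1)) * B := by rw [sum_mul]
    _ ≤ (2 * rho z.1) * B := by
        gcongr
        exact sum_rho_le _ _ _ ht hk
    _ ≤ (2 * 1) * B := by
        gcongr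
        exact z.2
    _ = 2 * B := by ring

end Pool.Agent.H794R2.Tsi
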