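import Pool.Agent.H794R2.Tsi

/-!
Order continuity of the dual Tsirelson norm `tau`.
-/
set_option autoImplicit false
open scoped ENNReal
open Finset

namespace Pool.Agent.H794R2.Tsi

/-- the tail -/
noncomputable def tail (N : ℕ) (a : ℕ → ℝ≥0∞) : ℕ → ℝ≥0∞ := (Set.Ici N).indicator a

lemma tail_le (N : ℕ) (a : ℕ → ℝ≥0∞) : tail N a ≤ a := by
  intro n
  unfold tail
  exact Set.indicator_le_self _ _ _

lemma tail_anti {N M : ℕ} (h : N ≤ M) (a : ℕ → ℝ≥0∞) : tail M a ≤ tail N a := by
  intro n
  unfold tail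
  exact Set.indicator_le_indicator_of_subset (Set.Ici_subset_Ici.2 h) (fun _ => bot_le) n

lemma tail_mono {N : ℕ} {a b : ℕ → ℝ≥0∞} (h : a ≤ b) : tail N a ≤ tail N b := by
  intro n
  unfold tail
  exact Set.indicator_le_indicator (h n)

lemma count1 (k : ℕ) (t : ℕ → ℕ) (ht : Monotone t) (a : ℕ) :
    ∑ i ∈ range k, (if t i ≤ a ∧ a < t (i+1) then (1:ℝ≥0∞) else 0) ≤ 1 := by
  by_cases hex : ∃ i ∈ range k, t i ≤ a ∧ a < t (i+1)
  · obtain ⟨i, hi, hn⟩ := hex
    rw [Finset.sum_eq_single_of_mem i hi]
    · split_ifs <;> simp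
    · intro j hj hji
      rw [if_neg]
      intro hn'
      rcases lt_or_gt_of_ne hji with h | h
      · have := ht (show j + 1 ≤ i by omega)
        omega
      · have := ht (show i + 1 ≤ j by omega)
        omega
  · push Not at hex
    rw [Finset.sum_eq_zero]
    · exact bot_le
    · intro i hi
      rw [if_neg]
      intro h
      exact absurd (hex i hi h.1) (not_le.2 h.2)

lemma res_eq_zero {a b : ℕ} {x : ℕ → ℝ≥0∞} {c d : ℕ} (hx : res c d x = x)
    (h : b ≤ c ∨ d ≤ a ∨ b ≤ a) : res a b x = 0 := by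
  funext n
  unfold res
  by_cases hn : n ∈ Set.Ico a b
  · rw [Set.indicator_of_mem hn]
    rw [← hx]
    unfold res
    rw [Set.indicator_of_notMem]
    · rfl
    · intro hn'
      have h1 := hn.1
      have h2 := hn.2
      have h3 := hn'.1
      have h4 := hn'.2
      omega
  · rw [Set.indicator_of_notMem hn]
    rfl

lemma rho_zero : rho 0 = 0 := by
  have := rho_le_tsum 0
  simpa using this

lemma sum_block (k : ℕ) (t : ℕ → ℕ) (z : ℕ → ℝ≥0∞) (hz : rho z ≤ 1) (a b : ℕ)
    (hab : res a b z = z) :
    ∑ i ∈ range k, rho (res (t i) (t (i+1)) z) ≤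
      ∑ i ∈ range k, ((if t i ≤ a ∧ a < t (i+1) then (1:ℝ≥0∞) else 0) +
        (if a ≤ t i ∧ t i < b then (1:ℝ≥0∞) else 0)) := by
  refine sum_le_sum fun i _ => ?_
  by_cases h1 : t i ≤ a ∧ a < t (i+1)
  · rw [if_pos h1]
    exact (rho_mono (res_le _ _ _)).trans (hz.trans le_self_add)
  · by_cases h2 : a ≤ t i ∧ t i < b
    · rw [if_pos h2]
      exact (rho_mono (res_le _ _ _)).trans (hz.trans le_add_self)
    · rw [if_neg h1, if_neg h2]
      have : res (t i) (t (i+1)) z = 0 := by
        refine res_eq_zero hab ?_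
        omega
      rw [this, rho_zero, add_zero]

/-- finite-support near-norming vectors in the tails -/
lemma exists_block (a : ℕ → ℝ≥0∞) (c : ℝ≥0∞) (M : ℕ) (h : c < tau (tail M a)) :
    ∃ M' : ℕ, M < M' ∧ ∃ z : ℕ → ℝ≥0∞, rho z ≤ 1 ∧ res M M' z = z ∧ c < pair z a := by
  unfold tau at h
  rw [lt_iSup_iff] at h
  obtain ⟨z, hz⟩ := h
  have h1 : pair z.1 (tail M a) = ⨆ N : ℕ, ∑ n ∈ range N, z.1 n * tail M a n := by
    unfold pair
    exact ENNReal.tsum_eq_iSup_nat
  rw [h1, lt_iSup_iff] at hz
  obtain ⟨N, hN⟩ := hz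
  refine ⟨max N (M+1), by simp, res M (max N (M+1)) z.1, ?_, ?_, ?_⟩
  · exact (rho_mono (res_le _ _ _)).trans z.2
  · unfold res
    simp
  · refine lt_of_lt_of_le hN ?_
    unfold pair
    refine le_trans ?_ (ENNReal.sum_le_tsum (range N))
    refine sum_le_sum fun n hn => ?_
    unfold res tail
    by_cases h2 : M ≤ n
    · rw [Set.indicator_of_mem (show n ∈ Set.Ici M from h2), Set.indicator_of_mem]
      refine ⟨h2, ?_⟩
      rw [mem_range] at hn
      exact lt_of_lt_of_le hn (le_max_left _ _)
    · rw [Set.indicator_of_notMem (show n ∉ Set.Ici M from h2)]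
      simp

/-- (T3): order continuity -/
theorem tau_tail (a : ℕ → ℝ≥0∞) (ha : tau a ≠ ∞) (ε : ℝ≥0∞) (hε : 0 < ε) :
    ∃ N, tau (tail N a) ≤ ε := by
  by_contra hcon
  push Not at hcon
  set D : ℝ≥0∞ := ⨅ N, tau (tail N a) with hD
  have hD0 : ε ≤ D := le_iInf fun N => (hcon N).le
  have hD1 : 0 < D := lt_of_lt_of_le hε hD0
  have hDN : ∀ N, D ≤ tau (tail N a) := fun N => iInf_le _ N
  have hDtop : D ≠ ∞ := ne_top_of_le_ne_top ha ((hDN 0).trans (tau_mono (tail_le _ _)))
  -- N0
  obtain ⟨N0, hN0⟩ : ∃ N0, tau (tail N0 a) < (11/10 : ℝ≥0∞) * D := by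
    have : D < (11/10 : ℝ≥0∞) * D := by
      have h1 : (1 : ℝ≥0∞) < 11/10 := by
        rw [ENNReal.lt_div_iff_mul_lt (by norm_num) (by norm_num)]
        norm_num
      calc D = 1 * D := (one_mul _).symm
        _ < _ := by
          exact ENNReal.mul_lt_mul_left hD1.ne' hDtop h1
    exact iInf_lt_iff.1 this
  have hsm : (9/10 : ℝ≥0∞) * D < D := by
    have h1 : (9/10 : ℝ≥0∞) < 1 := by
      rw [ENNReal.div_lt_iff (by norm_num) (by norm_num)]
      norm_num
    calc (9/10 : ℝ≥0∞) * D < 1 * D := ENNReal.mul_lt_mul_left hD1.ne' hDtop h1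
      _ = D := one_mul _
  have hblock : ∀ M : ℕ, ∃ M' : ℕ, M < M' ∧ ∃ z : ℕ → ℝ≥0∞, rho z ≤ 1 ∧ res M M' z = z ∧
      (9/10 : ℝ≥0∞) * D < pair z a := fun M =>
    exists_block a _ M (hsm.trans_le (hDN M))
  choose nx hnx zz hz1 hz2 hz3 using hblock
  let M : ℕ → ℕ := fun j => nx^[j] N0
  have hMs : ∀ j, M (j+1) = nx (M j) := fun j => Function.iterate_succ_apply' nx j N0
  have hM0 : M 0 = N0 := rfl
  have hMlt : ∀ j, M j < M (j+1) := fun j => by rw [hMs]; exact hnx _
  have hMmono : Monotone M := monotone_nat_of_le_succ fun j => (hMlt j).le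
  let z : ℕ → (ℕ → ℝ≥0∞) := fun j => zz (M j)
  have hzr : ∀ j, rho (z j) ≤ 1 := fun j => hz1 _
  have hzs : ∀ j, res (M j) (M (j+1)) (z j) = z j := fun j => by
    rw [hMs]; exact hz2 _
  have hzp : ∀ j, (9/10 : ℝ≥0∞) * D < pair (z j) a := fun j => hz3 _
  -- supports
  have hz0 : ∀ j n, n < M j → z j n = 0 := by
    intro j n hn
    rw [← hzs j]
    unfold res
    rw [Set.indicator_of_notMem]
    intro h
    exact absurd h.1 (not_le.2 hn)
  have hz0' : ∀ j n, M (j+1) ≤ n → z j n = 0 := by
    intro j n hn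
    rw [← hzs j]
    unfold res
    rw [Set.indicator_of_notMem]
    intro h
    exact absurd h.2 (not_lt.2 hn)
  let r : ℕ := 5 * (M 1 + 1)
  have hr0 : (r : ℝ≥0∞) ≠ 0 := by
    simp only [r]
    push_cast
    positivity
  have hrtop : (r : ℝ≥0∞) ≠ ∞ := ENNReal.natCast_ne_top r
  let y : ℕ → ℝ≥0∞ := (r : ℝ≥0∞)⁻¹ • ∑ j ∈ range r, z (j+1)
  -- rho of sums
  have hsumrho : ∀ (s : Finset ℕ) (w : ℕ → (ℕ → ℝ≥0∞)), rho (∑ j ∈ s, w j) ≤ ∑ j ∈ s, rho (w j) := by
    intro s w
    induction s using Finset.induction_on with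
    | empty => simp [rho_zero]
    | insert i s hi ih =>
      rw [sum_insert hi, sum_insert hi]
      exact (rho_add _ _).trans (by gcongr)
  have hry : rho y ≤ 1 := by
    simp only [y]
    rw [rho_smul]
    calc (r : ℝ≥0∞)⁻¹ * rho (∑ j ∈ range r, z (j+1)) ≤ (r : ℝ≥0∞)⁻¹ * ∑ j ∈ range r, 1 := by
          gcongr
          exact (hsumrho _ _).trans (sum_le_sum fun j _ => hzr _)
      _ = 1 := by
          simp only [sum_const, card_range, nsmul_eq_mul, mul_one]
          exact ENNReal.inv_mul_cancel hr0 hrtop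
  have hy0 : ∀ n, n < M 1 → y n = 0 := by
    intro n hn
    simp only [y, Pi.smul_apply, Finset.sum_apply, smul_eq_mul]
    rw [Finset.sum_eq_zero, mul_zero]
    intro j _
    exact hz0 _ _ (lt_of_lt_of_le hn (hMmono (by omega)))
  have hresy : ∀ s t, res s t y = (r : ℝ≥0∞)⁻¹ • ∑ j ∈ range r, res s t (z (j+1)) := by
    intro s t
    simp only [y]
    rw [res_smul]
    congr 1
    funext n
    unfold res
    by_cases hn : n ∈ Set.Ico s t <;> simp [hn]
  -- upper bound
  have hup : rho (z 0 + y) ≤ 8/5 := by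
    refine rho_le_of _ _ ?_ ?_
    · intro n
      have h85 : (1 : ℝ≥0∞) ≤ 8/5 := by
        rw [ENNReal.le_div_iff_mul_le (by norm_num) (by norm_num)]
        norm_num
      refine le_trans ?_ h85
      rcases lt_or_ge n (M 1) with h | h
      · rw [Pi.add_apply, hy0 n h, add_zero]
        exact (le_rho _ _).trans (hzr 0)
      · rw [Pi.add_apply, hz0' 0 n h, zero_add]
        exact (le_rho _ _).trans hry
    · intro k t ht hk
      have h165 : (2 : ℝ≥0∞) * (8/5) = 2 + (1 + 1/5) := by
        have h1 : (8/5 : ℝ≥0∞) = ENNReal.ofReal (8/5) := by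
          rw [ENNReal.ofReal_div_of_pos (by norm_num)]
          norm_num
        have h2 : (1/5 : ℝ≥0∞) = ENNReal.ofReal (1/5) := by
          rw [ENNReal.ofReal_div_of_pos (by norm_num)]
          norm_num
        have h3 : (1 : ℝ≥0∞) = ENNReal.ofReal 1 := by norm_num
        have h4 : (2 : ℝ≥0∞) = ENNReal.ofReal 2 := by norm_num
        rw [h1, h2, h3, h4, ← ENNReal.ofReal_mul (by norm_num), ← ENNReal.ofReal_add (by norm_num)
          (by norm_num), ← ENNReal.ofReal_add (by norm_num) (by norm_num)]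
        norm_num
      rw [h165]
      rcases le_or_gt (M 1) (t 0) with hc | hc
      · have h1 : ∀ i, res (t i) (t (i+1)) (z 0 + y) = res (t i) (t (i+1)) y := by
          intro i
          rw [res_add, res_eq_zero (hzs 0), zero_add]
          right; left
          exact hc.trans (ht (Nat.zero_le i))
        simp_rw [h1]
        calc _ ≤ 2 * rho y := sum_rho_le _ _ _ ht hk
          _ ≤ 2 * 1 := by gcongr
          _ ≤ _ := by
            rw [mul_one]
            exact le_self_add
      · calc ∑ i ∈ range k, rho (res (t i) (t (i+1)) (z 0 + y))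
            ≤ ∑ i ∈ range k, (rho (res (t i) (t (i+1)) (z 0)) + rho (res (t i) (t (i+1)) y)) := by
              refine sum_le_sum fun i _ => ?_
              rw [res_add]
              exact rho_add _ _
          _ = ∑ i ∈ range k, rho (res (t i) (t (i+1)) (z 0))
              + ∑ i ∈ range k, rho (res (t i) (t (i+1)) y) := sum_add_distrib
          _ ≤ 2 + (1 + 1/5) := by
              refine add_le_add ?_ ?_
              · calc _ ≤ 2 * rho (z 0) := sum_rho_le _ _ _ ht hk
                  _ ≤ 2 * 1 := by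
                    gcongr
                    exact hzr 0
                  _ = 2 := mul_one _
              · calc ∑ i ∈ range k, rho (res (t i) (t (i+1)) y)
                    ≤ ∑ i ∈ range k, (r : ℝ≥0∞)⁻¹ *
                        ∑ j ∈ range r, rho (res (t i) (t (i+1)) (z (j+1))) := by
                      refine sum_le_sum fun i _ => ?_
                      rw [hresy, rho_smul]
                      gcongr
                      exact hsumrho _ _
                  _ = (r : ℝ≥0∞)⁻¹ * ∑ j ∈ range r, ∑ i ∈ range k,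
                        rho (res (t i) (t (i+1)) (z (j+1))) := by
                      rw [← mul_sum, sum_comm]
                  _ ≤ (r : ℝ≥0∞)⁻¹ * ∑ j ∈ range r, ∑ i ∈ range k,
                      ((if t i ≤ M (j+1) ∧ M (j+1) < t (i+1) then (1:ℝ≥0∞) else 0) +
                      (if M (j+1) ≤ t i ∧ t i < M (j+1+1) then (1:ℝ≥0∞) else 0)) := by
                      refine mul_le_mul' le_rfl (sum_le_sum fun j _ => ?_)
                      exact sum_block k t _ (hzr _) _ _ (hzs _)
                  _ ≤ (r : ℝ≥0∞)⁻¹ * ((r : ℝ≥0∞) + k) := by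
                      gcongr
                      simp_rw [sum_add_distrib]
                      refine add_le_add ?_ ?_
                      · calc _ ≤ ∑ j ∈ range r, (1 : ℝ≥0∞) :=
                              sum_le_sum fun j _ => count1 k t ht _
                          _ = r := by simp
                      · rw [sum_comm]
                        calc _ ≤ ∑ i ∈ range k, (1 : ℝ≥0∞) :=
                              sum_le_sum fun i _ => count1 r (fun j => M (j+1))
                                (fun a b hab => hMmono (by omega)) (t i)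
                          _ = k := by simp
                  _ ≤ 1 + 1/5 := by
                      rw [mul_add, ENNReal.inv_mul_cancel hr0 hrtop]
                      gcongr
                      have hkM : k ≤ M 1 := by omega
                      have h5 : (r : ℝ≥0∞) = 5 * ((M 1 : ℝ≥0∞) + 1) := by
                        simp only [r]
                        push_cast
                        ring
                      rw [ENNReal.le_div_iff_mul_le (by norm_num) (by norm_num), mul_comm,
                        ← mul_assoc, mul_comm _ (r : ℝ≥0∞)⁻¹, mul_assoc]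
                      calc (r : ℝ≥0∞)⁻¹ * (5 * (k : ℝ≥0∞)) ≤ (r : ℝ≥0∞)⁻¹ * r := by
                            gcongr
                            rw [h5]
                            gcongr
                            exact_mod_cast (by omega : k ≤ M 1 + 1)
                        _ = 1 := ENNReal.inv_mul_cancel hr0 hrtop
  -- lower bound
  have hpairy : (9/10 : ℝ≥0∞) * D ≤ pair y a := by
    have h1 : pair y a = (r : ℝ≥0∞)⁻¹ * ∑ j ∈ range r, pair (z (j+1)) a := by
      simp only [y]
      rw [pair_smul_left]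
      congr 1
      generalize r = q
      induction q with
      | zero => simp [pair]
      | succ q ih => rw [sum_range_succ, sum_range_succ, pair_add_left, ih]
    rw [h1]
    calc (9/10 : ℝ≥0∞) * D = (r : ℝ≥0∞)⁻¹ * ∑ j ∈ range r, ((9/10 : ℝ≥0∞) * D) := by
          simp only [sum_const, card_range, nsmul_eq_mul]
          rw [← mul_assoc ((r : ℝ≥0∞)⁻¹), ENNReal.inv_mul_cancel hr0 hrtop, one_mul]
      _ ≤ _ := by
          gcongr with j hj
          exact (hzp _).le
  have htl : pair (z 0 + y) a = pair (z 0 + y) (tail N0 a) := by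
    unfold pair tail
    refine tsum_congr fun n => ?_
    rcases lt_or_ge n N0 with h | h
    · have h1 : (z 0 + y) n = 0 := by
        rw [Pi.add_apply, hz0 0 n h, hy0 n (lt_of_lt_of_le h (hMlt 0).le), add_zero]
      rw [h1, zero_mul, zero_mul]
    · rw [Set.indicator_of_mem (show n ∈ Set.Ici N0 from h)]
  have hlow : (18/10 : ℝ≥0∞) * D ≤ (8/5) * ((11/10) * D) := by
    calc (18/10 : ℝ≥0∞) * D = (9/10 : ℝ≥0∞) * D + (9/10 : ℝ≥0∞) * D := by
          rw [← add_mul, ENNReal.div_add_div_same]
          norm_num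
      _ ≤ pair (z 0) a + pair y a := add_le_add (hzp 0).le hpairy
      _ = pair (z 0 + y) a := (pair_add_left _ _ _).symm
      _ = pair (z 0 + y) (tail N0 a) := htl
      _ ≤ rho (z 0 + y) * tau (tail N0 a) := pair_le _ _ (ne_top_of_le_ne_top (by
            exact ENNReal.div_ne_top (by norm_num) (by norm_num)) hup)
      _ ≤ (8/5) * ((11/10) * D) := by
          gcongr
  have hfin : (8/5 : ℝ≥0∞) * ((11/10) * D) < (18/10 : ℝ≥0∞) * D := by
    rw [← mul_assoc]
    refine ENNReal.mul_lt_mul_left hD1.ne' hDtop ?_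
    have h1 : (8/5 : ℝ≥0∞) = ENNReal.ofReal (8/5) := by
      rw [ENNReal.ofReal_div_of_pos (by norm_num)]
      norm_num
    have h2 : (11/10 : ℝ≥0∞) = ENNReal.ofReal (11/10) := by
      rw [ENNReal.ofReal_div_of_pos (by norm_num)]
      norm_num
    have h3 : (18/10 : ℝ≥0∞) = ENNReal.ofReal (18/10) := by
      rw [ENNReal.ofReal_div_of_pos (by norm_num)]
      norm_num
    rw [h1, h2, h3, ← ENNReal.ofReal_mul (by norm_num)]
    rw [ENNReal.ofReal_lt_ofReal_iff (by norm_num)]
    norm_num
  exact absurd hlow (not_le.2 hfin)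

end Pool.Agent.H794R2.Tsi
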