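import Pool.Agent.H794R2.XRefl

set_option autoImplicit false
open scoped ENNReal ZeroAtInfty
open Finset

namespace Pool.Agent.H794R2.Tsi

variable {Γ : Type}

lemma norm_PP_compl_tendsto (x : XT Γ) (ε : ℝ) (hε : 0 < ε) :
    ∃ F : Finset Γ, ∀ G : Finset Γ, F ⊆ G → ‖x - PP (G : Set Γ) x‖ ≤ ε := by
  obtain ⟨F, hF⟩ := conv' x ε hε
  refine ⟨F, fun G hG => ?_⟩
  have h1 : x - PP (G : Set Γ) x = PP (G : Set Γ)ᶜ x := by
    rw [sub_eq_iff_eq_add]
    conv_lhs => rw [← PP_add_compl (G : Set Γ) x]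
    abel
  rw [h1]
  exact hF G hG

/-- shrinking -/
lemma shrinking (f : XT Γ →L[ℝ] ℝ) (ε : ℝ) (hε : 0 < ε) :
    ∃ F : Finset Γ, ∀ x : XT Γ, (∀ γ ∈ F, vv x γ = 0) → |f x| ≤ ε * ‖x‖ := by
  classical
  by_contra hcon
  push Not at hcon
  -- step: finitely supported, disjoint from F, norm ≤ 1, f > ε
  have step : ∀ F : Finset Γ, ∃ (x : XT Γ) (G : Finset Γ), ‖x‖ ≤ 1 ∧ ε < f x ∧
      (∀ γ ∈ F, vv x γ = 0) ∧ (∀ γ, γ ∉ G → vv x γ = 0) := by
    intro F
    obtain ⟨x, hx1, hx2⟩ := hcon F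
    have hx0 : 0 < ‖x‖ := by
      rcases (norm_nonneg x).eq_or_lt with h | h
      · rw [← h] at hx2
        have : x = 0 := norm_eq_zero.1 h.symm
        rw [this] at hx2
        simp at hx2
      · exact h
    -- normalise
    obtain ⟨z, hz1, hz2, hz3⟩ : ∃ z : XT Γ, ‖z‖ ≤ 1 ∧ ε < f z ∧ ∀ γ ∈ F, vv z γ = 0 := by
      rcases le_or_gt 0 (f x) with h | h
      · refine ⟨‖x‖⁻¹ • x, ?_, ?_, ?_⟩
        · rw [norm_smul, norm_inv, norm_norm, inv_mul_cancel₀ hx0.ne']
        · rw [map_smul, smul_eq_mul]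
          rw [abs_of_nonneg h] at hx2
          rw [inv_mul_eq_div, lt_div_iff₀ hx0]
          exact hx2
        · intro γ hγ
          rw [map_smul, Pi.smul_apply, hx1 γ hγ, smul_zero]
      · refine ⟨(-‖x‖⁻¹) • x, ?_, ?_, ?_⟩
        · rw [norm_smul, norm_neg, norm_inv, norm_norm, inv_mul_cancel₀ hx0.ne']
        · rw [map_smul, smul_eq_mul]
          rw [abs_of_neg h] at hx2
          rw [neg_mul, ← mul_neg, inv_mul_eq_div, lt_div_iff₀ hx0]
          exact hx2
        · intro γ hγ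
          rw [map_smul, Pi.smul_apply, hx1 γ hγ, smul_zero]
    have hgap : 0 < f z - ε := by linarith
    obtain ⟨G, hG⟩ := norm_PP_compl_tendsto z ((f z - ε) / (2 * (‖f‖ + 1))) (by positivity)
    refine ⟨PP (G : Set Γ) z, G, (norm_PP_le _ _).trans hz1, ?_, ?_, ?_⟩
    · have h1 := hG G subset_rfl
      have h2 : f z - f (PP (G : Set Γ) z) ≤ ‖f‖ * ((f z - ε) / (2 * (‖f‖ + 1))) := by
        rw [← map_sub]
        refine (le_abs_self _).trans ((f.le_opNorm _).trans ?_)
        gcongr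
      have h3 : ‖f‖ * ((f z - ε) / (2 * (‖f‖ + 1))) ≤ (f z - ε) / 2 := by
        have hp : 0 < ‖f‖ + 1 := by positivity
        rw [mul_div_assoc', div_le_div_iff₀ (by positivity) (by norm_num)]
        nlinarith [norm_nonneg f]
      linarith
    · intro γ hγ
      rw [vv_PP]
      by_cases h : γ ∈ (G : Set Γ)
      · rw [Set.indicator_of_mem h, hz3 γ hγ]
      · rw [Set.indicator_of_notMem h]
    · intro γ hγ
      rw [vv_PP, Set.indicator_of_notMem (by simpa using hγ)]
  -- sums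
  have sums : ∀ L : ℕ, ∃ (x : XT Γ) (G : Finset Γ), ‖x‖ ≤ L ∧ L * ε ≤ f x ∧
      (∀ γ, |vv x γ| ≤ 1) ∧ (∀ γ, γ ∉ G → vv x γ = 0) := by
    intro L
    induction L with
    | zero => exact ⟨0, ∅, by simp, by simp, by simp, by simp⟩
    | succ L ih =>
      obtain ⟨x, G, h1, h2, h3, h4⟩ := ih
      obtain ⟨x', G', h1', h2', h3', h4'⟩ := step G
      refine ⟨x + x', G ∪ G', ?_, ?_, ?_, ?_⟩
      · refine (norm_add_le _ _).trans ?_
        push_cast
        linarith
      · rw [map_add]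
        push_cast
        linarith
      · intro γ
        rw [map_add, Pi.add_apply]
        by_cases h : γ ∈ G
        · rw [h3' γ h, add_zero]
          exact h3 γ
        · rw [h4 γ h, zero_add]
          exact (abs_coord_le x' γ).trans h1'
      · intro γ hγ
        rw [mem_union, not_or] at hγ
        rw [map_add, Pi.add_apply, h4 γ hγ.1, h4' γ hγ.2, add_zero]
  have hS : ∀ δ : ℝ, 0 < δ → ∃ y ∈ {y : XT Γ | ε ≤ f y}, ‖y‖ ≤ 1 ∧ ∀ γ, |vv y γ| ≤ δ := by
    intro δ hδ
    obtain ⟨L, hL⟩ := exists_nat_gt (1/δ)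
    have hL0 : (0:ℝ) < L := lt_trans (by positivity) hL
    obtain ⟨x, G, h1, h2, h3, h4⟩ := sums L
    refine ⟨(L:ℝ)⁻¹ • x, ?_, ?_, ?_⟩
    · change ε ≤ f ((L:ℝ)⁻¹ • x)
      rw [map_smul, smul_eq_mul, inv_mul_eq_div, le_div_iff₀ hL0]
      linarith
    · rw [norm_smul, norm_inv, Real.norm_of_nonneg hL0.le, inv_mul_eq_div, div_le_one hL0]
      exact h1
    · intro γ
      rw [map_smul, Pi.smul_apply, smul_eq_mul, abs_mul, abs_of_pos (inv_pos.2 hL0)]
      rw [div_lt_iff₀ hδ] at hL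
      rw [inv_mul_eq_div, div_le_iff₀ hL0]
      have := h3 γ
      linarith
  obtain ⟨J, hJ⟩ := exists_nat_gt (4 * ‖f‖ / ε)
  have hJ' : 4 * ‖f‖ < J * ε := by rwa [div_lt_iff₀ hε] at hJ
  obtain ⟨y, t, ht, hJt, hy⟩ := gliding {y : XT Γ | ε ≤ f y} hS J (1 / (J + 1)) (by positivity)
  have hup := upper J (1 / (J + 1)) (by positivity) y t ht hJt (fun i => (hy i).2) (fun _ => 1) 1
    zero_le_one (fun i _ => by simp)
  have h1 : (J : ℝ) * (1 / (J + 1)) ≤ 1 := by
    rw [mul_one_div, div_le_one (by positivity)]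
    linarith
  have h2 : (J : ℝ) * ε ≤ f (∑ i ∈ range J, (fun _ => (1:ℝ)) i • y i) := by
    rw [map_sum]
    simp only [one_smul]
    calc (J : ℝ) * ε = ∑ i ∈ range J, ε := by simp
      _ ≤ _ := sum_le_sum fun i _ => (hy i).1
  have h3 := (le_abs_self _).trans (f.le_opNorm (∑ i ∈ range J, (fun _ => (1:ℝ)) i • y i))
  have h4 : ‖f‖ * ‖∑ i ∈ range J, (fun _ => (1:ℝ)) i • y i‖ ≤ ‖f‖ * 4 := by
    refine mul_le_mul_of_nonneg_left ?_ (norm_nonneg _)
    linarith
  linarith

/-- reflexivity -/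
theorem reflexive (φ : (XT Γ →L[ℝ] ℝ) →L[ℝ] ℝ) : ∃ x : XT Γ, ∀ f : XT Γ →L[ℝ] ℝ, φ f = f x := by
  classical
  let x : Γ → ℝ := fun γ => φ (cc γ)
  -- finite parts
  have hfin : ∀ F : Finset Γ, ‖∑ γ ∈ F, x γ • (ee γ : XT Γ)‖ ≤ ‖φ‖ := by
    intro F
    rcases eq_or_ne (∑ γ ∈ F, x γ • (ee γ : XT Γ)) 0 with h0 | h0
    · rw [h0, norm_zero]
      exact norm_nonneg φ
    obtain ⟨g, hg1, hg2⟩ := exists_dual_vector ℝ (∑ γ ∈ F, x γ • (ee γ : XT Γ))
      (norm_ne_zero_iff.2 h0)
    have h1 : g (∑ γ ∈ F, x γ • (ee γ : XT Γ)) = φ (∑ γ ∈ F, g (ee γ) • cc γ) := by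
      rw [map_sum, map_sum]
      refine sum_congr rfl fun γ _ => ?_
      rw [map_smul, map_smul, smul_eq_mul, smul_eq_mul, mul_comm]
    have h2 : ‖∑ γ ∈ F, g (ee γ) • cc (Γ := Γ) γ‖ ≤ 1 := by
      refine ContinuousLinearMap.opNorm_le_bound _ zero_le_one fun z => ?_
      have h3 : (∑ γ ∈ F, g (ee γ) • cc (Γ := Γ) γ) z = g (PP (F : Set Γ) z) := by
        rw [← sum_eq_PP, map_sum, _root_.sum_apply]
        refine sum_congr rfl fun γ _ => ?_
        rw [map_smul, _root_.smul_apply, cc_apply, smul_eq_mul, smul_eq_mul, mul_comm]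
      rw [h3]
      refine (g.le_opNorm _).trans ?_
      rw [hg1]
      gcongr
      exact norm_PP_le _ _
    have h4 : ‖∑ γ ∈ F, x γ • (ee γ : XT Γ)‖ = φ (∑ γ ∈ F, g (ee γ) • cc γ) := by
      rw [← h1, hg2]
      rfl
    rw [h4]
    refine (le_abs_self _).trans ((φ.le_opNorm _).trans ?_)
    calc ‖φ‖ * ‖∑ γ ∈ F, g (ee γ) • cc (Γ := Γ) γ‖ ≤ ‖φ‖ * 1 := by gcongr
      _ = ‖φ‖ := mul_one _
  -- x ∈ X
  have hxN : NN x ≤ ENNReal.ofReal ‖φ‖ := by
    have h1 : Filter.Tendsto (fun F : Finset Γ => (F : Set Γ).indicator x) Filter.atTop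
        (nhds x) := by
      rw [tendsto_pi_nhds]
      intro γ
      refine tendsto_const_nhds.congr' ?_
      filter_upwards [Filter.eventually_ge_atTop ({γ} : Finset Γ)] with F hF
      rw [Set.indicator_of_mem]
      simpa using hF
    refine (isClosed_le (ENNReal.ofReal ‖φ‖)).mem_of_tendsto h1 (Filter.Eventually.of_forall ?_)
    intro F
    have h2 := (NN_le_iff _ _ (norm_nonneg φ)).2 (hfin F)
    have h3 : vv (∑ γ ∈ F, x γ • (ee γ : XT Γ)) = (F : Set Γ).indicator x := by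
      funext δ
      exact vv_sum F x δ
    rw [h3] at h2
    exact h2
  let X0 : XT Γ := mk x (ne_top_of_le_ne_top ENNReal.ofReal_ne_top hxN)
  have hX0 : ∀ γ, vv X0 γ = φ (cc γ) := fun γ => rfl
  refine ⟨X0, fun f => ?_⟩
  refine eq_of_forall_dist_le fun ε hε => ?_
  rw [Real.dist_eq]
  set ε' : ℝ := ε / (‖φ‖ + ‖X0‖ + 1) with hε'
  have hp : 0 < ‖φ‖ + ‖X0‖ + 1 := by positivity
  have hε'0 : 0 < ε' := by positivity
  obtain ⟨F, hF⟩ := shrinking f ε' hε'0
  -- f restricted to F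
  have h1 : φ (∑ γ ∈ F, f (ee γ) • cc γ) = f (PP (F : Set Γ) X0) := by
    rw [← sum_eq_PP, map_sum, map_sum]
    refine sum_congr rfl fun γ _ => ?_
    rw [map_smul, map_smul, smul_eq_mul, smul_eq_mul, mul_comm, hX0]
  have h2 : ∀ z : XT Γ, |f (z - PP (F : Set Γ) z)| ≤ ε' * ‖z‖ := by
    intro z
    have h3 := hF (z - PP (F : Set Γ) z) (by
      intro γ hγ
      rw [map_sub, vv_PP, Pi.sub_apply, Set.indicator_of_mem (by simpa using hγ), sub_self])
    refine h3.trans ?_
    gcongr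
    refine norm_mono fun γ => ?_
    rw [map_sub, vv_PP, Pi.sub_apply]
    by_cases h : γ ∈ (F : Set Γ)
    · rw [Set.indicator_of_mem h]
      simp
    · rw [Set.indicator_of_notMem h]
      simp
  have h4 : ‖f - ∑ γ ∈ F, f (ee γ) • cc γ‖ ≤ ε' := by
    refine ContinuousLinearMap.opNorm_le_bound _ hε'0.le fun z => ?_
    have h5 : (f - ∑ γ ∈ F, f (ee γ) • cc γ) z = f (z - PP (F : Set Γ) z) := by
      rw [map_sub, ← sum_eq_PP, map_sum, _root_.sub_apply,
        _root_.sum_apply]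
      congr 1
      refine sum_congr rfl fun γ _ => ?_
      rw [map_smul, _root_.smul_apply, cc_apply, smul_eq_mul, smul_eq_mul, mul_comm]
    rw [h5]
    exact h2 z
  calc |φ f - f X0| = |φ (f - ∑ γ ∈ F, f (ee γ) • cc γ) - f (X0 - PP (F : Set Γ) X0)| := by
        rw [map_sub, h1, map_sub]
        congr 1
        ring
    _ ≤ |φ (f - ∑ γ ∈ F, f (ee γ) • cc γ)| + |f (X0 - PP (F : Set Γ) X0)| := abs_sub _ _
    _ ≤ ‖φ‖ * ε' + ε' * ‖X0‖ := by
        refine add_le_add ?_ (h2 X0)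
        refine (φ.le_opNorm _).trans ?_
        gcongr
    _ ≤ ε := by
        have : ε' * (‖φ‖ + ‖X0‖ + 1) = ε := by
          rw [hε']
          field_simp
        nlinarith

/-- vectors of norm one and small sup norm in infinite-dimensional subspaces -/
lemma flat (Y : Submodule ℝ (XT Γ)) (hY : ¬ FiniteDimensional ℝ Y) (δ : ℝ) (hδ : 0 < δ) :
    ∃ y ∈ Y, ‖y‖ = 1 ∧ ∀ γ, |vv y γ| ≤ δ := by
  classical
  by_contra hcon
  push Not at hcon
  have h1 : ∀ y ∈ Y, ∀ B : ℝ, (∀ γ, |vv y γ| ≤ B) → δ * ‖y‖ ≤ B := by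
    intro y hy B hB
    rcases eq_or_ne y 0 with h0 | h0
    · subst h0
      rw [norm_zero, mul_zero]
      by_contra hneg
      push Not at hneg
      have hG : IsEmpty Γ := ⟨fun γ => by
        have := hB γ
        have := abs_nonneg (vv (0 : XT Γ) γ)
        linarith⟩
      refine hY ?_
      have : Subsingleton (XT Γ) := ⟨fun a b => vv_inj (funext fun γ => (hG.false γ).elim)⟩
      infer_instance
    · have hn : 0 < ‖y‖ := norm_pos_iff.2 h0
      obtain ⟨γ, hγ⟩ := hcon (‖y‖⁻¹ • y) (Y.smul_mem _ hy) (by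
        rw [norm_smul, norm_inv, norm_norm, inv_mul_cancel₀ hn.ne'])
      rw [map_smul, Pi.smul_apply, smul_eq_mul, abs_mul, abs_of_pos (inv_pos.2 hn),
        inv_mul_eq_div, lt_div_iff₀ hn] at hγ
      exact hγ.le.trans (hB γ)
  -- many large coordinates
  have key : ∀ N : ℕ, ∀ ε : ℝ, 0 < ε → ∃ (y : XT Γ) (F : Finset Γ), y ∈ Y ∧ F.card = N ∧
      (∀ γ ∈ F, 1 - ε ≤ |vv y γ|) ∧ ∀ γ, |vv y γ| ≤ 1 + ε := by
    intro N
    induction N with
    | zero =>
      intro ε hε
      refine ⟨0, ∅, Y.zero_mem, rfl, by simp, ?_⟩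
      intro γ
      rw [map_zero, Pi.zero_apply, abs_zero]
      positivity
    | succ N ih =>
      intro ε hε
      obtain ⟨y, F, hyY, hFN, hF, hy⟩ := ih (ε/2) (by positivity)
      have hfl := finite_large (vv y) (NN_vv_ne_top y) (ε/2) (by positivity)
      set G : Finset Γ := hfl.toFinset ∪ F with hG
      have hGout : ∀ γ, γ ∉ G → |vv y γ| ≤ ε/2 := by
        intro γ hγ
        by_contra h
        push Not at h
        refine hγ (mem_union_left _ ?_)
        simpa using h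
      -- a nonzero vector of Y vanishing on G
      obtain ⟨u, huY, hu0, huG⟩ : ∃ u ∈ Y, u ≠ 0 ∧ ∀ γ ∈ G, vv u γ = 0 := by
        by_contra hno
        push Not at hno
        refine hY ?_
        let L : Y →ₗ[ℝ] (G → ℝ) :=
          { toFun := fun u γ => vv (u : XT Γ) γ
            map_add' := fun u w => by
              funext γ
              simp
            map_smul' := fun c u => by
              funext γ
              simp }
        have hinj : Function.Injective L := by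
          rw [← LinearMap.ker_eq_bot, LinearMap.ker_eq_bot']
          intro u hu
          by_contra hne
          obtain ⟨γ, hγ, hγ2⟩ := hno u u.2 (by simpa using hne)
          exact hγ2 (congrFun hu ⟨γ, hγ⟩)
        exact FiniteDimensional.of_injective L hinj
      -- maximal coordinate
      obtain ⟨γ1, hγ1⟩ : ∃ γ1, vv u γ1 ≠ 0 := by
        by_contra h
        push Not at h
        exact hu0 (vv_inj (by rw [map_zero]; exact funext h))
      have hfl2 := finite_large (vv u) (NN_vv_ne_top u) (|vv u γ1| / 2) (by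
        have := abs_pos.2 hγ1
        positivity)
      have hne : hfl2.toFinset.Nonempty := ⟨γ1, by
        have := abs_pos.2 hγ1
        simp only [Set.Finite.mem_toFinset, Set.mem_ofPred_eq]
        linarith⟩
      obtain ⟨γ0, hγ0, hmax⟩ := hfl2.toFinset.exists_max_image (fun γ => |vv u γ|) hne
      have hmax' : ∀ γ, |vv u γ| ≤ |vv u γ0| := by
        intro γ
        by_cases h : γ ∈ hfl2.toFinset
        · exact hmax γ h
        · have h2 : |vv u γ| ≤ |vv u γ1| / 2 := by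
            by_contra h3
            push Not at h3
            exact h (by simpa using h3)
          have h4 := hmax γ1 (by
            have := abs_pos.2 hγ1
            simp only [Set.Finite.mem_toFinset, Set.mem_ofPred_eq]
            linarith)
          have := abs_pos.2 hγ1
          have h4' : |vv u γ1| ≤ |vv u γ0| := h4
          linarith
      have hγ0pos : 0 < |vv u γ0| := lt_of_lt_of_le (abs_pos.2 hγ1) (hmax' γ1)
      set w : XT Γ := (|vv u γ0|)⁻¹ • u with hw
      have hwv : ∀ γ, vv w γ = (|vv u γ0|)⁻¹ * vv u γ := fun γ => by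
        rw [hw, map_smul, Pi.smul_apply, smul_eq_mul]
      have hwabs : ∀ γ, |vv w γ| ≤ 1 := by
        intro γ
        rw [hwv, abs_mul, abs_of_pos (inv_pos.2 hγ0pos), inv_mul_eq_div, div_le_one hγ0pos]
        exact hmax' γ
      have hwγ0 : |vv w γ0| = 1 := by
        rw [hwv, abs_mul, abs_of_pos (inv_pos.2 hγ0pos), inv_mul_cancel₀ hγ0pos.ne']
      have hγ0G : γ0 ∉ G := by
        intro h
        have := huG γ0 h
        rw [this, abs_zero] at hγ0pos
        exact lt_irrefl _ hγ0pos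
      refine ⟨y + w, insert γ0 F, Y.add_mem hyY (Y.smul_mem _ huY), ?_, ?_, ?_⟩
      · rw [card_insert_of_notMem, hFN]
        intro h
        exact hγ0G (mem_union_right _ h)
      · intro γ hγ
        rw [map_add, Pi.add_apply]
        rcases mem_insert.1 hγ with rfl | hγ
        · have h5 := hGout γ hγ0G
          have h6 : |vv w γ| ≤ |vv y γ + vv w γ| + |vv y γ| := by
            have := abs_sub (vv y γ + vv w γ) (vv y γ)
            rwa [add_sub_cancel_left] at this
          linarith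
        · have h7 : vv w γ = 0 := by
            rw [hwv, huG γ (mem_union_right _ hγ), mul_zero]
          rw [h7, add_zero]
          have := hF γ hγ
          linarith
      · intro γ
        rw [map_add, Pi.add_apply]
        by_cases h : γ ∈ G
        · have h7 : vv w γ = 0 := by
            rw [hwv, huG γ h, mul_zero]
          rw [h7, add_zero]
          have := hy γ
          linarith
        · have h8 := hGout γ h
          have h9 := hwabs γ
          have := abs_add_le (vv y γ) (vv w γ)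
          linarith
  obtain ⟨n, hn⟩ := pow_unbounded_of_one_lt (4 / δ) (one_lt_two (α := ℝ))
  obtain ⟨y, F, hyY, hFc, hF, hy⟩ := key (4 ^ n) (1/2) (by norm_num)
  have h2 := h1 y hyY _ hy
  have h3 : (2:ℝ) ^ n * (1/2) ≤ ‖y‖ := by
    have h4 : ENNReal.ofReal ((2:ℝ) ^ n * (1/2)) ≤ NN (vv y) := by
      refine le_trans ?_ (AA_le_NN (vv y) n)
      unfold AA
      have h5 : (4 ^ n : ℕ) * ENNReal.ofReal (1/2) ≤ ss (4 ^ n) (vv y) := by
        refine le_trans ?_ (sum_le_ss (vv y) F hFc.le)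
        calc (4 ^ n : ℕ) * ENNReal.ofReal (1/2) = ∑ γ ∈ F, ENNReal.ofReal (1/2) := by
              rw [sum_const, hFc, nsmul_eq_mul]
          _ ≤ _ := by
              refine sum_le_sum fun γ hγ => ?_
              rw [Real.enorm_eq_ofReal_abs]
              refine ENNReal.ofReal_le_ofReal ?_
              have := hF γ hγ
              linarith
      calc ENNReal.ofReal ((2:ℝ) ^ n * (1/2))
          = (2⁻¹ : ℝ≥0∞) ^ n * ((4 ^ n : ℕ) * ENNReal.ofReal (1/2)) := by
            push_cast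
            rw [← mul_assoc, ← mul_pow, ENNReal.ofReal_mul (by positivity),
              ENNReal.ofReal_pow (by norm_num)]
            congr 2
            rw [show (4 : ℝ≥0∞) = 2 * 2 by norm_num, ← mul_assoc,
              ENNReal.inv_mul_cancel (by norm_num) (by norm_num), one_mul]
            norm_num
        _ ≤ _ := by gcongr
    rw [NN_eq] at h4
    exact (ENNReal.ofReal_le_ofReal_iff (norm_nonneg _)).1 h4
  rw [div_lt_iff₀ hδ] at hn
  nlinarith

/-- finite-dimensional spaces of sequences in every infinite-dimensional subspace -/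
theorem c0_gen (Y : Submodule ℝ (XT Γ)) (hY : ¬ FiniteDimensional ℝ Y)
    {E : Type} [NormedAddCommGroup E] [NormedSpace ℝ E] [FiniteDimensional ℝ E]
    (q : ℕ → E →ₗ[ℝ] ℝ) (hq1 : ∀ n v, |q n v| ≤ ‖v‖)
    (hq2 : ∀ v, v ≠ 0 → ∃ n, 1/2 * ‖v‖ < |q n v|) :
    ∃ T : E →ₗ[ℝ] XT Γ, (∀ v, T v ∈ Y) ∧ ∀ v : E, ‖v‖ ≤ ‖T v‖ ∧ ‖T v‖ ≤ 10 * ‖v‖ := by
  -- finitely many coordinates
  obtain ⟨J0, hJ0⟩ : ∃ J : ℕ, ∀ v : E, ‖v‖ = 1 → ∃ n < J, 1/2 < |q n v| := by
    have hcomp : IsCompact (Metric.sphere (0 : E) 1) := isCompact_sphere 0 1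
    let U : ℕ → Set E := fun J => {v | ∃ n < J, 1/2 < |q n v|}
    have hcont : ∀ n : ℕ, Continuous fun v : E => |q n v| := by
      intro n
      exact (LinearMap.continuous_of_finiteDimensional (q n)).abs
    have hUo : ∀ J, IsOpen (U J) := by
      intro J
      have : U J = ⋃ n ∈ Set.Iio J, {v : E | 1/2 < |q n v|} := by
        ext v
        simp [U]
      rw [this]
      exact isOpen_biUnion fun n _ => isOpen_lt continuous_const (hcont n)
    have hUmono : Monotone U := by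
      intro a b hab v hv
      obtain ⟨n, hn, h⟩ := hv
      exact ⟨n, lt_of_lt_of_le hn hab, h⟩
    have hcov : Metric.sphere (0 : E) 1 ⊆ ⋃ J, U J := by
      intro v hv
      rw [mem_sphere_zero_iff_norm] at hv
      rw [Set.mem_iUnion]
      obtain ⟨n, hn⟩ := hq2 v (by
        intro h
        rw [h, norm_zero] at hv
        exact zero_ne_one hv)
      rw [hv, mul_one] at hn
      exact ⟨n+1, n, Nat.lt_succ_self n, hn⟩
    obtain ⟨t, ht⟩ := hcomp.elim_directed_cover U hUo hcov hUmono.directed_le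
    exact ⟨t, fun v hv => ht (by rwa [mem_sphere_zero_iff_norm])⟩
  have hJ0' : ∀ v : E, v ≠ 0 → ∃ n < J0, 1/2 * ‖v‖ ≤ |q n v| := by
    intro v hv
    have hv0 : 0 < ‖v‖ := norm_pos_iff.2 hv
    obtain ⟨n, hn, h⟩ := hJ0 (‖v‖⁻¹ • v) (by
      rw [norm_smul, norm_inv, norm_norm, inv_mul_cancel₀ hv0.ne'])
    refine ⟨n, hn, ?_⟩
    rw [map_smul, smul_eq_mul, abs_mul, abs_of_pos (inv_pos.2 hv0), inv_mul_eq_div,
      lt_div_iff₀ hv0] at h
    exact h.le
  -- the block vectors
  set η : ℝ := 1 / (4 * (J0 + 1)) with hη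
  have hη0 : 0 < η := by positivity
  have hηJ : (J0 : ℝ) * η ≤ 1/4 := by
    rw [hη, mul_one_div, div_le_div_iff₀ (by positivity) (by norm_num)]
    linarith
  obtain ⟨y, t, ht, hJt, hy⟩ := gliding {y : XT Γ | y ∈ Y ∧ ‖y‖ = 1} (fun δ hδ => by
    obtain ⟨y, h1, h2, h3⟩ := flat Y hY δ hδ
    exact ⟨y, ⟨h1, h2⟩, h2.le, h3⟩) J0 η hη0
  let T : E →ₗ[ℝ] XT Γ :=
    { toFun := fun v => (4:ℝ) • ∑ i ∈ range J0, q i v • y i
      map_add' := fun v w => by
        rw [← smul_add, ← sum_add_distrib]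
        congr 1
        refine sum_congr rfl fun i _ => ?_
        rw [← add_smul, map_add]
      map_smul' := fun c v => by
        rw [RingHom.id_apply, smul_comm c, smul_sum (r := c)]
        congr 1
        refine sum_congr rfl fun i _ => ?_
        rw [smul_smul, map_smul, smul_eq_mul] }
  have hT : ∀ v : E, T v = (4:ℝ) • ∑ i ∈ range J0, q i v • y i := fun v => rfl
  refine ⟨T, fun v => ?_, fun v => ⟨?_, ?_⟩⟩
  · rw [hT]
    exact Y.smul_mem _ (Y.sum_mem fun i _ => Y.smul_mem _ (hy i).1.1)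
  · rcases eq_or_ne v 0 with h0 | h0
    · rw [h0]
      simp
    obtain ⟨n, hn, h⟩ := hJ0' v h0
    -- maximal index
    obtain ⟨i0, hi0, hmax⟩ := (range J0).exists_max_image (fun i => |q i v|)
      ⟨n, mem_range.2 hn⟩
    have hlow := lower J0 η hη0 y t ht (fun i => ⟨(hy i).1.2.ge, (hy i).2.2⟩)
      (fun i => q i v) i0 (mem_range.1 hi0) (fun i hi => hmax i (mem_range.2 hi))
    have h2 : |q n v| ≤ |q i0 v| := hmax n (mem_range.2 hn)
    rw [hT, norm_smul, Real.norm_of_nonneg (by norm_num)]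
    have hJ1 : 1 ≤ J0 := by omega
    have hη8 : 2 * η ≤ 1/4 := by
      have : (1:ℝ) ≤ J0 := by exact_mod_cast hJ1
      rw [hη, mul_one_div, div_le_div_iff₀ (by positivity) (by norm_num)]
      linarith
    have h3 : |q i0 v| * (1/2) ≤ |q i0 v| * (1 - 2 * η - J0 * η) := by
      refine mul_le_mul_of_nonneg_left ?_ (abs_nonneg _)
      linarith
    have h4 : |q i0 v| * (1/2) ≤ ‖∑ i ∈ range J0, q i v • y i‖ := h3.trans hlow
    linarith
  · have hup : ‖∑ i ∈ range J0, q i v • y i‖ ≤ ‖v‖ * (2 + 2 * (J0 * η)) :=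
      upper J0 η hη0 y t ht hJt (fun i => (hy i).2)
      (fun i => q i v) ‖v‖ (norm_nonneg _) (fun i _ => hq1 i v)
    rw [hT, norm_smul, Real.norm_of_nonneg (by norm_num)]
    have h4 : ‖v‖ * (2 + 2 * (J0 * η)) ≤ ‖v‖ * (5/2) := by
      refine mul_le_mul_of_nonneg_left ?_ (norm_nonneg _)
      linarith
    linarith

/-- density character, upper bound -/
lemma dense_range : Dense (Set.range fun a : Γ →₀ ℝ => (a.sum fun γ c => c • (ee γ : XT Γ))) := by
  classical
  intro x
  rw [Metric.mem_closure_iff]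
  intro ε hε
  obtain ⟨F, hF⟩ := norm_PP_compl_tendsto x (ε/2) (by positivity)
  refine ⟨PP (F : Set Γ) x, ?_, ?_⟩
  · refine ⟨Finsupp.onFinset F (fun γ => if γ ∈ F then vv x γ else 0) (fun γ h => by
      by_contra h'
      simp [h'] at h), ?_⟩
    simp only
    rw [← sum_eq_PP, Finsupp.onFinset_sum _ (fun γ => zero_smul ℝ (ee γ))]
    refine sum_congr rfl fun γ hγ => ?_
    rw [if_pos hγ]
  · rw [dist_eq_norm]
    have := hF F subset_rfl
    linarith

lemma dist_ee {γ δ : Γ} (h : γ ≠ δ) : 1 ≤ dist (ee γ : XT Γ) (ee δ) := by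
  rw [dist_eq_norm]
  have := abs_coord_le (ee γ - ee δ : XT Γ) γ
  rw [map_sub, Pi.sub_apply, vv_ee, vv_ee, Set.indicator_of_mem (Set.mem_singleton γ),
    Set.indicator_of_notMem (by simpa using h)] at this
  simpa using this

lemma card_dense (D : Set (XT Γ)) (hD : Dense D) : Cardinal.mk Γ ≤ Cardinal.mk D := by
  have h1 : ∀ γ : Γ, ∃ d ∈ D, dist (ee γ : XT Γ) d < 1/2 := by
    intro γ
    exact Metric.mem_closure_iff.1 (hD (ee γ)) (1/2) (by norm_num)
  choose d hd1 hd2 using h1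
  refine Cardinal.mk_le_of_injective (f := fun γ => (⟨d γ, hd1 γ⟩ : D)) ?_
  intro γ δ h
  by_contra hne
  have h2 : d γ = d δ := congrArg Subtype.val h
  have h3 := dist_ee hne
  have h4 := dist_triangle_right (ee γ : XT Γ) (ee δ) (d γ)
  have h5 := hd2 γ
  have h6 := hd2 δ
  rw [← h2] at h6
  linarith

end Pool.Agent.H794R2.Tsi
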