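import Pool.Agent.H794R2.XSp

set_option autoImplicit false
open scoped ENNReal
open Finset

namespace Pool.Agent.H794R2.Tsi

variable {Γ : Type}

/-- unit vectors -/
noncomputable def ee (γ : Γ) : XT Γ :=
  mk (({γ} : Set Γ).indicator 1) (by
    refine ne_top_of_le_ne_top ?_ (NN_le_sum _ {γ} ?_)
    · simp
    · intro δ hδ
      rw [Set.indicator_of_notMem]
      simpa using hδ)

@[simp] lemma vv_ee (γ : Γ) : vv (ee γ) = ({γ} : Set Γ).indicator 1 := rfl

lemma vv_sum (G : Finset Γ) (a : Γ → ℝ) (δ : Γ) :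
    vv (∑ γ ∈ G, a γ • ee γ) δ = (G : Set Γ).indicator a δ := by
  classical
  rw [map_sum]
  simp only [map_smul, vv_ee, Finset.sum_apply, Pi.smul_apply, smul_eq_mul]
  by_cases h : δ ∈ G
  · rw [Finset.sum_eq_single_of_mem δ h]
    · simp [h]
    · intro γ _ hγ
      rw [Set.indicator_of_notMem, mul_zero]
      simpa using hγ.symm
  · rw [Finset.sum_eq_zero, Set.indicator_of_notMem (by simpa using h)]
    intro γ hγ
    rw [Set.indicator_of_notMem, mul_zero]
    intro h'
    simp only [Set.mem_singleton_iff] at h'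
    exact h (h' ▸ hγ)

lemma sum_eq_PP (G : Finset Γ) (x : XT Γ) : ∑ γ ∈ G, vv x γ • ee γ = PP (G : Set Γ) x := by
  apply vv_inj
  funext δ
  rw [vv_sum, vv_PP]

lemma hasSum_ee (x : XT Γ) : HasSum (fun γ => vv x γ • ee γ) x := by
  unfold HasSum
  rw [SummationFilter.unconditional_filter]
  rw [Metric.tendsto_nhds]
  intro ε hε
  obtain ⟨F, hF⟩ := conv' x (ε/2) (by positivity)
  filter_upwards [Filter.eventually_ge_atTop F] with G hG
  rw [sum_eq_PP, dist_comm, dist_eq_norm]
  have h1 : x - PP (G : Set Γ) x = PP (G : Set Γ)ᶜ x := by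
    rw [sub_eq_iff_eq_add]
    conv_lhs => rw [← PP_add_compl (G : Set Γ) x]
    abel
  rw [h1]
  have := hF G hG
  linarith

/-- coordinate functionals -/
noncomputable def cc (γ : Γ) : XT Γ →L[ℝ] ℝ :=
  LinearMap.mkContinuous ((LinearMap.proj γ).comp vv) 1 (fun x => by
    rw [one_mul]
    exact abs_coord_le x γ)

@[simp] lemma cc_apply (γ : Γ) (x : XT Γ) : cc γ x = vv x γ := rfl

lemma unique_coeff (x : XT Γ) (a : Γ → ℝ) (h : HasSum (fun γ => a γ • ee γ) x) : a = vv x := by
  classical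
  funext δ
  have h1 := (cc δ).hasSum h
  have h2 : ∀ γ, cc δ (a γ • ee γ) = if γ = δ then a δ else 0 := by
    intro γ
    rw [map_smul, cc_apply, vv_ee, smul_eq_mul]
    by_cases hγ : γ = δ
    · subst hγ
      simp
    · rw [Set.indicator_of_notMem, mul_zero, if_neg hγ]
      simpa using fun h => hγ h.symm
  simp_rw [h2] at h1
  exact (hasSum_ite_eq δ (a δ)).unique h1

/-! ### the gliding hump -/

lemma NN_coord_bound (y : XT Γ) (δ : ℝ) (h : ∀ γ, |vv y γ| ≤ δ) (T : ℕ) :
    ∑ n ∈ range T, AA (vv y) n ≤ ENNReal.ofReal (T * 2 ^ T * δ) := by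
  rcases isEmpty_or_nonempty Γ with hE | ⟨⟨γ0⟩⟩
  · have : ∀ n, AA (vv y) n = 0 := by
      intro n
      have := AA_le_mul (vv y) 0 (fun γ => (hE.false γ).elim) n
      simpa using this
    simp [this]
  have hδ : 0 ≤ δ := (abs_nonneg _).trans (h γ0)
  calc ∑ n ∈ range T, AA (vv y) n ≤ ∑ n ∈ range T, 2 ^ T * ENNReal.ofReal δ := by
        refine sum_le_sum fun n hn => ?_
        refine (AA_le_mul (vv y) (ENNReal.ofReal δ) (fun γ => ?_) n).trans ?_
        · rw [Real.enorm_eq_ofReal_abs]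
          exact ENNReal.ofReal_le_ofReal (h γ)
        · gcongr
          · norm_num
          · exact (mem_range.1 hn).le
    _ = ENNReal.ofReal (T * 2 ^ T * δ) := by
        rw [sum_const, card_range, nsmul_eq_mul, mul_assoc, ENNReal.ofReal_mul (by positivity),
          ENNReal.ofReal_mul (by positivity), ENNReal.ofReal_natCast, ENNReal.ofReal_pow (by norm_num)]
        norm_num

lemma gliding (S : Set (XT Γ)) (hS : ∀ δ : ℝ, 0 < δ → ∃ y ∈ S, ‖y‖ ≤ 1 ∧ ∀ γ, |vv y γ| ≤ δ)
    (J : ℕ) (η : ℝ) (hη : 0 < η) :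
    ∃ (y : ℕ → XT Γ) (t : ℕ → ℕ), Monotone t ∧ J ≤ t 0 ∧ ∀ i, y i ∈ S ∧ ‖y i‖ ≤ 1 ∧
      ∑ n ∈ range (t i), AA (vv (y i)) n ≤ ENNReal.ofReal η ∧
      tau (tail (t (i+1)) (AA (vv (y i)))) ≤ ENNReal.ofReal η := by
  have key : ∀ T : ℕ, ∃ (y : XT Γ) (T' : ℕ), T ≤ T' ∧ y ∈ S ∧ ‖y‖ ≤ 1 ∧
      ∑ n ∈ range T, AA (vv y) n ≤ ENNReal.ofReal η ∧
      tau (tail T' (AA (vv y))) ≤ ENNReal.ofReal η := by
    intro T
    obtain ⟨y, hyS, hy1, hy2⟩ := hS (η / ((T + 1) * 2 ^ T)) (by positivity)
    obtain ⟨N, hN⟩ := tau_tail (AA (vv y)) (NN_vv_ne_top y) (ENNReal.ofReal η) (by simpa using hη)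
    refine ⟨y, max T N, le_max_left _ _, hyS, hy1, ?_, ?_⟩
    · refine (NN_coord_bound y _ hy2 T).trans (ENNReal.ofReal_le_ofReal ?_)
      have h1 : (T : ℝ) * 2 ^ T * (η / ((T + 1) * 2 ^ T)) = T / (T + 1) * η := by
        field_simp
      rw [h1]
      have h2 : (T : ℝ) / (T + 1) ≤ 1 := by
        rw [div_le_one (by positivity)]
        linarith
      nlinarith
    · exact (tau_mono (tail_anti (le_max_right _ _) _)).trans hN
  choose Y T' hT hYS hY1 hY2 hY3 using key
  let t : ℕ → ℕ := fun i => T'^[i] J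
  have ht : ∀ i, t (i+1) = T' (t i) := fun i => Function.iterate_succ_apply' T' i J
  refine ⟨fun i => Y (t i), t, ?_, le_rfl, fun i => ⟨hYS _, hY1 _, hY2 _, ?_⟩⟩
  · exact monotone_nat_of_le_succ fun i => by rw [ht]; exact hT _
  · rw [ht]
    exact hY3 _

lemma AA_sum_le {ι : Type} (s : Finset ι) (c : ι → ℝ) (y : ι → XT Γ) :
    AA (vv (∑ i ∈ s, c i • y i)) ≤ ∑ i ∈ s, ‖c i‖ₑ • AA (vv (y i)) := by
  classical
  induction s using Finset.induction_on with
  | empty =>
    intro n
    simp only [sum_empty, map_zero]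
    have := AA_le_mul (0 : Γ → ℝ) 0 (by simp) n
    simpa using this
  | insert i s hi ih =>
    rw [sum_insert hi, sum_insert hi, map_add, map_smul]
    refine (AA_add _ _).trans (add_le_add (le_of_eq (AA_smul _ _)) ih)

lemma tau_sum_le_sum {ι : Type} (s : Finset ι) (a : ι → (ℕ → ℝ≥0∞)) :
    tau (∑ i ∈ s, a i) ≤ ∑ i ∈ s, tau (a i) := by
  classical
  induction s using Finset.induction_on with
  | empty =>
    simp only [sum_empty]
    have := tau_le_tsum 0
    simpa using this
  | insert i s hi ih =>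
    rw [sum_insert hi, sum_insert hi]
    exact (tau_add _ _).trans (by gcongr)

lemma decomp3 (s t : ℕ) (a : ℕ → ℝ≥0∞) (hst : s ≤ t) :
    a = res 0 s a + res s t a + tail t a := by
  funext n
  unfold res tail
  simp only [Pi.add_apply]
  rcases lt_or_ge n s with h | h
  · rw [Set.indicator_of_mem (show n ∈ Set.Ico 0 s from ⟨Nat.zero_le _, h⟩),
      Set.indicator_of_notMem (show n ∉ Set.Ico s t from fun h' => absurd h'.1 (not_le.2 h)),
      Set.indicator_of_notMem (show n ∉ Set.Ici t from fun h' => by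
        simp only [Set.mem_Ici] at h'; omega)]
    simp
  · rcases lt_or_ge n t with h2 | h2
    · rw [Set.indicator_of_notMem (show n ∉ Set.Ico 0 s from fun h' => absurd h'.2 (not_lt.2 h)),
        Set.indicator_of_mem (show n ∈ Set.Ico s t from ⟨h, h2⟩),
        Set.indicator_of_notMem (show n ∉ Set.Ici t from fun h' => by
        simp only [Set.mem_Ici] at h'; omega)]
      simp
    · rw [Set.indicator_of_notMem (show n ∉ Set.Ico 0 s from fun h' => absurd h'.2 (not_lt.2 h)),
        Set.indicator_of_notMem (show n ∉ Set.Ico s t from fun h' => absurd h'.2 (not_lt.2 h2)),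
        Set.indicator_of_mem (show n ∈ Set.Ici t from h2)]
      simp

lemma tau_res0 (s : ℕ) (a : ℕ → ℝ≥0∞) : tau (res 0 s a) ≤ ∑ n ∈ range s, a n := by
  refine (tau_le_tsum _).trans ?_
  rw [tsum_eq_sum (s := range s)]
  · exact sum_le_sum fun n _ => res_le _ _ _ _
  · intro n hn
    unfold res
    rw [Set.indicator_of_notMem]
    simpa using hn

/-- upper estimate -/
lemma upper (J : ℕ) (η : ℝ) (hη : 0 < η) (y : ℕ → XT Γ) (t : ℕ → ℕ) (ht : Monotone t)
    (hJ : J ≤ t 0)
    (hy : ∀ i, ‖y i‖ ≤ 1 ∧ ∑ n ∈ range (t i), AA (vv (y i)) n ≤ ENNReal.ofReal η ∧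
      tau (tail (t (i+1)) (AA (vv (y i)))) ≤ ENNReal.ofReal η)
    (c : ℕ → ℝ) (B : ℝ) (hB : 0 ≤ B) (hc : ∀ i < J, |c i| ≤ B) :
    ‖∑ i ∈ range J, c i • y i‖ ≤ B * (2 + 2 * (J * η)) := by
  rw [← NN_le_iff _ _ (by positivity)]
  unfold NN
  calc tau (AA (vv (∑ i ∈ range J, c i • y i)))
      ≤ tau (∑ i ∈ range J, ‖c i‖ₑ • AA (vv (y i))) := tau_mono (AA_sum_le _ _ _)
    _ ≤ tau (ENNReal.ofReal B • ∑ i ∈ range J, AA (vv (y i))) := by
        refine tau_mono ?_
        rw [smul_sum]
        refine sum_le_sum fun i hi => ?_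
        intro n
        simp only [Pi.smul_apply, smul_eq_mul]
        gcongr
        rw [Real.enorm_eq_ofReal_abs]
        exact ENNReal.ofReal_le_ofReal (hc i (mem_range.1 hi))
    _ = ENNReal.ofReal B * tau (∑ i ∈ range J, AA (vv (y i))) := tau_smul _ _
    _ = ENNReal.ofReal B * tau (∑ i ∈ range J, res 0 (t i) (AA (vv (y i)))
          + ∑ i ∈ range J, res (t i) (t (i+1)) (AA (vv (y i)))
          + ∑ i ∈ range J, tail (t (i+1)) (AA (vv (y i)))) := by
        congr 2
        rw [← sum_add_distrib, ← sum_add_distrib]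
        refine sum_congr rfl fun i _ => ?_
        exact decomp3 _ _ _ (ht (Nat.le_succ i))
    _ ≤ ENNReal.ofReal B * (∑ i ∈ range J, ENNReal.ofReal η + 2 * 1
          + ∑ i ∈ range J, ENNReal.ofReal η) := by
        gcongr
        refine (tau_add _ _).trans (add_le_add ((tau_add _ _).trans (add_le_add ?_ ?_)) ?_)
        · refine (tau_sum_le_sum _ _).trans (sum_le_sum fun i _ => ?_)
          exact (tau_res0 _ _).trans (hy i).2.1
        · refine tau_sum_le J t ht hJ (fun i => AA (vv (y i))) 1 fun i _ => ?_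
          have := (NN_le_iff (y i) 1 zero_le_one).2 (hy i).1
          rw [ENNReal.ofReal_one] at this
          exact this
        · refine (tau_sum_le_sum _ _).trans (sum_le_sum fun i _ => ?_)
          exact (hy i).2.2
    _ = ENNReal.ofReal (B * (2 + 2 * (J * η))) := by
        rw [sum_const, card_range, nsmul_eq_mul, ENNReal.ofReal_mul hB,
          ENNReal.ofReal_add (by norm_num) (by positivity), ENNReal.ofReal_mul (by norm_num),
          ENNReal.ofReal_mul (by positivity), ENNReal.ofReal_natCast]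
        norm_num
        ring

/-- lower estimate -/
lemma lower (J : ℕ) (η : ℝ) (hη : 0 < η) (y : ℕ → XT Γ) (t : ℕ → ℕ) (ht : Monotone t)
    (hy : ∀ i, 1 ≤ ‖y i‖ ∧ ∑ n ∈ range (t i), AA (vv (y i)) n ≤ ENNReal.ofReal η ∧
      tau (tail (t (i+1)) (AA (vv (y i)))) ≤ ENNReal.ofReal η)
    (c : ℕ → ℝ) (i0 : ℕ) (hi0 : i0 < J) (hc : ∀ i < J, |c i| ≤ |c i0|) :
    |c i0| * (1 - 2 * η - J * η) ≤ ‖∑ i ∈ range J, c i • y i‖ := by
  set x := ∑ i ∈ range J, c i • y i with hx
  -- the block
  have hres_mono : ∀ {a b : ℕ → ℝ≥0∞}, a ≤ b → tau (res (t i0) (t (i0+1)) a) ≤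
      tau (res (t i0) (t (i0+1)) b) := fun h => tau_mono (res_mono h)
  have h1 : (1 : ℝ≥0∞) ≤ ENNReal.ofReal η + tau (res (t i0) (t (i0+1)) (AA (vv (y i0))))
      + ENNReal.ofReal η := by
    calc (1 : ℝ≥0∞) = ENNReal.ofReal 1 := by norm_num
      _ ≤ ENNReal.ofReal ‖y i0‖ := ENNReal.ofReal_le_ofReal (hy i0).1
      _ = tau (AA (vv (y i0))) := (NN_eq _).symm
      _ = tau (res 0 (t i0) (AA (vv (y i0))) + res (t i0) (t (i0+1)) (AA (vv (y i0)))
            + tail (t (i0+1)) (AA (vv (y i0)))) := by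
          congr 1
          exact decomp3 _ _ _ (ht (Nat.le_succ i0))
      _ ≤ _ := by
          refine (tau_add _ _).trans (add_le_add ((tau_add _ _).trans (add_le_add ?_ le_rfl)) ?_)
          · exact (tau_res0 _ _).trans (hy i0).2.1
          · exact (hy i0).2.2
  have h2 : ‖c i0‖ₑ * tau (res (t i0) (t (i0+1)) (AA (vv (y i0)))) ≤
      NN (vv x) + ∑ i ∈ (range J).erase i0, ‖c i0‖ₑ * ENNReal.ofReal η := by
    have h3 : c i0 • y i0 = x + ∑ i ∈ (range J).erase i0, (-c i) • y i := by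
      rw [hx, ← Finset.add_sum_erase _ _ (mem_range.2 hi0)]
      simp only [neg_smul, sum_neg_distrib]
      abel
    have h4 : ‖c i0‖ₑ • AA (vv (y i0)) ≤ AA (vv x) +
        ∑ i ∈ (range J).erase i0, ‖c i‖ₑ • AA (vv (y i)) := by
      rw [← AA_smul, ← map_smul, h3, map_add]
      refine (AA_add _ _).trans (add_le_add le_rfl ?_)
      refine (AA_sum_le _ _ _).trans (le_of_eq ?_)
      refine sum_congr rfl fun i _ => ?_
      rw [enorm_neg]
    calc ‖c i0‖ₑ * tau (res (t i0) (t (i0+1)) (AA (vv (y i0))))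
        = tau (res (t i0) (t (i0+1)) (‖c i0‖ₑ • AA (vv (y i0)))) := by
          rw [res_smul, tau_smul]
      _ ≤ tau (res (t i0) (t (i0+1)) (AA (vv x) +
        ∑ i ∈ (range J).erase i0, ‖c i‖ₑ • AA (vv (y i)))) := hres_mono h4
      _ = tau (res (t i0) (t (i0+1)) (AA (vv x)) +
        ∑ i ∈ (range J).erase i0, ‖c i‖ₑ • res (t i0) (t (i0+1)) (AA (vv (y i)))) := by
          congr 1
          rw [res_add]
          congr 1
          generalize (range J).erase i0 = s
          induction s using Finset.induction_on with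
          | empty =>
            simp only [sum_empty]
            funext n
            unfold res
            simp
          | insert i s hi ih => rw [sum_insert hi, sum_insert hi, res_add, ih, res_smul]
      _ ≤ NN (vv x) + ∑ i ∈ (range J).erase i0, ‖c i0‖ₑ * ENNReal.ofReal η := by
          refine (tau_add _ _).trans (add_le_add (tau_mono (res_le _ _ _)) ?_)
          refine (tau_sum_le_sum _ _).trans (sum_le_sum fun i hi => ?_)
          rw [tau_smul]
          have hi1 : i ≠ i0 := ne_of_mem_erase hi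
          have hi2 : i < J := mem_range.1 (mem_of_mem_erase hi)
          refine mul_le_mul' ?_ ?_
          · rw [Real.enorm_eq_ofReal_abs, Real.enorm_eq_ofReal_abs]
            exact ENNReal.ofReal_le_ofReal (hc i hi2)
          · rcases lt_or_gt_of_ne hi1 with h | h
            · refine le_trans (tau_mono ?_) (hy i).2.2
              intro n
              unfold res tail
              refine Set.indicator_le_indicator_of_subset ?_ (fun _ => bot_le) n
              intro m hm
              exact (ht (show i + 1 ≤ i0 by omega)).trans hm.1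
            · refine le_trans ?_ (hy i).2.1
              refine le_trans (tau_mono ?_) (tau_res0 _ _)
              intro n
              unfold res
              refine Set.indicator_le_indicator_of_subset ?_ (fun _ => bot_le) n
              intro m hm
              exact ⟨Nat.zero_le _, lt_of_lt_of_le hm.2 (ht (show i0 + 1 ≤ i by omega))⟩
  -- to reals
  set τ := tau (res (t i0) (t (i0+1)) (AA (vv (y i0)))) with hτ
  have hτtop : τ ≠ ∞ := ne_top_of_le_ne_top (NN_vv_ne_top (y i0)) (tau_mono (res_le _ _ _))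
  have h1' : 1 ≤ η + τ.toReal + η := by
    have := ENNReal.toReal_mono (by
      exact ENNReal.add_ne_top.2 ⟨ENNReal.add_ne_top.2 ⟨ENNReal.ofReal_ne_top, hτtop⟩,
        ENNReal.ofReal_ne_top⟩) h1
    rw [ENNReal.toReal_add (ENNReal.add_ne_top.2 ⟨ENNReal.ofReal_ne_top, hτtop⟩)
      ENNReal.ofReal_ne_top, ENNReal.toReal_add ENNReal.ofReal_ne_top hτtop,
      ENNReal.toReal_ofReal hη.le] at this
    simpa using this
  have h2' : |c i0| * τ.toReal ≤ ‖x‖ + J * (|c i0| * η) := by
    have h5 : NN (vv x) + ∑ i ∈ (range J).erase i0, ‖c i0‖ₑ * ENNReal.ofReal η ≤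
        ENNReal.ofReal (‖x‖ + J * (|c i0| * η)) := by
      rw [NN_eq, sum_const, nsmul_eq_mul, ENNReal.ofReal_add (norm_nonneg _) (by positivity),
        ENNReal.ofReal_mul (by positivity), ENNReal.ofReal_natCast,
        ENNReal.ofReal_mul (abs_nonneg _), Real.enorm_eq_ofReal_abs]
      gcongr
      exact (card_le_card (erase_subset _ _)).trans (by simp)
    have h6 := h2.trans h5
    rw [Real.enorm_eq_ofReal_abs, ← ENNReal.ofReal_toReal hτtop, ← ENNReal.ofReal_mul (abs_nonneg _)]
      at h6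
    exact (ENNReal.ofReal_le_ofReal_iff (by positivity)).1 h6
  have h7 : |c i0| * (1 - 2 * η) ≤ |c i0| * τ.toReal := by
    refine mul_le_mul_of_nonneg_left ?_ (abs_nonneg _)
    linarith
  nlinarith

end Pool.Agent.H794R2.Tsi
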