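import Pool.Agent.H794R2.Tsi2

/-!
The interpolation space between `ℓ_1(Γ)` and `c_0(Γ)` with parameter space the Tsirelson space.
-/
set_option autoImplicit false
open scoped ENNReal
open Finset

namespace Pool.Agent.H794R2.Tsi

variable {Γ : Type}

/-- sum of the `m` largest coordinates -/
noncomputable def ss (m : ℕ) (x : Γ → ℝ) : ℝ≥0∞ :=
  ⨆ F : {F : Finset Γ // F.card ≤ m}, ∑ γ ∈ F.1, ‖x γ‖ₑ

/-- the sequence of `K`-functionals -/
noncomputable def AA (x : Γ → ℝ) : ℕ → ℝ≥0∞ := fun n => (2⁻¹ : ℝ≥0∞) ^ n * ss (4 ^ n) x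

/-- the norm -/
noncomputable def NN (x : Γ → ℝ) : ℝ≥0∞ := tau (AA x)

lemma sum_le_ss {m : ℕ} (x : Γ → ℝ) (F : Finset Γ) (hF : F.card ≤ m) :
    ∑ γ ∈ F, ‖x γ‖ₑ ≤ ss m x :=
  le_iSup (fun F : {F : Finset Γ // F.card ≤ m} => ∑ γ ∈ F.1, ‖x γ‖ₑ) ⟨F, hF⟩

lemma ss_mono {m : ℕ} {x y : Γ → ℝ} (h : ∀ γ, ‖x γ‖ₑ ≤ ‖y γ‖ₑ) : ss m x ≤ ss m y :=
  iSup_mono fun _ => sum_le_sum fun γ _ => h γ

lemma ss_add (m : ℕ) (x y : Γ → ℝ) : ss m (x + y) ≤ ss m x + ss m y := by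
  refine iSup_le fun F => ?_
  calc ∑ γ ∈ F.1, ‖(x + y) γ‖ₑ ≤ ∑ γ ∈ F.1, (‖x γ‖ₑ + ‖y γ‖ₑ) :=
        sum_le_sum fun γ _ => enorm_add_le _ _
    _ = ∑ γ ∈ F.1, ‖x γ‖ₑ + ∑ γ ∈ F.1, ‖y γ‖ₑ := sum_add_distrib
    _ ≤ _ := add_le_add (sum_le_ss x _ F.2) (sum_le_ss y _ F.2)

lemma ss_smul (m : ℕ) (c : ℝ) (x : Γ → ℝ) : ss m (c • x) = ‖c‖ₑ * ss m x := by
  unfold ss
  rw [ENNReal.mul_iSup]
  refine iSup_congr fun F => ?_
  rw [mul_sum]
  refine sum_congr rfl fun γ _ => ?_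
  rw [Pi.smul_apply, smul_eq_mul, enorm_mul]

lemma ss_le_mul (m : ℕ) (x : Γ → ℝ) (B : ℝ≥0∞) (h : ∀ γ, ‖x γ‖ₑ ≤ B) : ss m x ≤ m * B := by
  refine iSup_le fun F => ?_
  calc ∑ γ ∈ F.1, ‖x γ‖ₑ ≤ ∑ γ ∈ F.1, B := sum_le_sum fun γ _ => h γ
    _ = F.1.card * B := by simp
    _ ≤ m * B := by
      gcongr
      exact F.2

lemma ss_le_sum (m : ℕ) (x : Γ → ℝ) (G : Finset Γ) (h : ∀ γ, γ ∉ G → x γ = 0) :
    ss m x ≤ ∑ γ ∈ G, ‖x γ‖ₑ := by
  classical
  refine iSup_le fun F => ?_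
  calc ∑ γ ∈ F.1, ‖x γ‖ₑ ≤ ∑ γ ∈ F.1 ∪ G, ‖x γ‖ₑ :=
        sum_le_sum_of_subset subset_union_left
    _ = ∑ γ ∈ G, ‖x γ‖ₑ := by
        symm
        refine sum_subset subset_union_right fun γ _ hγ => ?_
        rw [h γ hγ, enorm_zero]

lemma AA_mono {x y : Γ → ℝ} (h : ∀ γ, ‖x γ‖ₑ ≤ ‖y γ‖ₑ) : AA x ≤ AA y := fun n => by
  unfold AA
  gcongr
  exact ss_mono h

lemma AA_add (x y : Γ → ℝ) : AA (x + y) ≤ AA x + AA y := fun n => by
  simp only [AA, Pi.add_apply]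
  rw [← mul_add]
  gcongr
  exact ss_add _ _ _

lemma AA_smul (c : ℝ) (x : Γ → ℝ) : AA (c • x) = ‖c‖ₑ • AA x := by
  funext n
  simp only [AA, Pi.smul_apply, smul_eq_mul]
  rw [ss_smul]
  ring

lemma AA_le_mul (x : Γ → ℝ) (B : ℝ≥0∞) (h : ∀ γ, ‖x γ‖ₑ ≤ B) (n : ℕ) : AA x n ≤ 2 ^ n * B := by
  unfold AA
  calc (2⁻¹ : ℝ≥0∞) ^ n * ss (4 ^ n) x ≤ (2⁻¹ : ℝ≥0∞) ^ n * ((4 ^ n : ℕ) * B) := by
        gcongr
        exact ss_le_mul _ _ _ h
    _ = 2 ^ n * B := by
        push_cast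
        rw [← mul_assoc, ← mul_pow]
        congr 2
        rw [show (4 : ℝ≥0∞) = 2 * 2 by norm_num, ← mul_assoc,
          ENNReal.inv_mul_cancel (by norm_num) (by norm_num), one_mul]

lemma NN_mono {x y : Γ → ℝ} (h : ∀ γ, ‖x γ‖ₑ ≤ ‖y γ‖ₑ) : NN x ≤ NN y := tau_mono (AA_mono h)

lemma NN_add (x y : Γ → ℝ) : NN (x + y) ≤ NN x + NN y :=
  (tau_mono (AA_add x y)).trans (tau_add _ _)

lemma NN_smul (c : ℝ) (x : Γ → ℝ) : NN (c • x) = ‖c‖ₑ * NN x := by
  unfold NN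
  rw [AA_smul, tau_smul]

lemma AA_le_NN (x : Γ → ℝ) (n : ℕ) : AA x n ≤ NN x := le_tau _ n

lemma coord_le_NN (x : Γ → ℝ) (γ : Γ) : ‖x γ‖ₑ ≤ NN x := by
  refine le_trans ?_ (AA_le_NN x 0)
  unfold AA
  rw [pow_zero, pow_zero, one_mul]
  have := sum_le_ss (m := 1) x {γ} (by simp)
  simpa using this

lemma NN_zero : NN (0 : Γ → ℝ) = 0 := by
  have := NN_smul 0 (0 : Γ → ℝ)
  simpa using this

lemma NN_neg (x : Γ → ℝ) : NN (-x) = NN x := by
  have := NN_smul (-1) x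
  simpa using this

lemma AA_le_sum (x : Γ → ℝ) (G : Finset Γ) (h : ∀ γ, γ ∉ G → x γ = 0) (n : ℕ) :
    AA x n ≤ (2⁻¹ : ℝ≥0∞) ^ n * ∑ γ ∈ G, ‖x γ‖ₑ := by
  unfold AA
  gcongr
  exact ss_le_sum _ _ _ h

lemma NN_le_sum (x : Γ → ℝ) (G : Finset Γ) (h : ∀ γ, γ ∉ G → x γ = 0) :
    NN x ≤ 2 * ∑ γ ∈ G, ‖x γ‖ₑ := by
  refine (tau_le_tsum _).trans ?_
  calc ∑' n, AA x n ≤ ∑' n : ℕ, (2⁻¹ : ℝ≥0∞) ^ n * ∑ γ ∈ G, ‖x γ‖ₑ :=
        ENNReal.tsum_le_tsum fun n => AA_le_sum x G h n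
    _ = 2 * ∑ γ ∈ G, ‖x γ‖ₑ := by
        rw [ENNReal.tsum_mul_right, ENNReal.tsum_geometric, ENNReal.one_sub_inv_two, inv_inv]

/-- lower semicontinuity -/
lemma NN_lsc : LowerSemicontinuous (NN : (Γ → ℝ) → ℝ≥0∞) := by
  unfold NN tau
  refine lowerSemicontinuous_iSup fun z => ?_
  unfold pair
  refine lowerSemicontinuous_tsum fun n => ?_
  unfold AA ss
  have hz : z.1 n ≠ ∞ := ne_top_of_le_ne_top ENNReal.one_ne_top ((le_rho z.1 n).trans z.2)
  have h1 : LowerSemicontinuous (fun x : Γ → ℝ =>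
      ⨆ F : {F : Finset Γ // F.card ≤ 4 ^ n}, ∑ γ ∈ F.1, ‖x γ‖ₑ) := by
    refine lowerSemicontinuous_iSup fun F => ?_
    refine Continuous.lowerSemicontinuous ?_
    refine continuous_finsetSum _ fun γ _ => ?_
    exact (continuous_apply γ).enorm
  have hc : z.1 n * (2⁻¹ : ℝ≥0∞) ^ n ≠ ∞ :=
    ENNReal.mul_ne_top hz (ENNReal.pow_ne_top (by norm_num))
  have h2 := (ENNReal.continuous_const_mul hc).comp_lowerSemicontinuous h1
    (fun a b hab => mul_le_mul' le_rfl hab)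
  simp_rw [← mul_assoc]
  exact h2

lemma isClosed_le (B : ℝ≥0∞) : IsClosed {x : Γ → ℝ | NN x ≤ B} :=
  NN_lsc.isClosed_preimage B

variable (Γ)

/-- the space -/
noncomputable def XX : Submodule ℝ (Γ → ℝ) where
  carrier := {x | NN x ≠ ∞}
  add_mem' := by
    intro x y hx hy
    exact ne_top_of_le_ne_top (ENNReal.add_ne_top.2 ⟨hx, hy⟩) (NN_add x y)
  zero_mem' := by
    simp [NN_zero]
  smul_mem' := by
    intro c x hx
    simp only [Set.mem_ofPred_eq] at *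
    rw [NN_smul]
    exact ENNReal.mul_ne_top enorm_ne_top hx

variable {Γ}

lemma mem_XX {x : Γ → ℝ} : x ∈ XX Γ ↔ NN x ≠ ∞ := Iff.rfl

/-- a type synonym carrying the norm -/
def XT (Γ : Type) : Type := XX Γ

noncomputable instance : AddCommGroup (XT Γ) := inferInstanceAs (AddCommGroup (XX Γ))
noncomputable instance : Module ℝ (XT Γ) := inferInstanceAs (Module ℝ (XX Γ))

/-- the coordinates as a linear map -/
noncomputable def vv : XT Γ →ₗ[ℝ] (Γ → ℝ) := (XX Γ).subtype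

lemma vv_inj : Function.Injective (vv : XT Γ →ₗ[ℝ] (Γ → ℝ)) := Subtype.val_injective

lemma NN_vv_ne_top (x : XT Γ) : NN (vv x) ≠ ∞ := x.2

/-- constructor -/
noncomputable def mk (x : Γ → ℝ) (h : NN x ≠ ∞) : XT Γ := (⟨x, h⟩ : XX Γ)

@[simp] lemma vv_mk (x : Γ → ℝ) (h : NN x ≠ ∞) : vv (mk x h) = x := rfl

noncomputable instance : Norm (XT Γ) := ⟨fun x => (NN (vv x)).toReal⟩

lemma norm_def (x : XT Γ) : ‖x‖ = (NN (vv x)).toReal := rfl

lemma core : NormedSpace.Core ℝ (XT Γ) where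
  norm_nonneg x := ENNReal.toReal_nonneg
  norm_smul c x := by
    rw [norm_def, norm_def, map_smul, NN_smul, ENNReal.toReal_mul]
    simp
  norm_triangle x y := by
    rw [norm_def, norm_def, norm_def, map_add, ← ENNReal.toReal_add (NN_vv_ne_top x) (NN_vv_ne_top y)]
    refine ENNReal.toReal_mono ?_ (NN_add _ _)
    exact ENNReal.add_ne_top.2 ⟨NN_vv_ne_top x, NN_vv_ne_top y⟩
  norm_eq_zero_iff x := by
    rw [norm_def]
    constructor
    · intro h
      rw [ENNReal.toReal_eq_zero_iff] at h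
      rcases h with h | h
      · apply vv_inj
        rw [map_zero]
        funext γ
        have := coord_le_NN (vv x) γ
        rw [h] at this
        simpa using this
      · exact absurd h (NN_vv_ne_top x)
    · rintro rfl
      rw [map_zero, NN_zero]
      simp

noncomputable instance : NormedAddCommGroup (XT Γ) := NormedAddCommGroup.ofCore core
noncomputable instance : NormedSpace ℝ (XT Γ) := NormedSpace.ofCore core

lemma norm_def' (x : XT Γ) : ‖x‖ = (NN (vv x)).toReal := rfl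

lemma NN_le_iff (x : XT Γ) (B : ℝ) (hB : 0 ≤ B) : NN (vv x) ≤ ENNReal.ofReal B ↔ ‖x‖ ≤ B := by
  rw [norm_def', ENNReal.le_ofReal_iff_toReal_le (NN_vv_ne_top x) hB]

lemma NN_eq (x : XT Γ) : NN (vv x) = ENNReal.ofReal ‖x‖ := by
  rw [norm_def', ENNReal.ofReal_toReal (NN_vv_ne_top x)]

lemma abs_coord_le (x : XT Γ) (γ : Γ) : |vv x γ| ≤ ‖x‖ := by
  have := coord_le_NN (vv x) γ
  rw [NN_eq, Real.enorm_eq_ofReal_abs] at this
  exact (ENNReal.ofReal_le_ofReal_iff (norm_nonneg _)).1 this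

lemma norm_mono {x y : XT Γ} (h : ∀ γ, |vv x γ| ≤ |vv y γ|) : ‖x‖ ≤ ‖y‖ := by
  rw [norm_def', norm_def']
  refine ENNReal.toReal_mono (NN_vv_ne_top y) (NN_mono fun γ => ?_)
  rw [Real.enorm_eq_ofReal_abs, Real.enorm_eq_ofReal_abs]
  exact ENNReal.ofReal_le_ofReal (h γ)

instance : CompleteSpace (XT Γ) := by
  refine Metric.complete_of_cauchySeq_tendsto fun u hu => ?_
  have h1 : ∀ γ, CauchySeq fun n => vv (u n) γ := by
    intro γ
    rw [Metric.cauchySeq_iff] at hu ⊢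
    intro ε hε
    obtain ⟨N, hN⟩ := hu ε hε
    refine ⟨N, fun m hm n hn => ?_⟩
    refine lt_of_le_of_lt ?_ (hN m hm n hn)
    rw [dist_eq_norm, dist_eq_norm, Real.norm_eq_abs]
    have := abs_coord_le (u m - u n) γ
    rwa [map_sub] at this
  choose x hx using fun γ => cauchySeq_tendsto_of_complete (h1 γ)
  have h2 : Filter.Tendsto (fun n => vv (u n)) Filter.atTop (nhds x) := tendsto_pi_nhds.2 hx
  have h3 : ∀ ε : ℝ, 0 < ε → ∃ N, ∀ n ≥ N, NN (vv (u n) - x) ≤ ENNReal.ofReal ε := by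
    intro ε hε
    rw [Metric.cauchySeq_iff] at hu
    obtain ⟨N, hN⟩ := hu ε hε
    refine ⟨N, fun n hn => ?_⟩
    have h4 : Filter.Tendsto (fun m => vv (u n) - vv (u m)) Filter.atTop (nhds (vv (u n) - x)) :=
      tendsto_const_nhds.sub h2
    refine (isClosed_le (ENNReal.ofReal ε)).mem_of_tendsto h4 ?_
    filter_upwards [Filter.eventually_ge_atTop N] with m hm
    have h5 := hN n hn m hm
    rw [dist_eq_norm] at h5
    have := (NN_le_iff (u n - u m) ε hε.le).2 h5.le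
    rwa [map_sub] at this
  obtain ⟨N, hN⟩ := h3 1 one_pos
  have hxm : NN x ≠ ∞ := by
    have : x = vv (u N) + (-(vv (u N) - x)) := by abel
    rw [this]
    refine ne_top_of_le_ne_top ?_ (NN_add _ _)
    rw [NN_neg]
    exact ENNReal.add_ne_top.2 ⟨NN_vv_ne_top _, ne_top_of_le_ne_top ENNReal.ofReal_ne_top
      (hN N le_rfl)⟩
  refine ⟨mk x hxm, ?_⟩
  rw [Metric.tendsto_atTop]
  intro ε hε
  obtain ⟨N, hN⟩ := h3 (ε/2) (by positivity)
  refine ⟨N, fun n hn => ?_⟩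
  rw [dist_eq_norm]
  have h6 := (NN_le_iff (u n - mk x hxm) (ε/2) (by positivity)).1 (by
    rw [map_sub, vv_mk]
    exact hN n hn)
  linarith

/-! ### finitely supported vectors and unconditionality -/

/-- restriction of a function to (the complement of) a set -/
lemma NN_ind_le (s : Set Γ) (x : Γ → ℝ) : NN (s.indicator x) ≤ NN x := by
  refine NN_mono fun γ => ?_
  by_cases h : γ ∈ s <;> simp [h]

/-- band projection -/
noncomputable def PP (s : Set Γ) : XT Γ →ₗ[ℝ] XT Γ where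
  toFun x := mk (s.indicator (vv x)) (ne_top_of_le_ne_top (NN_vv_ne_top x) (NN_ind_le s _))
  map_add' x y := by
    apply vv_inj
    change s.indicator (vv (x + y)) = s.indicator (vv x) + s.indicator (vv y)
    rw [map_add]
    exact Set.indicator_add _ _ _
  map_smul' c x := by
    apply vv_inj
    change s.indicator (vv (c • x)) = c • s.indicator (vv x)
    rw [map_smul]
    funext γ
    by_cases h : γ ∈ s <;> simp [h]

@[simp] lemma vv_PP (s : Set Γ) (x : XT Γ) : vv (PP s x) = s.indicator (vv x) := rfl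

lemma norm_PP_le (s : Set Γ) (x : XT Γ) : ‖PP s x‖ ≤ ‖x‖ := by
  refine norm_mono fun γ => ?_
  rw [vv_PP]
  by_cases h : γ ∈ s <;> simp [h]

lemma PP_add_compl (s : Set Γ) (x : XT Γ) : PP s x + PP sᶜ x = x := by
  apply vv_inj
  rw [map_add, vv_PP, vv_PP]
  exact Set.indicator_self_add_compl s (vv x)

lemma finite_large (x : Γ → ℝ) (hx : NN x ≠ ∞) (η : ℝ) (hη : 0 < η) : {γ | η < |x γ|}.Finite := by
  by_contra hinf
  rw [← Set.Infinite] at hinf
  obtain ⟨n, hn⟩ := ENNReal.exists_nat_mul_gt (a := ENNReal.ofReal η) (b := NN x)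
    (by simpa using hη) hx
  obtain ⟨F, hF1, hF2⟩ := hinf.exists_subset_card_eq (4 ^ n)
  have h1 : (2:ℝ≥0∞) ^ n * ENNReal.ofReal η ≤ AA x n := by
    unfold AA
    have h2 : (4 ^ n : ℕ) * ENNReal.ofReal η ≤ ss (4 ^ n) x := by
      refine le_trans ?_ (sum_le_ss x F hF2.le)
      calc (4 ^ n : ℕ) * ENNReal.ofReal η = ∑ γ ∈ F, ENNReal.ofReal η := by
            simp [hF2]
        _ ≤ _ := by
            refine sum_le_sum fun γ hγ => ?_
            rw [Real.enorm_eq_ofReal_abs]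
            exact ENNReal.ofReal_le_ofReal (hF1 hγ).le
    calc (2:ℝ≥0∞) ^ n * ENNReal.ofReal η
        = (2⁻¹ : ℝ≥0∞) ^ n * ((4 ^ n : ℕ) * ENNReal.ofReal η) := by
          push_cast
          rw [← mul_assoc, ← mul_pow]
          congr 2
          rw [show (4 : ℝ≥0∞) = 2 * 2 by norm_num, ← mul_assoc,
            ENNReal.inv_mul_cancel (by norm_num) (by norm_num), one_mul]
      _ ≤ _ := by gcongr
  have h3 : NN x < NN x := by
    calc NN x < n * ENNReal.ofReal η := hn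
      _ ≤ (2:ℝ≥0∞) ^ n * ENNReal.ofReal η := by
        gcongr
        exact_mod_cast Nat.lt_two_pow_self.le
      _ ≤ AA x n := h1
      _ ≤ NN x := AA_le_NN x n
  exact lt_irrefl _ h3

lemma tau_split (M : ℕ) (a : ℕ → ℝ≥0∞) : tau a ≤ ∑ n ∈ range M, a n + tau (tail M a) := by
  have h1 : a = res 0 M a + tail M a := by
    funext n
    unfold res tail
    rw [Pi.add_apply]
    rcases lt_or_ge n M with h | h
    · rw [Set.indicator_of_mem (by simpa using h), Set.indicator_of_notMem (by simpa using h),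
        add_zero]
    · rw [Set.indicator_of_notMem (by simpa using h), Set.indicator_of_mem (by simpa using h),
        zero_add]
  calc tau a = tau (res 0 M a + tail M a) := by rw [← h1]
    _ ≤ tau (res 0 M a) + tau (tail M a) := tau_add _ _
    _ ≤ ∑ n ∈ range M, a n + tau (tail M a) := by
      gcongr
      refine (tau_le_tsum _).trans ?_
      rw [tsum_eq_sum (s := range M)]
      · exact sum_le_sum fun n _ => res_le _ _ _ _
      · intro n hn
        unfold res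
        rw [Set.indicator_of_notMem]
        simpa using hn

/-- the unit vectors form an unconditional basis: convergence -/
lemma conv (x : Γ → ℝ) (hx : NN x ≠ ∞) (ε : ℝ) (hε : 0 < ε) :
    ∃ F : Finset Γ, ∀ G : Finset Γ, F ⊆ G →
      NN ((G : Set Γ)ᶜ.indicator x) ≤ ENNReal.ofReal ε := by
  obtain ⟨M, hM⟩ := tau_tail (AA x) hx (ENNReal.ofReal (ε/2)) (by simpa using by positivity)
  set η : ℝ := ε / 2 / ((M + 1) * 2 ^ M) with hη
  have hη0 : 0 < η := by positivity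
  refine ⟨(finite_large x hx η hη0).toFinset, fun G hG => ?_⟩
  set y := (G : Set Γ)ᶜ.indicator x with hy
  have hyx : ∀ γ, ‖y γ‖ₑ ≤ ‖x γ‖ₑ := by
    intro γ
    rw [hy]
    by_cases h : γ ∈ (G : Set Γ)ᶜ
    · rw [Set.indicator_of_mem h]
    · rw [Set.indicator_of_notMem h]
      simp
  have hyη : ∀ γ, ‖y γ‖ₑ ≤ ENNReal.ofReal η := by
    intro γ
    rw [hy]
    by_cases h : γ ∈ (G : Set Γ)ᶜ
    · rw [Set.indicator_of_mem h, Real.enorm_eq_ofReal_abs]
      refine ENNReal.ofReal_le_ofReal ?_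
      by_contra h2
      push Not at h2
      refine h (hG ?_)
      simpa using h2
    · rw [Set.indicator_of_notMem h]
      simp
  calc NN y ≤ ∑ n ∈ range M, AA y n + tau (tail M (AA y)) := tau_split M _
    _ ≤ ∑ n ∈ range M, 2 ^ M * ENNReal.ofReal η + tau (tail M (AA x)) := by
        refine add_le_add (sum_le_sum fun n hn => ?_) (tau_mono (tail_mono (AA_mono hyx)))
        refine (AA_le_mul y _ hyη n).trans ?_
        gcongr
        · norm_num
        · exact (mem_range.1 hn).le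
    _ ≤ ENNReal.ofReal (ε/2) + ENNReal.ofReal (ε/2) := by
        refine add_le_add ?_ hM
        rw [sum_const, card_range, nsmul_eq_mul]
        have h1 : (M : ℝ≥0∞) * (2 ^ M * ENNReal.ofReal η) = ENNReal.ofReal (M * (2 ^ M * η)) := by
          rw [ENNReal.ofReal_mul (by positivity), ENNReal.ofReal_mul (by positivity),
            ENNReal.ofReal_natCast, ENNReal.ofReal_pow (by norm_num)]
          norm_num
        rw [h1]
        refine ENNReal.ofReal_le_ofReal ?_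
        have h2 : (M : ℝ) * (2 ^ M * η) ≤ (M + 1) * (2 ^ M * η) := by
          have : 0 ≤ 2 ^ M * η := by positivity
          nlinarith
        refine h2.trans (le_of_eq ?_)
        rw [hη]
        field_simp
    _ = ENNReal.ofReal ε := by
        rw [← ENNReal.ofReal_add (by positivity) (by positivity)]
        congr 1
        ring

lemma conv' (x : XT Γ) (ε : ℝ) (hε : 0 < ε) :
    ∃ F : Finset Γ, ∀ G : Finset Γ, F ⊆ G → ‖PP (G : Set Γ)ᶜ x‖ ≤ ε := by
  obtain ⟨F, hF⟩ := conv (vv x) (NN_vv_ne_top x) ε hε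
  refine ⟨F, fun G hG => ?_⟩
  rw [← NN_le_iff _ _ hε.le]
  exact hF G hG

end Pool.Agent.H794R2.Tsi
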